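import Pool.Agent.R555.Iid

/-!
Averages of Bradley-Terry matrices: covering numbers and the existence of few centres.
-/

set_option autoImplicit false
set_option linter.unusedSectionVars false
set_option linter.unusedVariables false

namespace Pool.Agent.R555.BT

open Finset Pool.Agent.R555.Iid

/-- The average of the `d` Bradley-Terry matrices given by `a`. -/
noncomputable def avg {V : Type} (d : ℕ) (a : Fin d → V → ℝ) (x y : V) : ℝ :=
  (1 / d) * ∑ i, a i x / (a i x + a i y)

/-- `P` is represented on the set `A`. -/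
def Good {V : Type} (d : ℕ) (P : V → V → ℝ) (A : Set V) : Prop :=
  ∃ a : Fin d → V → ℝ, (∀ i x, 0 < a i x) ∧ ∀ x ∈ A, ∀ y ∈ A, x ≠ y → P x y = avg d a x y

lemma Good.mono {V : Type} {d : ℕ} {P : V → V → ℝ} {A B : Set V} (h : Good d P B) (hAB : A ⊆ B) :
    Good d P A := by
  obtain ⟨a, ha, h⟩ := h
  exact ⟨a, ha, fun x hx y hy => h x (hAB hx) y (hAB hy)⟩

lemma avg_self {V : Type} {d : ℕ} (hd : 1 ≤ d) {a : Fin d → V → ℝ} (ha : ∀ i x, 0 < a i x)
    (x : V) : avg d a x x = 1 / 2 := by
  unfold avg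
  have h : ∀ i, a i x / (a i x + a i x) = 1 / 2 := by
    intro i
    have := ha i x
    field_simp
    norm_num
  simp only [h, sum_const, card_univ, Fintype.card_fin, nsmul_eq_mul]
  have : (d : ℝ) ≠ 0 := by
    have : d ≠ 0 := by omega
    exact_mod_cast this
  field_simp

lemma avg_anti {V : Type} {d : ℕ} (hd : 1 ≤ d) {a : Fin d → V → ℝ} (ha : ∀ i x, 0 < a i x)
    (x y : V) : avg d a x y + avg d a y x = 1 := by
  unfold avg
  rw [← mul_add, ← sum_add_distrib]
  have h : ∀ i, a i x / (a i x + a i y) + a i y / (a i y + a i x) = 1 := by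
    intro i
    have h1 := ha i x
    have h2 := ha i y
    rw [add_comm (a i y) (a i x), ← add_div, div_self (by positivity)]
  simp only [h, sum_const, card_univ, Fintype.card_fin, nsmul_eq_mul]
  have : (d : ℝ) ≠ 0 := by
    have : d ≠ 0 := by omega
    exact_mod_cast this
  field_simp

lemma avg_nonneg {V : Type} {d : ℕ} {a : Fin d → V → ℝ} (ha : ∀ i x, 0 < a i x)
    (x y : V) : 0 ≤ avg d a x y := by
  unfold avg
  refine mul_nonneg (by positivity) (sum_nonneg fun i _ => ?_)
  have h1 := ha i x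
  have h2 := ha i y
  positivity

/-- The hypotheses on the matrix. -/
structure Mat {V : Type} (P : V → V → ℝ) : Prop where
  diag : ∀ x, P x x = 1 / 2
  anti : ∀ x y, P x y + P y x = 1
  nonneg : ∀ x y, 0 ≤ P x y

lemma Mat.le_one {V : Type} {P : V → V → ℝ} (hP : Mat P) (x y : V) : P x y ≤ 1 := by
  have := hP.anti x y
  have := hP.nonneg y x
  linarith

lemma Mat.abs_le {V : Type} {P : V → V → ℝ} (hP : Mat P) (x y x' y' : V) :
    |P x y - P x' y'| ≤ 1 := by
  have h1 := hP.nonneg x y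
  have h2 := hP.nonneg x' y'
  have h3 := hP.le_one x y
  have h4 := hP.le_one x' y'
  rw [_root_.abs_le]
  constructor <;> linarith

/-- distance of two rows at the coordinates `Y` -/
noncomputable def DY {V : Type} (P : V → V → ℝ) {m : ℕ} (Y : Fin m → V) (x x' : V) : ℝ :=
  (∑ j, |P x (Y j) - P x' (Y j)|) / m

lemma mono_frac {s t u : ℝ} (hs : 0 < s) (ht : 0 < t) (hu : 0 < u) (h : s ≤ t) :
    s / (s + u) ≤ t / (t + u) := by
  rw [div_le_div_iff₀ (by positivity) (by positivity)]
  nlinarith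

lemma DY_le {V : Type} {d : ℕ} (hd : 1 ≤ d) {P : V → V → ℝ} {a : Fin d → V → ℝ}
    (ha : ∀ i x, 0 < a i x) {m : ℕ} (hm : 0 < m) (Y : Fin m → V) (x x' : V)
    (hx : ∀ j, P x (Y j) = avg d a x (Y j)) (hx' : ∀ j, P x' (Y j) = avg d a x' (Y j)) :
    DY P Y x x' ≤ (1 / d) * ∑ i, |(∑ j, a i x / (a i x + a i (Y j))) / m -
      (∑ j, a i x' / (a i x' + a i (Y j))) / m| := by
  have hm0 : (0 : ℝ) < m := by exact_mod_cast hm
  have h1 : ∀ i, |(∑ j, a i x / (a i x + a i (Y j))) / m -
      (∑ j, a i x' / (a i x' + a i (Y j))) / m| =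
      (∑ j, |a i x / (a i x + a i (Y j)) - a i x' / (a i x' + a i (Y j))|) / m := by
    intro i
    rw [← sub_div, ← sum_sub_distrib, abs_div, abs_of_pos hm0]
    congr 1
    rcases le_total (a i x) (a i x') with h | h
    · have hle : ∀ j, a i x / (a i x + a i (Y j)) ≤ a i x' / (a i x' + a i (Y j)) :=
        fun j => mono_frac (ha i x) (ha i x') (ha i (Y j)) h
      rw [abs_of_nonpos (sum_nonpos fun j _ => by have := hle j; linarith), ← sum_neg_distrib]
      exact sum_congr rfl fun j _ => by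
        rw [abs_of_nonpos (by have := hle j; linarith)]
    · have hle : ∀ j, a i x' / (a i x' + a i (Y j)) ≤ a i x / (a i x + a i (Y j)) :=
        fun j => mono_frac (ha i x') (ha i x) (ha i (Y j)) h
      rw [abs_of_nonneg (sum_nonneg fun j _ => by have := hle j; linarith)]
      exact sum_congr rfl fun j _ => by
        rw [abs_of_nonneg (by have := hle j; linarith)]
  simp only [h1]
  unfold DY
  rw [← sum_div, ← mul_div_assoc]
  refine div_le_div_of_nonneg_right ?_ hm0.le
  rw [sum_comm, mul_sum]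
  refine sum_le_sum fun j _ => ?_
  rw [hx j, hx' j]
  unfold avg
  rw [← mul_sub, ← sum_sub_distrib, abs_mul, abs_of_nonneg (by positivity)]
  exact mul_le_mul_of_nonneg_left (abs_sum_le_sum_abs _ _) (by positivity)

/-- Few of the points `z i` are isolated. -/
lemma iso_card {V : Type} {d : ℕ} (hd : 1 ≤ d) {k : ℕ} (hk : 1 ≤ k) {P : V → V → ℝ} (hP : Mat P)
    {ι : Type} [Fintype ι] [DecidableEq ι] {m : ℕ} (hm : 0 < m) (z : ι → V) (Y : Fin m → V)
    (A : Set V) (hz : ∀ i, z i ∈ A) (hY : ∀ j, Y j ∈ A) (hG : Good d P A) (S : Finset ι)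
    (hS : ∀ i ∈ S, ∀ j, j ≠ i → 1 / (k : ℝ) < DY P Y (z i) (z j)) : #S ≤ (k + 1) ^ d := by
  classical
  obtain ⟨a, ha, hrep⟩ := hG
  have hrep' : ∀ x ∈ A, ∀ y ∈ A, P x y = avg d a x y := by
    intro x hx y hy
    by_cases hxy : x = y
    · subst hxy
      rw [hP.diag, avg_self hd ha]
    · exact hrep x hx y hy hxy
  have hm0 : (0 : ℝ) < m := by exact_mod_cast hm
  have hk0 : (0 : ℝ) < k := by exact_mod_cast hk
  have hd0 : (0 : ℝ) < d := by exact_mod_cast hd
  let α : Fin d → ι → ℝ := fun i l => (∑ j, a i (z l) / (a i (z l) + a i (Y j))) / m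
  have hα0 : ∀ i l, 0 ≤ α i l := by
    intro i l
    refine div_nonneg (sum_nonneg fun j _ => ?_) hm0.le
    have h1 := ha i (z l)
    have h2 := ha i (Y j)
    positivity
  have hα1 : ∀ i l, α i l ≤ 1 := by
    intro i l
    simp only [α]
    rw [div_le_one hm0]
    calc ∑ j, a i (z l) / (a i (z l) + a i (Y j)) ≤ ∑ j : Fin m, (1 : ℝ) := by
          refine sum_le_sum fun j _ => ?_
          have h1 := ha i (z l)
          have h2 := ha i (Y j)
          rw [div_le_one (by positivity)]
          linarith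
      _ = m := by simp
  let cls : ι → Fin d → Fin (k + 1) := fun l i => ⟨⌊k * α i l⌋₊, by
    rw [Nat.lt_succ_iff]
    refine Nat.floor_le_of_le ?_
    have := hα1 i l
    nlinarith⟩
  have hinj : Set.InjOn cls S := by
    intro l hl l' hl' hcls
    by_contra hne
    have h1 := hS l hl l' (fun h => hne h.symm)
    have h2 := DY_le hd ha hm Y (z l) (z l') (fun j => hrep' _ (hz l) _ (hY j))
      (fun j => hrep' _ (hz l') _ (hY j))
    have h3 : ∀ i, |α i l - α i l'| ≤ 1 / k := by
      intro i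
      have h4 : ⌊k * α i l⌋₊ = ⌊k * α i l'⌋₊ := by
        have := congrFun hcls i
        exact congrArg Fin.val this
      have h5 := Nat.floor_le (mul_nonneg hk0.le (hα0 i l))
      have h6 := Nat.lt_floor_add_one ((k : ℝ) * α i l)
      have h7 := Nat.floor_le (mul_nonneg hk0.le (hα0 i l'))
      have h8 := Nat.lt_floor_add_one ((k : ℝ) * α i l')
      rw [h4] at h5 h6
      have h10 : |α i l - α i l'| * k = |(α i l - α i l') * k| := by
        rw [abs_mul, abs_of_pos hk0]
      rw [le_div_iff₀ hk0, h10, _root_.abs_le]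
      constructor <;> nlinarith
    have h9 : (1 / (d : ℝ)) * ∑ i, |α i l - α i l'| ≤ 1 / k := by
      calc (1 / (d : ℝ)) * ∑ i, |α i l - α i l'| ≤ (1 / (d : ℝ)) * ∑ i : Fin d, 1 / (k : ℝ) :=
            mul_le_mul_of_nonneg_left (sum_le_sum fun i _ => h3 i) (by positivity)
        _ = 1 / k := by
            simp only [sum_const, card_univ, Fintype.card_fin, nsmul_eq_mul]
            field_simp
    exact absurd (lt_of_lt_of_le h1 (h2.trans h9)) (lt_irrefl _)
  calc #S = #(S.image cls) := (card_image_of_injOn hinj).symm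
    _ ≤ Fintype.card (Fin d → Fin (k + 1)) := card_le_univ _
    _ = (k + 1) ^ d := by simp

/-- distance of two rows with respect to `μ` -/
noncomputable def DV {V : Type} [Fintype V] (μ : V → ℝ) (P : V → V → ℝ) (x x' : V) : ℝ :=
  ∑ y, μ y * |P x y - P x' y|

lemma DV_symm {V : Type} [Fintype V] (μ : V → ℝ) (P : V → V → ℝ) (x x' : V) :
    DV μ P x x' = DV μ P x' x := by
  unfold DV
  exact sum_congr rfl fun y _ => by rw [abs_sub_comm]

lemma DV_triangle {V : Type} [Fintype V] {μ : V → ℝ} (h0 : ∀ a, 0 ≤ μ a) (P : V → V → ℝ)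
    (x x' x'' : V) : DV μ P x x'' ≤ DV μ P x x' + DV μ P x' x'' := by
  unfold DV
  rw [← sum_add_distrib]
  refine sum_le_sum fun y _ => ?_
  rw [← mul_add]
  exact mul_le_mul_of_nonneg_left (abs_sub_le _ _ _) (h0 y)

open Classical in
/-- Empirical distances are good approximations. -/
lemma prob_dist {V : Type} [Fintype V] {μ : V → ℝ} (h0 : ∀ a, 0 ≤ μ a) (h1 : ∑ a, μ a = 1)
    {P : V → V → ℝ} (hP : Mat P) {k m : ℕ} (hk : 1 ≤ k) (hm : 0 < m) (x x' : V) :
    Ex μ (Fin m) (fun Y => if 1 / (k : ℝ) < DV μ P x x' - DY P Y x x' then 1 else 0) ≤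
      k ^ 2 / m := by
  have hk0 : (0 : ℝ) < k := by exact_mod_cast hk
  have hv : Ex μ (Fin m) (fun Y => (DY P Y x x' - DV μ P x x') ^ 2) ≤ 1 / m :=
    variance h0 h1 hm (fun y => |P x y - P x' y|) (fun y => ⟨abs_nonneg _, hP.abs_le _ _ _ _⟩)
  calc Ex μ (Fin m) (fun Y => if 1 / (k : ℝ) < DV μ P x x' - DY P Y x x' then 1 else 0)
      ≤ Ex μ (Fin m) (fun Y => (k : ℝ) ^ 2 * (DY P Y x x' - DV μ P x x') ^ 2) := by
        refine Ex_mono h0 fun Y => ?_
        split_ifs with h
        · have h2 : 1 / (k : ℝ) < |DY P Y x x' - DV μ P x x'| := by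
            rw [abs_sub_comm]
            exact lt_of_lt_of_le h (le_abs_self _)
          have h3 : (1 / (k : ℝ)) ^ 2 ≤ (DY P Y x x' - DV μ P x x') ^ 2 := by
            rw [← sq_abs (DY P Y x x' - _)]
            exact pow_le_pow_left₀ (by positivity) h2.le 2
          calc (1 : ℝ) = (k : ℝ) ^ 2 * (1 / (k : ℝ)) ^ 2 := by field_simp
            _ ≤ _ := mul_le_mul_of_nonneg_left h3 (by positivity)
        · positivity
    _ = (k : ℝ) ^ 2 * Ex μ (Fin m) (fun Y => (DY P Y x x' - DV μ P x x') ^ 2) := Ex_mul_left _ _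
    _ ≤ (k : ℝ) ^ 2 * (1 / m) := mul_le_mul_of_nonneg_left hv (by positivity)
    _ = k ^ 2 / m := by ring

open Classical in
/-- Few centres are close to almost all points. -/
theorem exists_centres {V : Type} [Fintype V] {μ : V → ℝ} (h0 : ∀ a, 0 ≤ μ a)
    (h1 : ∑ a, μ a = 1) {d : ℕ} (hd : 1 ≤ d) {P : V → V → ℝ} (hP : Mat P) {k : ℕ} (hk : 1 ≤ k)
    {M m N : ℕ} (hM : (k + 1) ^ d * k ≤ M) (hm : (M + 1) ^ 2 * k ^ 3 ≤ m) (hN : M + 1 + m ≤ N)
    (hG : Ex μ (Fin N) (fun x => if Good d P (Set.range x) then 0 else 1) ≤ 1 / k) :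
    ∃ c : Fin M → V, ∑ x, μ x * (if ∀ j, 2 / (k : ℝ) < DV μ P x (c j) then 1 else 0) ≤ 3 / k := by
  have hk0 : (0 : ℝ) < k := by exact_mod_cast hk
  have hm1 : 0 < m := lt_of_lt_of_le (by positivity) hm
  have hM0 : (0 : ℝ) < (M : ℝ) + 1 := by positivity
  let ι := Fin M ⊕ Unit
  -- the indicator that `z i` is isolated
  let iso : (ι → V) → ι → ℝ := fun z i => if ∀ j, j ≠ i → 2 / (k : ℝ) < DV μ P (z i) (z j) then 1 else 0
  have hexch : ∀ i : ι, Ex μ ι (fun z => iso z i) = Ex μ ι (fun z => iso z (Sum.inr ())) := by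
    intro i
    have h2 := marg (μ := μ) h1 (Equiv.swap i (Sum.inr () : ι)).toEmbedding (fun z => iso z (Sum.inr ()))
    rw [← h2]
    congr 1
    funext z
    simp only [iso, Function.comp, Equiv.toEmbedding_apply, Equiv.swap_apply_right]
    congr 1
    apply propext
    constructor
    · intro h j hj
      apply h
      intro h3
      apply hj
      rw [Equiv.swap_apply_eq_iff, Equiv.swap_apply_left] at h3
      exact h3
    · intro h j hj
      have := h (Equiv.swap i (Sum.inr ()) j) (by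
        intro h3
        rw [Equiv.swap_apply_eq_iff, Equiv.swap_apply_right] at h3
        exact hj h3)
      rwa [Equiv.swap_apply_self] at this
  -- the total number of isolated points
  have htotal : ((M : ℝ) + 1) * Ex μ ι (fun z => iso z (Sum.inr ())) =
      Ex μ ι (fun z => ∑ i, iso z i) := by
    rw [Ex_sum]
    simp only [hexch, sum_const, card_univ, nsmul_eq_mul]
    congr 1
    simp [ι]
  have hpt : ∀ (z : ι → V) (Y : Fin m → V), ∑ i, iso z i ≤ ((k : ℝ) + 1) ^ d +
      ((M : ℝ) + 1) * ((if Good d P (Set.range (Sum.elim z Y)) then 0 else 1) +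
        ∑ i, ∑ j, if 1 / (k : ℝ) < DV μ P (z i) (z j) - DY P Y (z i) (z j) then 1 else 0) := by
    intro z Y
    have hsum1 : ∑ i, iso z i ≤ (M : ℝ) + 1 := by
      calc ∑ i, iso z i ≤ ∑ i : ι, (1 : ℝ) := sum_le_sum fun i _ => by
            simp only [iso]; split_ifs <;> norm_num
        _ = (M : ℝ) + 1 := by simp [ι]
    have hnn : (0 : ℝ) ≤ ∑ i : ι, ∑ j : ι,
        if 1 / (k : ℝ) < DV μ P (z i) (z j) - DY P Y (z i) (z j) then 1 else 0 :=
      sum_nonneg fun i _ => sum_nonneg fun j _ => by split_ifs <;> norm_num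
    have hc : (0 : ℝ) ≤ ((k : ℝ) + 1) ^ d := by positivity
    by_cases hg : Good d P (Set.range (Sum.elim z Y))
    · rw [if_pos hg, zero_add]
      by_cases hA : ∀ i j, ¬ 1 / (k : ℝ) < DV μ P (z i) (z j) - DY P Y (z i) (z j)
      · have hcount : #{i | ∀ j, j ≠ i → 2 / (k : ℝ) < DV μ P (z i) (z j)} ≤ (k + 1) ^ d := by
          refine iso_card hd hk hP hm1 z Y (Set.range (Sum.elim z Y)) (fun i => ⟨Sum.inl i, rfl⟩)
            (fun j => ⟨Sum.inr j, rfl⟩) hg _ ?_
          intro i hi j hj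
          have h3 := (mem_filter.1 hi).2 j hj
          have h4 := hA i j
          push Not at h4
          have h5 : 2 / (k : ℝ) = 1 / k + 1 / k := by ring
          linarith
        have h3 : ∑ i, iso z i = #{i | ∀ j, j ≠ i → 2 / (k : ℝ) < DV μ P (z i) (z j)} := by
          simp only [iso]
          rw [sum_ite, sum_const_zero, add_zero, sum_const, nsmul_eq_mul, mul_one]
        rw [h3]
        have h4 : (#{i | ∀ j, j ≠ i → 2 / (k : ℝ) < DV μ P (z i) (z j)} : ℝ) ≤ ((k : ℝ) + 1) ^ d := by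
          exact_mod_cast hcount
        have := mul_nonneg hM0.le hnn
        linarith
      · push Not at hA
        obtain ⟨i, j, hij⟩ := hA
        have h3 : (1 : ℝ) ≤ ∑ i : ι, ∑ j : ι,
            if 1 / (k : ℝ) < DV μ P (z i) (z j) - DY P Y (z i) (z j) then 1 else 0 := by
          calc (1 : ℝ) = if 1 / (k : ℝ) < DV μ P (z i) (z j) - DY P Y (z i) (z j) then 1 else 0 := by
                rw [if_pos hij]
            _ ≤ ∑ j : ι, if 1 / (k : ℝ) < DV μ P (z i) (z j) - DY P Y (z i) (z j) then 1 else 0 :=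
                single_le_sum (f := fun j => if 1 / (k : ℝ) < DV μ P (z i) (z j) -
                  DY P Y (z i) (z j) then (1 : ℝ) else 0)
                  (fun j _ => by split_ifs <;> norm_num) (mem_univ j)
            _ ≤ _ := single_le_sum (f := fun i => ∑ j : ι, if 1 / (k : ℝ) < DV μ P (z i) (z j) -
                  DY P Y (z i) (z j) then (1 : ℝ) else 0)
                  (fun i _ => sum_nonneg fun j _ => by split_ifs <;> norm_num) (mem_univ i)
        nlinarith
    · rw [if_neg hg]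
      nlinarith
  have hbound : Ex μ ι (fun z => ∑ i, iso z i) ≤ ((k : ℝ) + 1) ^ d +
      ((M : ℝ) + 1) * (1 / k + ((M : ℝ) + 1) ^ 2 * (k ^ 2 / m)) := by
    have h2 : Ex μ ι (fun z => ∑ i, iso z i) =
        Ex μ ι (fun z => Ex μ (Fin m) (fun _ => ∑ i, iso z i)) := by
      congr 1
      funext z
      rw [Ex_const h1]
    rw [h2]
    calc Ex μ ι (fun z => Ex μ (Fin m) (fun _ => ∑ i, iso z i))
        ≤ Ex μ ι (fun z => Ex μ (Fin m) (fun Y => ((k : ℝ) + 1) ^ d +
          ((M : ℝ) + 1) * ((if Good d P (Set.range (Sum.elim z Y)) then 0 else 1) +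
          ∑ i, ∑ j, if 1 / (k : ℝ) < DV μ P (z i) (z j) - DY P Y (z i) (z j) then 1 else 0))) :=
          Ex_mono h0 fun z => Ex_mono h0 fun Y => hpt z Y
      _ = ((k : ℝ) + 1) ^ d + ((M : ℝ) + 1) * (Ex μ ι (fun z => Ex μ (Fin m) (fun Y =>
            (if Good d P (Set.range (Sum.elim z Y)) then 0 else 1))) +
          Ex μ ι (fun z => ∑ i, ∑ j, Ex μ (Fin m) (fun Y =>
            if 1 / (k : ℝ) < DV μ P (z i) (z j) - DY P Y (z i) (z j) then 1 else 0))) := by
          simp only [Ex_add, Ex_mul_left, Ex_const h1, Ex_sum]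
      _ ≤ ((k : ℝ) + 1) ^ d + ((M : ℝ) + 1) * (1 / k + ((M : ℝ) + 1) ^ 2 * (k ^ 2 / m)) := by
          refine add_le_add le_rfl (mul_le_mul_of_nonneg_left (add_le_add ?_ ?_) hM0.le)
          · rw [← Ex_sum_type (μ := μ) (κ := ι) (ι := Fin m)
              (fun x => if Good d P (Set.range x) then (0 : ℝ) else 1)]
            refine le_trans ?_ hG
            have hcard : Fintype.card (ι ⊕ Fin m) ≤ Fintype.card (Fin N) := by
              simp [ι]
              omega
            obtain ⟨e⟩ := Function.Embedding.nonempty_of_card_le hcard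
            rw [← marg h1 e]
            refine Ex_mono h0 fun x => ?_
            by_cases hx : Good d P (Set.range x)
            · rw [if_pos (hx.mono (Set.range_comp_subset_range _ _)), if_pos hx]
            · rw [if_neg hx]
              split_ifs <;> norm_num
          · calc Ex μ ι (fun z => ∑ i, ∑ j, Ex μ (Fin m) (fun Y =>
                if 1 / (k : ℝ) < DV μ P (z i) (z j) - DY P Y (z i) (z j) then 1 else 0))
                ≤ Ex μ ι (fun z => ∑ i : ι, ∑ j : ι, (k : ℝ) ^ 2 / m) :=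
                  Ex_mono h0 fun z => sum_le_sum fun i _ => sum_le_sum fun j _ =>
                    prob_dist h0 h1 hP hk hm1 _ _
              _ = ((M : ℝ) + 1) ^ 2 * (k ^ 2 / m) := by
                  rw [Ex_const h1]
                  simp [ι]
                  ring
  have hm2 : ((M : ℝ) + 1) ^ 2 * (k ^ 2 / m) ≤ 1 / k := by
    have h3 : ((M : ℝ) + 1) ^ 2 * (k : ℝ) ^ 3 ≤ m := by exact_mod_cast hm
    have h4 : (0 : ℝ) < m := by exact_mod_cast hm1
    rw [← mul_div_assoc, div_le_div_iff₀ h4 hk0]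
    nlinarith
  have hM2 : ((k : ℝ) + 1) ^ d ≤ ((M : ℝ) + 1) * (1 / k) := by
    have h3 : ((k : ℝ) + 1) ^ d * k ≤ M := by exact_mod_cast hM
    rw [mul_one_div, le_div_iff₀ hk0]
    linarith
  have hfin : Ex μ ι (fun z => iso z (Sum.inr ())) ≤ 3 / k := by
    have h3 : ((M : ℝ) + 1) * Ex μ ι (fun z => iso z (Sum.inr ())) ≤ ((M : ℝ) + 1) * (3 / k) := by
      rw [htotal]
      refine hbound.trans ?_
      have h4 : ((M : ℝ) + 1) * (3 / k) = ((M : ℝ) + 1) * (1 / k) +
          ((M : ℝ) + 1) * (1 / k + 1 / k) := by ring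
      rw [h4]
      exact add_le_add hM2 (mul_le_mul_of_nonneg_left (by linarith) hM0.le)
    exact le_of_mul_le_mul_left h3 hM0
  rw [Ex_sum_type] at hfin
  by_contra hcon
  push Not at hcon
  have hlt : 3 / (k : ℝ) < Ex μ (Fin M) (fun u => Ex μ Unit (fun v => iso (Sum.elim u v) (Sum.inr ()))) := by
    have h5 : ∀ u : Fin M → V, ∑ x, μ x * (if ∀ j, 2 / (k : ℝ) < DV μ P x (u j) then 1 else 0) ≤
        Ex μ Unit (fun v => iso (Sum.elim u v) (Sum.inr ())) := by
      intro u
      unfold Ex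
      rw [← (Equiv.funUnique Unit V).symm.sum_comp]
      refine sum_le_sum fun x _ => ?_
      have h6 : wt μ ((Equiv.funUnique Unit V).symm x) = μ x := by
        unfold wt
        simp
      rw [h6]
      refine mul_le_mul_of_nonneg_left ?_ (h0 x)
      by_cases h7 : ∀ j, 2 / (k : ℝ) < DV μ P x (u j)
      · rw [if_pos h7]
        simp only [iso]
        rw [if_pos]
        intro j hj
        rcases j with j | j
        · exact h7 j
        · exact absurd rfl hj
      · rw [if_neg h7]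
        simp only [iso]
        split_ifs <;> norm_num
    -- a strict inequality of expectations
    obtain ⟨u₀, hu₀⟩ : ∃ u : Fin M → V, 0 < wt μ u := by
      by_contra hno
      push Not at hno
      have h6 : ∑ u : Fin M → V, wt μ u ≤ 0 := sum_nonpos fun u _ => hno u
      rw [sum_wt h1] at h6
      linarith
    calc (3 : ℝ) / k = ∑ u : Fin M → V, wt μ u * (3 / k) := by
          rw [← sum_mul, sum_wt h1, one_mul]
      _ < ∑ u : Fin M → V, wt μ u * (∑ x, μ x * (if ∀ j, 2 / (k : ℝ) < DV μ P x (u j) then 1 else 0)) := by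
          refine sum_lt_sum (fun u _ => mul_le_mul_of_nonneg_left (hcon u).le (wt_nonneg h0 u))
            ⟨u₀, mem_univ _, mul_lt_mul_of_pos_left (hcon u₀) hu₀⟩
      _ ≤ _ := Ex_mono h0 h5
  linarith

end Pool.Agent.R555.BT
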