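import Pool.Agent.R555.BT1

/-!
Averages of Bradley-Terry matrices: blocks and random representatives.
-/

set_option autoImplicit false
set_option linter.unusedSectionVars false
set_option linter.unusedVariables false

namespace Pool.Agent.R555.BT

open Finset Pool.Agent.R555.Iid

lemma exists_blocks {V : Type} [Fintype V] [DecidableEq V] {μ : V → ℝ} (h0 : ∀ a, 0 ≤ μ a)
    {P : V → V → ℝ} {k M g : ℕ} (hg : 1 ≤ g) (c : Fin M → V) {ν : ℝ}
    (hν : (#{x | ∀ j, 2 / (k : ℝ) < DV μ P x (c j)} : ℝ) ≤ ν) :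
    ∃ (β : Type) (_ : Fintype β) (_ : DecidableEq β) (e : β × Fin g ↪ V),
      (∀ b i i', DV μ P (e (b, i)) (e (b, i')) ≤ 4 / k) ∧
      (#{x | x ∉ univ.map e} : ℝ) ≤ ν + M * g := by
  classical
  let valid : Finset (Finset V) → Prop := fun 𝓑 =>
    (∀ B ∈ 𝓑, #B = g ∧ ∀ x ∈ B, ∀ y ∈ B, DV μ P x y ≤ 4 / k) ∧
      (𝓑 : Set (Finset V)).PairwiseDisjoint id
  obtain ⟨𝓑, h𝓑, hmax⟩ := exists_max_image ({𝓑 | valid 𝓑} : Finset (Finset (Finset V))) card
    ⟨∅, by simp [valid]⟩
  rw [mem_filter] at h𝓑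
  obtain ⟨-, hv, hd⟩ := h𝓑
  set U : Finset V := {x | ∀ B ∈ 𝓑, x ∉ B} with hU
  have hball : ∀ j, #{x ∈ U | DV μ P x (c j) ≤ 2 / k} ≤ g := by
    intro j
    by_contra hcon
    push Not at hcon
    obtain ⟨B, hB, hBc⟩ := exists_subset_card_eq hcon.le
    have hBU : ∀ x ∈ B, x ∈ U := fun x hx => (mem_filter.1 (hB hx)).1
    have hBd : ∀ x ∈ B, DV μ P x (c j) ≤ 2 / k := fun x hx => (mem_filter.1 (hB hx)).2
    have hdis : ∀ B' ∈ 𝓑, Disjoint B B' := by
      intro B' hB'
      rw [Finset.disjoint_left]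
      intro x hx hx'
      exact (mem_filter.1 (hBU x hx)).2 B' hB' hx'
    have hnot : B ∉ 𝓑 := by
      intro hmem
      have h1 := hdis B hmem
      rw [disjoint_self_iff_empty] at h1
      rw [h1, card_empty] at hBc
      omega
    have hval : valid (insert B 𝓑) := by
      refine ⟨?_, ?_⟩
      · intro B' hB'
        rcases mem_insert.1 hB' with rfl | h1
        · refine ⟨hBc, fun x hx y hy => ?_⟩
          have h2 := DV_triangle h0 P x (c j) y
          have h3 := hBd x hx
          have h4 := hBd y hy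
          rw [DV_symm] at h4
          have h5 : (4 : ℝ) / k = 2 / k + 2 / k := by ring
          linarith
        · exact hv B' h1
      · rw [coe_insert]
        exact hd.insert fun B' hB' _ => hdis B' hB'
    have h1 := hmax (insert B 𝓑) (by rw [mem_filter]; exact ⟨mem_univ _, hval⟩)
    rw [card_insert_of_notMem hnot] at h1
    omega
  have hUcard : (#U : ℝ) ≤ ν + M * g := by
    have h1 : U ⊆ ({x | ∀ j, 2 / (k : ℝ) < DV μ P x (c j)} : Finset V) ∪
        univ.biUnion (fun j => {x ∈ U | DV μ P x (c j) ≤ 2 / k}) := by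
      intro x hx
      by_cases h : ∀ j, 2 / (k : ℝ) < DV μ P x (c j)
      · exact mem_union_left _ (by rw [mem_filter]; exact ⟨mem_univ _, h⟩)
      · push Not at h
        obtain ⟨j, hj⟩ := h
        exact mem_union_right _ (mem_biUnion.2 ⟨j, mem_univ _, by rw [mem_filter]; exact ⟨hx, hj⟩⟩)
    have h2 : #U ≤ #{x | ∀ j, 2 / (k : ℝ) < DV μ P x (c j)} + M * g := by
      refine (card_le_card h1).trans ((card_union_le _ _).trans ?_)
      refine Nat.add_le_add_left ?_ _
      refine card_biUnion_le.trans ?_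
      calc ∑ j : Fin M, #{x ∈ U | DV μ P x (c j) ≤ 2 / k} ≤ ∑ j : Fin M, g :=
            sum_le_sum fun j _ => hball j
        _ = M * g := by simp
    have h3 : (#U : ℝ) ≤ (#{x | ∀ j, 2 / (k : ℝ) < DV μ P x (c j)} : ℝ) + M * g := by
      exact_mod_cast h2
    linarith
  let f : {B // B ∈ 𝓑} × Fin g → V := fun p =>
    ((p.1.1.equivFinOfCardEq (hv p.1.1 p.1.2).1).symm p.2).1
  have hfmem : ∀ p, f p ∈ p.1.1 := fun p => ((p.1.1.equivFinOfCardEq (hv p.1.1 p.1.2).1).symm p.2).2
  have hf : Function.Injective f := by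
    rintro ⟨⟨B, hB⟩, i⟩ ⟨⟨B', hB'⟩, i'⟩ h
    have hBB : B = B' := by
      by_contra hne
      have h1 : Disjoint B B' := hd hB hB' hne
      have h2 := hfmem ⟨⟨B, hB⟩, i⟩
      rw [h] at h2
      exact (Finset.disjoint_left.1 h1) h2 (hfmem ⟨⟨B', hB'⟩, i'⟩)
    subst hBB
    have h1 : i = i' := (B.equivFinOfCardEq (hv B hB).1).symm.injective (Subtype.ext h)
    subst h1
    rfl
  refine ⟨{B // B ∈ 𝓑}, inferInstance, inferInstance, ⟨f, hf⟩, ?_, ?_⟩
  · intro b i i'
    exact (hv b.1 b.2).2 _ (hfmem (b, i)) _ (hfmem (b, i'))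
  · refine le_trans ?_ hUcard
    have h1 : ({x | x ∉ univ.map ⟨f, hf⟩} : Finset V) ⊆ U := by
      intro x hx
      rw [mem_filter] at hx
      rw [hU, mem_filter]
      refine ⟨mem_univ _, fun B hB hxB => hx.2 ?_⟩
      rw [mem_map]
      refine ⟨(⟨B, hB⟩, (B.equivFinOfCardEq (hv B hB).1) ⟨x, hxB⟩), mem_univ _, ?_⟩
      simp [f]
    exact_mod_cast card_le_card h1

lemma wt_const {Λ : Type} (c : ℝ) {κ : Type} [Fintype κ] (x : κ → Λ) :
    wt (fun _ => c) x = c ^ Fintype.card κ := by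
  unfold wt
  rw [prod_const, card_univ]

lemma Ex_equiv {Λ : Type} [Fintype Λ] (c : ℝ) {κ : Type} [Fintype κ] [DecidableEq κ]
    (E : (κ → Λ) ≃ (κ → Λ)) (G : (κ → Λ) → ℝ) :
    Ex (fun _ => c) κ (fun x => G (E x)) = Ex (fun _ => c) κ G := by
  unfold Ex
  simp only [wt_const]
  exact E.sum_comp (fun x => c ^ Fintype.card κ * G x)

lemma Ex_comm {Λ Λ' : Type} [Fintype Λ] [Fintype Λ'] (μ : Λ → ℝ) (μ' : Λ' → ℝ) {κ κ' : Type}
    [Fintype κ] [DecidableEq κ] [Fintype κ'] [DecidableEq κ'] (G : (κ → Λ) → (κ' → Λ') → ℝ) :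
    Ex μ κ (fun x => Ex μ' κ' (fun y => G x y)) = Ex μ' κ' (fun y => Ex μ κ (fun x => G x y)) := by
  unfold Ex
  simp only [mul_sum]
  rw [sum_comm]
  exact sum_congr rfl fun y _ => sum_congr rfl fun x _ => by ring

lemma sum_unif {n : ℕ} (hn : 1 ≤ n) : ∑ _a : Fin n, (1 / (n : ℝ)) = 1 := by
  have : (n : ℝ) ≠ 0 := by
    have : n ≠ 0 := by omega
    exact_mod_cast this
  simp [this]

open Classical in
/-- Random representatives of the blocks are good. -/
theorem prob_reps {n : ℕ} (hn : 1 ≤ n) {d : ℕ} {P : Fin n → Fin n → ℝ} {g M : ℕ} (hg : 1 ≤ g)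
    {β : Type} [Fintype β] [DecidableEq β] (e : β × Fin g ↪ Fin n) {δ : ℝ}
    (hG : Ex (fun _ => 1 / (n : ℝ)) (Fin M) (fun x => if Good d P (Set.range x) then 0 else 1) ≤ δ)
    (hhit : Fintype.card β * (1 - g / (n : ℝ)) ^ M ≤ δ) :
    Ex (fun _ => 1 / (g : ℝ)) β
      (fun ρ => if Good d P (Set.range fun b => e (b, ρ b)) then 0 else 1) * (1 - δ) ≤ δ := by
  have hn0 : (0 : ℝ) < n := by exact_mod_cast hn
  have hg0 : (0 : ℝ) < g := by exact_mod_cast hg
  have hμ0 : ∀ a : Fin n, 0 ≤ (fun _ => 1 / (n : ℝ)) a := fun _ => by positivity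
  have hμ1 := sum_unif hn
  have hγ0 : ∀ a : Fin g, 0 ≤ (fun _ => 1 / (g : ℝ)) a := fun _ => by positivity
  have hγ1 := sum_unif hg
  have : NeZero g := ⟨by omega⟩
  set Q := Ex (fun _ => 1 / (g : ℝ)) β
      (fun ρ => if Good d P (Set.range fun b => e (b, ρ b)) then 0 else 1) with hQ
  have hQ0 : 0 ≤ Q := Ex_nonneg hγ0 fun ρ => by split_ifs <;> norm_num
  let π : (β → Fin g) → Equiv.Perm (Fin n) := fun s =>
    Equiv.Perm.viaEmbedding ((Equiv.refl β).prodShear (fun b => Equiv.addRight (s b))) e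
  have hπ : ∀ s b i, π s (e (b, i)) = e (b, i + s b) := by
    intro s b i
    simp only [π]
    rw [Equiv.Perm.viaEmbedding_apply]
    rfl
  let hit : (Fin M → Fin n) → Prop := fun z => ∀ b, ∃ t i, z t = e (b, i)
  have hz : ∀ z : Fin M → Fin n, Q * (if hit z then 1 else 0) ≤
      Ex (fun _ => 1 / (g : ℝ)) β (fun s => if Good d P (Set.range (π s ∘ z)) then 0 else 1) := by
    intro z
    by_cases h : hit z
    · rw [if_pos h, mul_one, hQ]
      choose τ i hτ using h
      rw [← Ex_equiv (1 / (g : ℝ)) (Equiv.addLeft i)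
        (fun ρ => if Good d P (Set.range fun b => e (b, ρ b)) then (0 : ℝ) else 1)]
      refine Ex_mono hγ0 fun s => ?_
      by_cases h1 : Good d P (Set.range (π s ∘ z))
      · have h2 : Good d P (Set.range fun b => e (b, (Equiv.addLeft i) s b)) := by
          refine h1.mono ?_
          rintro x ⟨b, rfl⟩
          refine ⟨τ b, ?_⟩
          simp only [Function.comp, hτ b, hπ]
          rfl
        rw [if_pos h1, if_pos h2]
      · rw [if_neg h1]
        split_ifs <;> norm_num
    · rw [if_neg h, mul_zero]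
      exact Ex_nonneg hγ0 fun s => by split_ifs <;> norm_num
  have h1 : Ex (fun _ => 1 / (n : ℝ)) (Fin M) (fun z => Q * (if hit z then 1 else 0)) ≤ δ := by
    refine (Ex_mono hμ0 hz).trans ?_
    rw [Ex_comm]
    have h2 : ∀ s, Ex (fun _ => 1 / (n : ℝ)) (Fin M)
        (fun z => if Good d P (Set.range (π s ∘ z)) then (0 : ℝ) else 1) =
        Ex (fun _ => 1 / (n : ℝ)) (Fin M) (fun z => if Good d P (Set.range z) then 0 else 1) :=
      fun s => Ex_equiv (1 / (n : ℝ)) (Equiv.arrowCongr (Equiv.refl _) (π s))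
        (fun z => if Good d P (Set.range z) then (0 : ℝ) else 1)
    simp only [h2]
    rw [Ex_const hγ1]
    exact hG
  have h3 : 1 - δ ≤ Ex (fun _ => 1 / (n : ℝ)) (Fin M) (fun z => if hit z then 1 else 0) := by
    have h4 : ∀ z : Fin M → Fin n, 1 - ∑ b : β, (if ∀ t i, z t ≠ e (b, i) then (1 : ℝ) else 0) ≤
        if hit z then 1 else 0 := by
      intro z
      by_cases h : hit z
      · rw [if_pos h]
        have : (0 : ℝ) ≤ ∑ b : β, (if ∀ t i, z t ≠ e (b, i) then (1 : ℝ) else 0) :=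
          sum_nonneg fun b _ => by split_ifs <;> norm_num
        linarith
      · rw [if_neg h]
        simp only [hit] at h
        push Not at h
        obtain ⟨b, hb⟩ := h
        have : (1 : ℝ) ≤ ∑ b : β, (if ∀ t i, z t ≠ e (b, i) then (1 : ℝ) else 0) := by
          calc (1 : ℝ) = if ∀ t i, z t ≠ e (b, i) then (1 : ℝ) else 0 := by rw [if_pos hb]
            _ ≤ _ := single_le_sum (f := fun b => if ∀ t i, z t ≠ e (b, i) then (1 : ℝ) else 0)
              (fun b _ => by split_ifs <;> norm_num) (mem_univ b)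
        linarith
    refine le_trans ?_ (Ex_mono hμ0 h4)
    have h5 : ∀ b : β, Ex (fun _ => 1 / (n : ℝ)) (Fin M)
        (fun z => if ∀ t i, z t ≠ e (b, i) then (1 : ℝ) else 0) = (1 - g / (n : ℝ)) ^ M := by
      intro b
      unfold Ex wt
      have h6 : ∀ z : Fin M → Fin n, (∏ _j : Fin M, 1 / (n : ℝ)) *
          (if ∀ t i, z t ≠ e (b, i) then (1 : ℝ) else 0) =
          ∏ t, (1 / (n : ℝ) * (if ∀ i, z t ≠ e (b, i) then 1 else 0)) := by
        intro z
        rw [prod_mul_distrib]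
        congr 1
        by_cases h : ∀ t i, z t ≠ e (b, i)
        · rw [if_pos h]
          symm
          exact prod_eq_one fun t _ => if_pos (h t)
        · rw [if_neg h]
          push Not at h
          obtain ⟨t, i, hti⟩ := h
          symm
          refine prod_eq_zero (mem_univ t) (if_neg ?_)
          push Not
          exact ⟨i, hti⟩
      simp only [h6]
      rw [sum_prod (Fin M) (fun x : Fin n => 1 / (n : ℝ) * (if ∀ i, x ≠ e (b, i) then 1 else 0)),
        Fintype.card_fin]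
      congr 1
      rw [← mul_sum]
      have h7 : ∑ x : Fin n, (if ∀ i, x ≠ e (b, i) then (1 : ℝ) else 0) = n - g := by
        have h8 : ∀ x : Fin n, (if ∀ i, x ≠ e (b, i) then (1 : ℝ) else 0) =
            1 - (if x ∈ univ.map ⟨fun i : Fin g => e (b, i), fun i j h => by
              have := e.injective h
              simpa using this⟩ then 1 else 0) := by
          intro x
          by_cases h : ∀ i, x ≠ e (b, i)
          · rw [if_pos h, if_neg, sub_zero]
            rw [mem_map]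
            rintro ⟨i, -, hi⟩
            exact h i hi.symm
          · rw [if_neg h, if_pos, sub_self]
            push Not at h
            obtain ⟨i, hi⟩ := h
            rw [mem_map]
            exact ⟨i, mem_univ _, hi.symm⟩
        simp only [h8, sum_sub_distrib, sum_const, card_univ, Fintype.card_fin, nsmul_eq_mul,
          mul_one, sum_ite_mem, univ_inter, card_map]
      rw [h7]
      field_simp
    have h9 : Ex (fun _ => 1 / (n : ℝ)) (Fin M)
        (fun z => 1 - ∑ b : β, (if ∀ t i, z t ≠ e (b, i) then (1 : ℝ) else 0)) =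
        1 - Fintype.card β * (1 - g / (n : ℝ)) ^ M := by
      have h10 : (fun z : Fin M → Fin n => 1 - ∑ b : β,
          (if ∀ t i, z t ≠ e (b, i) then (1 : ℝ) else 0)) =
          fun z => 1 + (-1) * ∑ b : β, (if ∀ t i, z t ≠ e (b, i) then (1 : ℝ) else 0) := by
        funext z; ring
      rw [h10, Ex_add, Ex_const hμ1, Ex_mul_left, Ex_sum]
      simp only [h5, sum_const, card_univ, nsmul_eq_mul]
      ring
    rw [h9]
    linarith
  rw [Ex_mul_left] at h1
  exact (mul_le_mul_of_nonneg_left h3 hQ0).trans h1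

end Pool.Agent.R555.BT
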