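import Pool.Agent.R555.BT2

/-!
Averages of Bradley-Terry matrices: the representation of the whole matrix.
-/

set_option autoImplicit false
set_option linter.unusedSectionVars false
set_option linter.unusedVariables false

namespace Pool.Agent.R555.BT

open Finset Pool.Agent.R555.Iid

/-- two coordinates of a random function -/
lemma Ex_two {g : ℕ} (hg : 1 ≤ g) {β : Type} [Fintype β] [DecidableEq β] {b b' : β} (hb : b ≠ b')
    (F : Fin g → Fin g → ℝ) :
    Ex (fun _ => 1 / (g : ℝ)) β (fun ρ => F (ρ b) (ρ b')) =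
      (1 / (g : ℝ)) ^ 2 * ∑ i, ∑ i', F i i' := by
  have hγ1 := sum_unif hg
  let e₀ : Bool ↪ β := ⟨fun t => cond t b' b, by
    intro t t' h
    cases t <;> cases t' <;> simp_all⟩
  have h := marg (μ := fun _ : Fin g => 1 / (g : ℝ)) hγ1 e₀ (fun y => F (y false) (y true))
  have h2 : (fun x : β → Fin g => (fun y : Bool → Fin g => F (y false) (y true)) (x ∘ e₀)) =
      fun ρ => F (ρ b) (ρ b') := by
    rfl
  rw [h2] at h
  rw [h]
  unfold Ex
  simp only [wt_const, Fintype.card_bool]
  rw [← mul_sum, ← (Equiv.boolArrowEquivProd (Fin g)).symm.sum_comp, Fintype.sum_prod_type]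
  rfl

lemma sum_map_le {V γ : Type} [Fintype V] [Fintype γ] (e : γ ↪ V) (f : V → ℝ)
    (hf : ∀ x, 0 ≤ f x) : ∑ p, f (e p) ≤ ∑ x, f x := by
  classical
  rw [← sum_map univ e f]
  exact sum_le_sum_of_subset_of_nonneg (subset_univ _) fun x _ _ => hf x

lemma sum_abs_eq {n : ℕ} (hn : 1 ≤ n) (P : Fin n → Fin n → ℝ) (x x' : Fin n) :
    ∑ y, |P x y - P x' y| = n * DV (fun _ => 1 / (n : ℝ)) P x x' := by
  have hn0 : (n : ℝ) ≠ 0 := by
    have : n ≠ 0 := by omega
    exact_mod_cast this
  unfold DV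
  rw [← mul_sum, ← mul_assoc, mul_one_div_cancel hn0, one_mul]

/-- the expected error in the columns -/
lemma E_T2 {n : ℕ} (hn : 1 ≤ n) {P : Fin n → Fin n → ℝ} (hP : Mat P) {k g : ℕ} (hk : 1 ≤ k)
    (hg : 1 ≤ g) {β : Type} [Fintype β] [DecidableEq β] (e : β × Fin g ↪ Fin n)
    (hdiam : ∀ b i i', DV (fun _ => 1 / (n : ℝ)) P (e (b, i)) (e (b, i')) ≤ 4 / k) :
    Ex (fun _ => 1 / (g : ℝ)) β (fun ρ => ∑ b, ∑ b', ∑ i', g * (if b = b' then 0 else
      |P (e (b, ρ b)) (e (b', i')) - P (e (b, ρ b)) (e (b', ρ b'))|)) ≤ 4 / k * n ^ 2 := by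
  have hn0 : (0 : ℝ) < n := by exact_mod_cast hn
  have hg0 : (0 : ℝ) < g := by exact_mod_cast hg
  have hk0 : (0 : ℝ) < k := by exact_mod_cast hk
  have hγ0 : ∀ a : Fin g, 0 ≤ (fun _ => 1 / (g : ℝ)) a := fun _ => by positivity
  have hγ1 := sum_unif hg
  have hcard : (Fintype.card β : ℝ) * g ≤ n := by
    have h1 := Fintype.card_le_of_injective e e.injective
    rw [Fintype.card_prod, Fintype.card_fin, Fintype.card_fin] at h1
    exact_mod_cast h1
  have h1 : ∀ b b' : β, ∀ i' : Fin g, Ex (fun _ => 1 / (g : ℝ)) β (fun ρ => g *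
      (if b = b' then 0 else |P (e (b, ρ b)) (e (b', i')) - P (e (b, ρ b)) (e (b', ρ b'))|)) ≤
      (1 / g) * ∑ i, ∑ i'', |P (e (b, i)) (e (b', i')) - P (e (b, i)) (e (b', i''))| := by
    intro b b' i'
    rw [Ex_mul_left]
    by_cases hb : b = b'
    · simp only [if_pos hb]
      rw [Ex_const hγ1, mul_zero]
      exact mul_nonneg (by positivity) (sum_nonneg fun i _ => sum_nonneg fun i'' _ => abs_nonneg _)
    · simp only [if_neg hb]
      rw [Ex_two hg hb (fun i i'' => |P (e (b, i)) (e (b', i')) - P (e (b, i)) (e (b', i''))|)]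
      refine le_of_eq ?_
      field_simp
  calc _ = ∑ b, ∑ b', ∑ i', Ex (fun _ => 1 / (g : ℝ)) β (fun ρ => g *
      (if b = b' then 0 else |P (e (b, ρ b)) (e (b', i')) - P (e (b, ρ b)) (e (b', ρ b'))|)) := by
        simp only [Ex_sum]
    _ ≤ ∑ b, ∑ b', ∑ i', (1 / (g : ℝ)) * ∑ i, ∑ i'',
        |P (e (b, i)) (e (b', i')) - P (e (b, i)) (e (b', i''))| :=
        sum_le_sum fun b _ => sum_le_sum fun b' _ => sum_le_sum fun i' _ => h1 b b' i'
    _ = (1 / (g : ℝ)) * ∑ b', ∑ i', ∑ i'', ∑ p : β × Fin g,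
        |P (e p) (e (b', i')) - P (e p) (e (b', i''))| := by
        simp only [← mul_sum]
        congr 1
        rw [sum_comm]
        refine sum_congr rfl fun b' _ => ?_
        rw [sum_comm]
        refine sum_congr rfl fun i' _ => ?_
        simp only [Fintype.sum_prod_type]
        rw [sum_comm (s := (univ : Finset (Fin g))) (t := (univ : Finset β))]
        refine sum_congr rfl fun b _ => ?_
        rw [sum_comm]
    _ ≤ (1 / (g : ℝ)) * ∑ b' : β, ∑ i' : Fin g, ∑ i'' : Fin g, (n * (4 / k) : ℝ) := by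
        refine mul_le_mul_of_nonneg_left ?_ (by positivity)
        refine sum_le_sum fun b' _ => sum_le_sum fun i' _ => sum_le_sum fun i'' _ => ?_
        refine (sum_map_le e (fun x => |P x (e (b', i')) - P x (e (b', i''))|)
          (fun x => abs_nonneg _)).trans ?_
        have h2 : ∀ x, |P x (e (b', i')) - P x (e (b', i''))| =
            |P (e (b', i')) x - P (e (b', i'')) x| := by
          intro x
          have h3 := hP.anti x (e (b', i'))
          have h4 := hP.anti x (e (b', i''))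
          rw [abs_sub_comm]
          congr 1
          linarith
        simp only [h2]
        rw [sum_abs_eq hn]
        exact mul_le_mul_of_nonneg_left (hdiam b' i' i'') hn0.le
    _ = (Fintype.card β * g) * (n * (4 / k)) := by
        simp only [sum_const, card_univ, Fintype.card_fin, nsmul_eq_mul]
        field_simp
    _ ≤ n * (n * (4 / k)) := mul_le_mul_of_nonneg_right hcard (by positivity)
    _ = 4 / k * n ^ 2 := by ring

/-- A good choice of representatives gives a good approximation. -/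
theorem error_bound {n : ℕ} (hn : 1 ≤ n) {d : ℕ} (hd : 1 ≤ d) {P : Fin n → Fin n → ℝ} (hP : Mat P)
    {k g : ℕ} (hk : 1 ≤ k) (hg : 1 ≤ g) {β : Type} [Fintype β] [DecidableEq β]
    (e : β × Fin g ↪ Fin n)
    (hdiam : ∀ b i i', DV (fun _ => 1 / (n : ℝ)) P (e (b, i)) (e (b, i')) ≤ 4 / k)
    (hcov : (#{x | x ∉ univ.map e} : ℝ) ≤ 4 / k * n) (hgn : (g : ℝ) ≤ 1 / k * n)
    (hk5 : 5 ≤ k) (ρ : β → Fin g) (hρ : Good d P (Set.range fun b => e (b, ρ b)))
    (hT2 : ∑ b, ∑ b', ∑ i', g * (if b = b' then 0 else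
      |P (e (b, ρ b)) (e (b', i')) - P (e (b, ρ b)) (e (b', ρ b'))|) ≤ 8 / k * (n : ℝ) ^ 2) :
    ∃ a : Fin d → Fin n → ℝ, (∀ i x, 0 < a i x) ∧
      ∑ x, ∑ y, |P x y - avg d a x y| ≤ 21 / k * (n : ℝ) ^ 2 := by
  classical
  have hn0 : (0 : ℝ) < n := by exact_mod_cast hn
  have hg0 : (0 : ℝ) < g := by exact_mod_cast hg
  have hk0 : (0 : ℝ) < k := by exact_mod_cast (by omega : 0 < k)
  have hcard : (Fintype.card β : ℝ) * g ≤ n := by
    have h1 := Fintype.card_le_of_injective e e.injective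
    rw [Fintype.card_prod, Fintype.card_fin, Fintype.card_fin] at h1
    exact_mod_cast h1
  -- there is a block
  obtain ⟨b₀⟩ : Nonempty β := by
    by_contra hne
    rw [not_nonempty_iff] at hne
    have h1 : #{x | x ∉ univ.map e} = n := by
      have : ({x | x ∉ univ.map e} : Finset (Fin n)) = univ := by
        ext x
        simp only [mem_filter, mem_univ, true_and, iff_true, mem_map, not_exists]
        rintro ⟨b, i⟩
        exact (hne.false b).elim
      rw [this, card_univ, Fintype.card_fin]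
    rw [h1] at hcov
    have h2 : (4 : ℝ) / k < 1 := by
      rw [div_lt_one hk0]
      have : (5 : ℝ) ≤ k := by exact_mod_cast hk5
      linarith
    nlinarith
  obtain ⟨a, ha, hrep⟩ := hρ
  let r : β → Fin n := fun b => e (b, ρ b)
  let κ : Fin n → β := fun x => if h : ∃ b i, e (b, i) = x then h.choose else b₀
  have hκ : ∀ b i, κ (e (b, i)) = b := by
    intro b i
    have h : ∃ b' i', e (b', i') = e (b, i) := ⟨b, i, rfl⟩
    simp only [κ, dif_pos h]
    obtain ⟨i', hi'⟩ := h.choose_spec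
    have := e.injective hi'
    exact (Prod.mk.inj this).1
  let a' : Fin d → Fin n → ℝ := fun i x => a i (r (κ x))
  have ha' : ∀ i x, 0 < a' i x := fun i x => ha i _
  refine ⟨a', ha', ?_⟩
  have hq : ∀ x y, avg d a' x y = avg d a (r (κ x)) (r (κ y)) := fun x y => rfl
  have hq1 : ∀ x y, |P x y - avg d a' x y| ≤ 1 := by
    intro x y
    have h1 := hP.nonneg x y
    have h2 := hP.le_one x y
    have h3 := avg_nonneg ha' x y
    have h4 := avg_nonneg ha' y x
    have h5 := avg_anti hd ha' x y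
    rw [_root_.abs_le]
    constructor <;> linarith
  have hrinj : ∀ b b', b ≠ b' → r b ≠ r b' := by
    intro b b' hbb h
    have := e.injective h
    exact hbb (Prod.mk.inj this).1
  have hterm : ∀ p p' : β × Fin g, |P (e p) (e p') - avg d a' (e p) (e p')| ≤
      (if p.1 = p'.1 then 1 else 0) + |P (e p) (e p') - P (r p.1) (e p')| +
        (if p.1 = p'.1 then 0 else |P (r p.1) (e p') - P (r p.1) (r p'.1)|) := by
    rintro ⟨b, i⟩ ⟨b', i'⟩
    by_cases hb : b = b'
    · rw [if_pos hb, if_pos hb, add_zero]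
      have := hq1 (e (b, i)) (e (b', i'))
      have := abs_nonneg (P (e (b, i)) (e (b', i')) - P (r b) (e (b', i')))
      linarith
    · rw [if_neg hb, if_neg hb, zero_add]
      have h1 : avg d a' (e (b, i)) (e (b', i')) = P (r b) (r b') := by
        rw [hq, hκ, hκ]
        exact (hrep _ ⟨b, rfl⟩ _ ⟨b', rfl⟩ (hrinj b b' hb)).symm
      rw [h1]
      exact abs_sub_le _ _ _
  -- the sum over the covered part
  have hcovered : ∑ p : β × Fin g, ∑ p' : β × Fin g, |P (e p) (e p') - avg d a' (e p) (e p')| ≤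
      13 / k * (n : ℝ) ^ 2 := by
    have e1 : ∑ p : β × Fin g, ∑ p' : β × Fin g, (if p.1 = p'.1 then (1 : ℝ) else 0) ≤
        1 / k * (n : ℝ) ^ 2 := by
      have : ∀ p : β × Fin g, ∑ p' : β × Fin g, (if p.1 = p'.1 then (1 : ℝ) else 0) = g := by
        intro p
        rw [Fintype.sum_prod_type, sum_comm]
        have h0 : ∀ i' : Fin g, ∑ b' : β, (if p.1 = (b', i').1 then (1 : ℝ) else 0) = 1 := by
          intro i'
          have h1 : ∑ b' : β, (if p.1 = b' then (1 : ℝ) else 0) = 1 := by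
            rw [sum_ite_eq]; simp
          exact h1
        rw [sum_congr rfl fun i' _ => h0 i']
        simp
      simp only [this, sum_const, card_univ, Fintype.card_prod, Fintype.card_fin, nsmul_eq_mul]
      push_cast
      calc (Fintype.card β : ℝ) * g * g ≤ n * (1 / k * n) := by
            refine mul_le_mul hcard hgn hg0.le hn0.le
        _ = 1 / k * (n : ℝ) ^ 2 := by ring
    have e2 : ∑ p : β × Fin g, ∑ p' : β × Fin g, |P (e p) (e p') - P (r p.1) (e p')| ≤
        4 / k * (n : ℝ) ^ 2 := by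
      calc ∑ p : β × Fin g, ∑ p' : β × Fin g, |P (e p) (e p') - P (r p.1) (e p')|
          ≤ ∑ p : β × Fin g, ∑ y, |P (e p) y - P (r p.1) y| :=
            sum_le_sum fun p _ => sum_map_le e (fun y => |P (e p) y - P (r p.1) y|)
              (fun y => abs_nonneg _)
        _ ≤ ∑ p : β × Fin g, (n * (4 / k) : ℝ) := by
            refine sum_le_sum fun p _ => ?_
            rw [sum_abs_eq hn]
            exact mul_le_mul_of_nonneg_left (hdiam p.1 p.2 (ρ p.1)) hn0.le
        _ = (Fintype.card β * g) * (n * (4 / k)) := by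
            simp only [sum_const, card_univ, Fintype.card_prod, Fintype.card_fin, nsmul_eq_mul]
            push_cast
            ring
        _ ≤ n * (n * (4 / k)) := mul_le_mul_of_nonneg_right hcard (by positivity)
        _ = 4 / k * (n : ℝ) ^ 2 := by ring
    have e3 : ∑ p : β × Fin g, ∑ p' : β × Fin g,
        (if p.1 = p'.1 then (0 : ℝ) else |P (r p.1) (e p') - P (r p.1) (r p'.1)|) ≤
        8 / k * (n : ℝ) ^ 2 := by
      refine le_trans (le_of_eq ?_) hT2
      rw [Fintype.sum_prod_type]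
      refine sum_congr rfl fun b _ => ?_
      simp only [sum_const, card_univ, Fintype.card_fin, nsmul_eq_mul, Fintype.sum_prod_type,
        mul_sum]
      rfl
    calc _ ≤ ∑ p : β × Fin g, ∑ p' : β × Fin g, ((if p.1 = p'.1 then (1 : ℝ) else 0) +
          |P (e p) (e p') - P (r p.1) (e p')| +
          (if p.1 = p'.1 then 0 else |P (r p.1) (e p') - P (r p.1) (r p'.1)|)) :=
          sum_le_sum fun p _ => sum_le_sum fun p' _ => hterm p p'
      _ ≤ 1 / k * (n : ℝ) ^ 2 + 4 / k * (n : ℝ) ^ 2 + 8 / k * (n : ℝ) ^ 2 := by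
          simp only [sum_add_distrib]
          exact add_le_add (add_le_add e1 e2) e3
      _ = 13 / k * (n : ℝ) ^ 2 := by ring
  -- all pairs
  set U : Finset (Fin n) := {x | x ∉ univ.map e} with hU
  have hsplit : ∀ f : Fin n → ℝ, ∑ x, f x = ∑ p, f (e p) + ∑ x ∈ U, f x := by
    intro f
    have h1 : (univ : Finset (Fin n)) = univ.map e ∪ U := by
      ext x
      simp only [hU, mem_univ, mem_union, mem_filter, true_and, true_iff]
      exact em _
    have h2 : Disjoint (univ.map e) U := by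
      rw [Finset.disjoint_left]
      intro x hx hx'
      exact (mem_filter.1 hx').2 hx
    conv_lhs => rw [h1, sum_union h2, sum_map]
  rw [hsplit]
  have h1 : ∑ x ∈ U, ∑ y, |P x y - avg d a' x y| ≤ 4 / k * (n : ℝ) ^ 2 := by
    calc ∑ x ∈ U, ∑ y, |P x y - avg d a' x y| ≤ ∑ x ∈ U, ∑ y : Fin n, (1 : ℝ) :=
          sum_le_sum fun x _ => sum_le_sum fun y _ => hq1 x y
      _ = #U * n := by simp
      _ ≤ (4 / k * n) * n := mul_le_mul_of_nonneg_right hcov hn0.le
      _ = 4 / k * (n : ℝ) ^ 2 := by ring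
  have h2 : ∑ p, ∑ y, |P (e p) y - avg d a' (e p) y| ≤ 17 / k * (n : ℝ) ^ 2 := by
    have h3 : ∀ p, ∑ y, |P (e p) y - avg d a' (e p) y| =
        ∑ p', |P (e p) (e p') - avg d a' (e p) (e p')| +
          ∑ y ∈ U, |P (e p) y - avg d a' (e p) y| := fun p => hsplit _
    simp only [h3, sum_add_distrib]
    have h4 : ∑ p : β × Fin g, ∑ y ∈ U, |P (e p) y - avg d a' (e p) y| ≤
        4 / k * (n : ℝ) ^ 2 := by
      calc ∑ p : β × Fin g, ∑ y ∈ U, |P (e p) y - avg d a' (e p) y|
          ≤ ∑ p : β × Fin g, ∑ y ∈ U, (1 : ℝ) :=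
            sum_le_sum fun p _ => sum_le_sum fun y _ => hq1 _ y
        _ = (Fintype.card β * g) * #U := by
            simp only [sum_const, card_univ, Fintype.card_prod, Fintype.card_fin, nsmul_eq_mul]
            push_cast
            ring
        _ ≤ n * (4 / k * n) := mul_le_mul hcard hcov (by positivity) hn0.le
        _ = 4 / k * (n : ℝ) ^ 2 := by ring
    calc _ ≤ 13 / k * (n : ℝ) ^ 2 + 4 / k * (n : ℝ) ^ 2 := add_le_add hcovered h4
      _ = 17 / k * (n : ℝ) ^ 2 := by ring
  calc _ ≤ 17 / k * (n : ℝ) ^ 2 + 4 / k * (n : ℝ) ^ 2 := add_le_add h2 h1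
    _ = 21 / k * (n : ℝ) ^ 2 := by ring

end Pool.Agent.R555.BT
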