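import Pool.Agent.R555.BT3

/-!
Averages of Bradley-Terry matrices: the main theorem on random samples.
-/

set_option autoImplicit false
set_option linter.unusedSectionVars false
set_option linter.unusedVariables false

namespace Pool.Agent.R555.BT

open Finset Pool.Agent.R555.Iid

lemma one_sub_pow_le {x : ℝ} (h0 : 0 ≤ x) (h1 : x ≤ 1) (M : ℕ) :
    (1 - x) ^ M ≤ 1 / (1 + M * x) := by
  have h2 : 1 + M * x ≤ (1 + x) ^ M := by
    have := one_add_mul_le_pow (a := x) (by linarith) M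
    exact this
  have h3 : (0 : ℝ) < 1 + M * x := by positivity
  rw [le_div_iff₀ h3]
  calc (1 - x) ^ M * (1 + M * x) ≤ (1 - x) ^ M * (1 + x) ^ M :=
        mul_le_mul_of_nonneg_left h2 (pow_nonneg (by linarith) _)
    _ = (1 - x ^ 2) ^ M := by rw [← mul_pow]; congr 1; ring
    _ ≤ 1 := pow_le_one₀ (by nlinarith) (by nlinarith)

/-- number of centres -/
def M0 (d k : ℕ) : ℕ := (k + 1) ^ d * k

/-- sample size -/
def NN (d k : ℕ) : ℕ := M0 d k + 1 + (M0 d k + 1) ^ 2 * k ^ 3 + 4 * k ^ 3 * M0 d k ^ 2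

open Classical in
theorem core {n d k : ℕ} (hd : 1 ≤ d) (hk : 5 ≤ k) (hn : k * M0 d k ≤ n)
    {P : Fin n → Fin n → ℝ} (hP : Mat P)
    (hG : Ex (fun _ => 1 / (n : ℝ)) (Fin (NN d k))
      (fun x => if Good d P (Set.range x) then 0 else 1) ≤ 1 / k) :
    ∃ a : Fin d → Fin n → ℝ, (∀ i x, 0 < a i x) ∧
      ∑ x, ∑ y, |P x y - avg d a x y| ≤ 21 / k * (n : ℝ) ^ 2 := by
  have hM0 : 1 ≤ M0 d k := by
    unfold M0
    exact Nat.mul_pos (by positivity) (by omega)
  have hkM : 1 ≤ k * M0 d k := Nat.mul_pos (by omega) hM0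
  have hn1 : 1 ≤ n := hkM.trans hn
  have hn0 : (0 : ℝ) < n := by exact_mod_cast hn1
  have hk0 : (0 : ℝ) < k := by exact_mod_cast (by omega : 0 < k)
  have hM0r : (1 : ℝ) ≤ M0 d k := by exact_mod_cast hM0
  have hμ0 : ∀ a : Fin n, 0 ≤ (fun _ => 1 / (n : ℝ)) a := fun _ => by positivity
  have hμ1 := sum_unif hn1
  set g : ℕ := n / (k * M0 d k) with hg
  have hg1 : 1 ≤ g := by
    rw [hg, Nat.one_le_div_iff (by omega)]
    exact hn
  have hgle : g * (k * M0 d k) ≤ n := Nat.div_mul_le_self _ _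
  have hggt : n < 2 * g * (k * M0 d k) := by
    have h1 := Nat.lt_div_mul_add (a := n) (b := k * M0 d k) (by omega)
    rw [← hg] at h1
    nlinarith
  have hg0 : (0 : ℝ) < g := by exact_mod_cast hg1
  have hgle' : (g : ℝ) * (k * M0 d k) ≤ n := by exact_mod_cast hgle
  have hggt' : (n : ℝ) ≤ 2 * g * (k * M0 d k) := by exact_mod_cast hggt.le
  -- centres
  obtain ⟨c, hc⟩ := exists_centres (M := M0 d k) (m := (M0 d k + 1) ^ 2 * k ^ 3) hμ0 hμ1 hd hP
    (by omega) le_rfl le_rfl (by unfold NN; omega) hG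
  have hcard : (#{x | ∀ j, 2 / (k : ℝ) < DV (fun _ => 1 / (n : ℝ)) P x (c j)} : ℝ) ≤
      3 / k * n := by
    have h1 : ∑ x : Fin n, 1 / (n : ℝ) *
        (if ∀ j, 2 / (k : ℝ) < DV (fun _ => 1 / (n : ℝ)) P x (c j) then (1 : ℝ) else 0) =
        (#{x | ∀ j, 2 / (k : ℝ) < DV (fun _ => 1 / (n : ℝ)) P x (c j)} : ℝ) / n := by
      rw [← mul_sum, sum_ite, sum_const_zero, add_zero, sum_const, nsmul_eq_mul, mul_one]
      ring
    rw [h1, div_le_iff₀ hn0] at hc
    exact hc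
  obtain ⟨β, hβ1, hβ2, e, hdiam, hcov⟩ := exists_blocks (g := g) hμ0 hg1 c hcard
  have hcov' : (#{x | x ∉ univ.map e} : ℝ) ≤ 4 / k * n := by
    have h1 : (M0 d k : ℝ) * g ≤ 1 / k * n := by
      rw [one_div_mul_eq_div, le_div_iff₀ hk0]
      linarith
    have h2 : (4 : ℝ) / k * n = 3 / k * n + 1 / k * n := by ring
    linarith
  have hgn : (g : ℝ) ≤ 1 / k * n := by
    rw [one_div_mul_eq_div, le_div_iff₀ hk0]
    have h1 : (g : ℝ) * k ≤ g * (k * M0 d k) :=
      mul_le_mul_of_nonneg_left (le_mul_of_one_le_right hk0.le hM0r) hg0.le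
    linarith
  have hβcard : (Fintype.card β : ℝ) * g ≤ n := by
    have h1 := Fintype.card_le_of_injective e e.injective
    rw [Fintype.card_prod, Fintype.card_fin, Fintype.card_fin] at h1
    exact_mod_cast h1
  -- representatives
  have hG' : Ex (fun _ => 1 / (n : ℝ)) (Fin (4 * k ^ 3 * M0 d k ^ 2))
      (fun x => if Good d P (Set.range x) then (0 : ℝ) else 1) ≤ 1 / k := by
    refine le_trans ?_ hG
    have hcard : Fintype.card (Fin (4 * k ^ 3 * M0 d k ^ 2)) ≤ Fintype.card (Fin (NN d k)) := by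
      rw [Fintype.card_fin, Fintype.card_fin]
      unfold NN
      exact Nat.le_add_left _ _
    obtain ⟨e⟩ := Function.Embedding.nonempty_of_card_le hcard
    rw [← marg hμ1 e]
    refine Ex_mono hμ0 fun x => ?_
    by_cases hx : Good d P (Set.range x)
    · rw [if_pos (hx.mono (Set.range_comp_subset_range _ _)), if_pos hx]
    · rw [if_neg hx]
      split_ifs <;> norm_num
  have hhit : Fintype.card β * (1 - g / (n : ℝ)) ^ (4 * k ^ 3 * M0 d k ^ 2) ≤ 1 / k := by
    have hx0 : 0 ≤ (g : ℝ) / n := by positivity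
    have hx1 : (g : ℝ) / n ≤ 1 := by
      rw [div_le_one hn0]
      have h1 : (g : ℝ) * 1 ≤ g * (k * M0 d k) := by
        refine mul_le_mul_of_nonneg_left ?_ hg0.le
        have : (1 : ℝ) ≤ ((k * M0 d k : ℕ) : ℝ) := by exact_mod_cast hkM
        push_cast at this
        exact this
      linarith
    have h1 := one_sub_pow_le hx0 hx1 (4 * k ^ 3 * M0 d k ^ 2)
    have h2 : (Fintype.card β : ℝ) ≤ n / g := by
      rw [le_div_iff₀ hg0]
      exact hβcard
    have h3 : (n : ℝ) / g ≤ 2 * (k * M0 d k) := by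
      rw [div_le_iff₀ hg0]
      linarith
    have h4 : 1 / (1 + ((4 * k ^ 3 * M0 d k ^ 2 : ℕ) : ℝ) * (g / n)) ≤
        (n / g) / (4 * k ^ 3 * M0 d k ^ 2) := by
      have h5 : (n / g : ℝ) / (4 * k ^ 3 * M0 d k ^ 2) = 1 / ((4 * k ^ 3 * M0 d k ^ 2) * (g / n)) := by
        field_simp
      rw [h5]
      refine one_div_le_one_div_of_le (by positivity) ?_
      push_cast
      linarith
    calc Fintype.card β * (1 - g / (n : ℝ)) ^ (4 * k ^ 3 * M0 d k ^ 2)
        ≤ (n / g) * ((n / g) / (4 * k ^ 3 * M0 d k ^ 2)) :=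
          mul_le_mul h2 (h1.trans h4) (pow_nonneg (by linarith) _) (by positivity)
      _ ≤ (2 * (k * M0 d k)) * ((2 * (k * M0 d k)) / (4 * k ^ 3 * M0 d k ^ 2)) := by
          refine mul_le_mul h3 (div_le_div_of_nonneg_right h3 (by positivity)) (by positivity)
            (by positivity)
      _ = 1 / k := by
          field_simp
          ring
  have hQ := prob_reps hn1 hg1 e hG' hhit
  set Q := Ex (fun _ => 1 / (g : ℝ)) β
      (fun ρ => if Good d P (Set.range fun b => e (b, ρ b)) then (0 : ℝ) else 1) with hQdef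
  have hk5 : (5 : ℝ) ≤ k := by exact_mod_cast hk
  have hk5' : 1 / (k : ℝ) ≤ 1 / 5 := one_div_le_one_div_of_le (by norm_num) hk5
  have hγ0 : ∀ a : Fin g, 0 ≤ (fun _ => 1 / (g : ℝ)) a := fun _ => by positivity
  have hγ1 := sum_unif hg1
  have hQ0 : 0 ≤ Q := Ex_nonneg hγ0 fun ρ => by split_ifs <;> norm_num
  have hQ4 : Q ≤ 1 / 4 := by nlinarith
  have hT := E_T2 hn1 hP (k := k) (by omega) hg1 e hdiam
  by_contra hcon
  have hno : ∀ ρ : β → Fin g, 8 / (k : ℝ) * (n : ℝ) ^ 2 *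
      (1 + (-1) * (if Good d P (Set.range fun b => e (b, ρ b)) then (0 : ℝ) else 1)) ≤
      ∑ b, ∑ b', ∑ i', g * (if b = b' then 0 else
      |P (e (b, ρ b)) (e (b', i')) - P (e (b, ρ b)) (e (b', ρ b'))|) := by
    intro ρ
    by_cases hρ : Good d P (Set.range fun b => e (b, ρ b))
    · rw [if_pos hρ]
      by_contra hlt
      push Not at hlt
      have hlt' := hlt.le
      rw [mul_zero, add_zero, mul_one] at hlt'
      exact hcon (error_bound hn1 hd hP (by omega) hg1 e hdiam hcov' hgn hk ρ hρ hlt')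
    · rw [if_neg hρ]
      have : (0 : ℝ) ≤ ∑ b, ∑ b', ∑ i', g * (if b = b' then 0 else
          |P (e (b, ρ b)) (e (b', i')) - P (e (b, ρ b)) (e (b', ρ b'))|) := by
        refine sum_nonneg fun b _ => sum_nonneg fun b' _ => sum_nonneg fun i' _ => ?_
        refine mul_nonneg hg0.le ?_
        split_ifs
        · exact le_rfl
        · exact abs_nonneg _
      linarith
  have h1 := (Ex_mono hγ0 hno).trans hT
  rw [Ex_mul_left, Ex_add, Ex_const hγ1, Ex_mul_left, ← hQdef] at h1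
  have h2 : 0 < 1 / (k : ℝ) * (n : ℝ) ^ 2 := by positivity
  have h3 : 8 / (k : ℝ) * (n : ℝ) ^ 2 = 8 * (1 / (k : ℝ) * (n : ℝ) ^ 2) := by ring
  have h4 : 4 / (k : ℝ) * (n : ℝ) ^ 2 = 4 * (1 / (k : ℝ) * (n : ℝ) ^ 2) := by ring
  rw [h3, h4] at h1
  nlinarith

open Classical in
/-- A sample that is representable with probability more than `1/3` certifies closeness. -/
theorem sample_theorem {n d k : ℕ} (hd : 1 ≤ d) (hk : 5 ≤ k) (hn : k * M0 d k ≤ n)
    {P : Fin n → Fin n → ℝ} (hP : Mat P)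
    (hG : 1 / 3 < Ex (fun _ => 1 / (n : ℝ)) (Fin (2 * k * NN d k))
      (fun x => if Good d P (Set.range x) then (1 : ℝ) else 0)) :
    ∃ a : Fin d → Fin n → ℝ, (∀ i x, 0 < a i x) ∧
      ∑ x, ∑ y, |P x y - avg d a x y| ≤ 21 / k * (n : ℝ) ^ 2 := by
  have hM0 : 1 ≤ M0 d k := by
    unfold M0
    exact Nat.mul_pos (by positivity) (by omega)
  have hkM : 1 ≤ k * M0 d k := Nat.mul_pos (by omega) hM0
  have hn1 : 1 ≤ n := hkM.trans hn
  have hn0 : (0 : ℝ) < n := by exact_mod_cast hn1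
  have hk0 : (0 : ℝ) < k := by exact_mod_cast (by omega : 0 < k)
  have hμ0 : ∀ a : Fin n, 0 ≤ (fun _ => 1 / (n : ℝ)) a := fun _ => by positivity
  have hμ1 := sum_unif hn1
  refine core hd hk hn hP ?_
  by_contra hcon
  push Not at hcon
  set q := Ex (fun _ => 1 / (n : ℝ)) (Fin (NN d k))
      (fun x => if Good d P (Set.range x) then (1 : ℝ) else 0) with hq
  have hq0 : 0 ≤ q := Ex_nonneg hμ0 fun ρ => by split_ifs <;> norm_num
  have hq1 : q ≤ 1 - 1 / k := by
    have h1 : Ex (fun _ => 1 / (n : ℝ)) (Fin (NN d k))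
      (fun x => if Good d P (Set.range x) then (0 : ℝ) else 1) = 1 + (-1) * q := by
      have h2 : (fun x : Fin (NN d k) → Fin n => if Good d P (Set.range x) then (0 : ℝ) else 1) =
          fun x => 1 + (-1) * (if Good d P (Set.range x) then (1 : ℝ) else 0) := by
        funext x
        split_ifs <;> norm_num
      rw [h2, Ex_add, Ex_const hμ1, Ex_mul_left]
    rw [h1] at hcon
    linarith
  have hle : Ex (fun _ => 1 / (n : ℝ)) (Fin (2 * k * NN d k))
      (fun x => if Good d P (Set.range x) then (1 : ℝ) else 0) ≤ q ^ (2 * k) := by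
    rw [hq, ← Ex_blocks (L := 2 * k), ← marg hμ1 (finProdFinEquiv (m := 2 * k) (n := NN d k)).toEmbedding]
    refine Ex_mono hμ0 fun x => ?_
    by_cases hx : Good d P (Set.range x)
    · rw [if_pos hx]
      refine le_of_eq ?_
      symm
      refine prod_eq_one fun l _ => if_pos (hx.mono ?_)
      rintro y ⟨j, rfl⟩
      exact ⟨_, rfl⟩
    · rw [if_neg hx]
      exact prod_nonneg fun l _ => by split_ifs <;> norm_num
  have hk1 : 1 / (k : ℝ) ≤ 1 := by
    rw [div_le_one hk0]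
    have : (5 : ℝ) ≤ k := by exact_mod_cast hk
    linarith
  have h2 : q ^ (2 * k) ≤ 1 / 3 := by
    calc q ^ (2 * k) ≤ (1 - 1 / (k : ℝ)) ^ (2 * k) := pow_le_pow_left₀ hq0 hq1 _
      _ ≤ 1 / (1 + (2 * k : ℕ) * (1 / (k : ℝ))) := one_sub_pow_le (by positivity) hk1 _
      _ = 1 / 3 := by
          push_cast
          field_simp
          norm_num
  linarith

/-- a polynomial bound for the sample size -/
lemma NN_le (d k : ℕ) : NN d k ≤ 6 * (k + 1) ^ (2 * d + 7) := by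
  have hM : M0 d k ≤ (k + 1) ^ (d + 1) := by
    unfold M0
    rw [pow_succ]
    exact Nat.mul_le_mul_left _ (by omega)
  have hM1 : M0 d k + 1 ≤ (k + 1) ^ (d + 2) := by
    have h1 : 1 ≤ (k + 1) ^ (d + 1) := Nat.one_le_pow _ _ (by omega)
    rcases Nat.eq_zero_or_pos k with h | h
    · subst h
      simp [M0]
    · calc M0 d k + 1 ≤ (k + 1) ^ (d + 1) + (k + 1) ^ (d + 1) := by omega
        _ = (k + 1) ^ (d + 1) * 2 := by ring
        _ ≤ (k + 1) ^ (d + 1) * (k + 1) := Nat.mul_le_mul_left _ (by omega)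
        _ = (k + 1) ^ (d + 2) := by ring
  have hk3 : k ^ 3 ≤ (k + 1) ^ 3 := Nat.pow_le_pow_left (by omega) 3
  have e1 : (M0 d k + 1) ^ 2 * k ^ 3 ≤ (k + 1) ^ (2 * d + 7) := by
    calc (M0 d k + 1) ^ 2 * k ^ 3 ≤ ((k + 1) ^ (d + 2)) ^ 2 * (k + 1) ^ 3 :=
          Nat.mul_le_mul (Nat.pow_le_pow_left hM1 2) hk3
      _ = (k + 1) ^ (2 * d + 7) := by ring
  have e2 : 4 * k ^ 3 * M0 d k ^ 2 ≤ 4 * (k + 1) ^ (2 * d + 7) := by
    calc 4 * k ^ 3 * M0 d k ^ 2 ≤ 4 * (k + 1) ^ 3 * ((k + 1) ^ (d + 1)) ^ 2 :=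
          Nat.mul_le_mul (Nat.mul_le_mul_left 4 hk3) (Nat.pow_le_pow_left hM 2)
      _ = 4 * (k + 1) ^ (2 * d + 5) := by ring
      _ ≤ 4 * (k + 1) ^ (2 * d + 7) :=
          Nat.mul_le_mul_left 4 (Nat.pow_le_pow_right (by omega) (by omega))
  have e3 : M0 d k + 1 ≤ (k + 1) ^ (2 * d + 7) :=
    hM1.trans (Nat.pow_le_pow_right (by omega) (by omega))
  unfold NN
  omega

end Pool.Agent.R555.BT
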