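import Mathlib

/-!
Transport costs on the cube `{0,1}^n`.
-/

set_option autoImplicit false
set_option linter.unusedSectionVars false
set_option linter.unusedVariables false

namespace Pool.Agent.R555.EMD

open Finset

/-- the cube -/
abbrev Cube (n : ℕ) : Type := Fin n → Fin 2

/-- relative Hamming distance -/
noncomputable def Δ {n : ℕ} (x y : Cube n) : ℝ := (hammingDist x y : ℝ) / n

lemma Δ_nonneg {n : ℕ} (x y : Cube n) : 0 ≤ Δ x y := by
  unfold Δ; positivity

lemma Δ_self {n : ℕ} (x : Cube n) : Δ x x = 0 := by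
  unfold Δ; simp

lemma Δ_comm {n : ℕ} (x y : Cube n) : Δ x y = Δ y x := by
  unfold Δ; rw [hammingDist_comm]

lemma Δ_triangle {n : ℕ} (x y z : Cube n) : Δ x z ≤ Δ x y + Δ y z := by
  unfold Δ
  rw [← add_div]
  refine div_le_div_of_nonneg_right ?_ (by positivity)
  exact_mod_cast hammingDist_triangle x y z

lemma Δ_le_one {n : ℕ} (x y : Cube n) : Δ x y ≤ 1 := by
  unfold Δ
  refine div_le_one_of_le₀ ?_ (by positivity)
  have := hammingDist_le_card_fintype (x := x) (y := y)
  rw [Fintype.card_fin] at this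
  exact_mod_cast this

/-- `w` transports `P` to `Q` -/
def IsCoupling {n : ℕ} (P Q : Cube n → ℝ) (w : Cube n → Cube n → ℝ) : Prop :=
  (∀ x y, 0 ≤ w x y) ∧ (∀ x, ∑ y, w x y = P x) ∧ ∀ y, ∑ x, w x y = Q y

/-- `P` can be transported to `Q` with cost at most `c` -/
def Cost {n : ℕ} (P Q : Cube n → ℝ) (c : ℝ) : Prop :=
  ∃ w, IsCoupling P Q w ∧ ∑ x, ∑ y, w x y * Δ x y ≤ c

variable {n : ℕ}

lemma Cost.mono {P Q : Cube n → ℝ} {c c' : ℝ} (h : Cost P Q c) (hc : c ≤ c') : Cost P Q c' := by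
  obtain ⟨w, hw, h⟩ := h
  exact ⟨w, hw, h.trans hc⟩

lemma Cost.refl {P : Cube n → ℝ} (hP : ∀ x, 0 ≤ P x) : Cost P P 0 := by
  refine ⟨fun x y => if x = y then P x else 0, ⟨?_, ?_, ?_⟩, ?_⟩
  · intro x y
    dsimp only
    split_ifs
    · exact hP x
    · exact le_rfl
  · intro x
    simp
  · intro y
    simp
  · refine (sum_eq_zero fun x _ => sum_eq_zero fun y _ => ?_).le
    dsimp only
    split_ifs with h
    · rw [h, Δ_self, mul_zero]
    · rw [zero_mul]

lemma Cost.symm {P Q : Cube n → ℝ} {c : ℝ} (h : Cost P Q c) : Cost Q P c := by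
  obtain ⟨w, ⟨h0, h1, h2⟩, h⟩ := h
  refine ⟨fun x y => w y x, ⟨fun x y => h0 y x, h2, h1⟩, ?_⟩
  rw [sum_comm]
  simpa only [Δ_comm] using h

lemma Cost.add {P Q P' Q' : Cube n → ℝ} {c c' : ℝ} (h : Cost P Q c) (h' : Cost P' Q' c') :
    Cost (fun x => P x + P' x) (fun x => Q x + Q' x) (c + c') := by
  obtain ⟨w, ⟨h0, h1, h2⟩, h⟩ := h
  obtain ⟨w', ⟨h0', h1', h2'⟩, h'⟩ := h'
  refine ⟨fun x y => w x y + w' x y, ⟨fun x y => add_nonneg (h0 x y) (h0' x y), ?_, ?_⟩, ?_⟩
  · intro x
    rw [sum_add_distrib, h1, h1']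
  · intro y
    rw [sum_add_distrib, h2, h2']
  · simp only [add_mul, sum_add_distrib]
    exact add_le_add h h'

lemma Cost.smul {P Q : Cube n → ℝ} {c : ℝ} (h : Cost P Q c) {t : ℝ} (ht : 0 ≤ t) :
    Cost (fun x => t * P x) (fun x => t * Q x) (t * c) := by
  obtain ⟨w, ⟨h0, h1, h2⟩, h⟩ := h
  refine ⟨fun x y => t * w x y, ⟨fun x y => mul_nonneg ht (h0 x y), ?_, ?_⟩, ?_⟩
  · intro x
    rw [← mul_sum, h1]
  · intro y
    rw [← mul_sum, h2]
  · simp only [mul_assoc, ← mul_sum]
    exact mul_le_mul_of_nonneg_left h ht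

lemma Cost.trans {P Q R : Cube n → ℝ} {c c' : ℝ} (h : Cost P Q c) (h' : Cost Q R c') :
    Cost P R (c + c') := by
  obtain ⟨w, ⟨h0, h1, h2⟩, h⟩ := h
  obtain ⟨v, ⟨k0, k1, k2⟩, k⟩ := h'
  have hQ : ∀ y, 0 ≤ Q y := fun y => by rw [← h2 y]; exact sum_nonneg fun x _ => h0 x y
  let F : Cube n → Cube n → Cube n → ℝ := fun x y z => w x y * v y z / Q y
  have hF0 : ∀ x y z, 0 ≤ F x y z := fun x y z =>
    div_nonneg (mul_nonneg (h0 x y) (k0 y z)) (hQ y)
  have hFz : ∀ x y, ∑ z, F x y z = w x y := by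
    intro x y
    simp only [F]
    rw [← sum_div, ← mul_sum, k1]
    by_cases hy : Q y = 0
    · have h3 : w x y = 0 := by
        have h4 := h2 y
        rw [hy] at h4
        exact (sum_eq_zero_iff_of_nonneg fun x _ => h0 x y).1 h4 x (mem_univ _)
      rw [h3]
      simp
    · field_simp
  have hFx : ∀ y z, ∑ x, F x y z = v y z := by
    intro y z
    simp only [F]
    rw [← sum_div, ← sum_mul, h2]
    by_cases hy : Q y = 0
    · have h3 : v y z = 0 := by
        have h4 := k1 y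
        rw [hy] at h4
        exact (sum_eq_zero_iff_of_nonneg fun x _ => k0 y x).1 h4 z (mem_univ _)
      rw [h3]
      simp
    · field_simp
  refine ⟨fun x z => ∑ y, F x y z, ⟨fun x z => sum_nonneg fun y _ => hF0 x y z, ?_, ?_⟩, ?_⟩
  · intro x
    rw [sum_comm]
    simp only [hFz, h1]
  · intro z
    rw [sum_comm]
    simp only [hFx, k2]
  · calc ∑ x, ∑ z, (∑ y, F x y z) * Δ x z
        ≤ ∑ x, ∑ z, ∑ y, (F x y z * Δ x y + F x y z * Δ y z) := by
          refine sum_le_sum fun x _ => sum_le_sum fun z _ => ?_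
          rw [sum_mul]
          refine sum_le_sum fun y _ => ?_
          rw [← mul_add]
          exact mul_le_mul_of_nonneg_left (Δ_triangle x y z) (hF0 x y z)
      _ = ∑ x, ∑ y, w x y * Δ x y + ∑ y, ∑ z, v y z * Δ y z := by
          simp only [sum_add_distrib]
          congr 1
          · refine sum_congr rfl fun x _ => ?_
            rw [sum_comm]
            refine sum_congr rfl fun y _ => ?_
            rw [← sum_mul, hFz]
          · have e1 : ∀ x, ∑ z, ∑ y, F x y z * Δ y z = ∑ y, ∑ z, F x y z * Δ y z :=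
              fun x => sum_comm
            simp only [e1]
            rw [sum_comm]
            refine sum_congr rfl fun y _ => ?_
            rw [sum_comm]
            refine sum_congr rfl fun z _ => ?_
            rw [← sum_mul, hFx]
      _ ≤ c + c' := add_le_add h k

lemma Cost.prod {P Q : Cube n → ℝ} (hP : ∀ x, 0 ≤ P x) (hQ : ∀ x, 0 ≤ Q x)
    (h : ∑ x, P x = ∑ x, Q x) : Cost P Q (∑ x, P x) := by
  set s := ∑ x, P x with hs
  have hs0 : 0 ≤ s := sum_nonneg fun x _ => hP x
  have m1 : ∀ x, ∑ y, P x * Q y / s = P x := by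
    intro x
    rw [← sum_div, ← mul_sum, ← h]
    by_cases h0 : s = 0
    · have h3 : P x = 0 := (sum_eq_zero_iff_of_nonneg fun x _ => hP x).1 h0 x (mem_univ _)
      rw [h3]
      simp
    · field_simp
  refine ⟨fun x y => P x * Q y / s, ⟨fun x y => div_nonneg (mul_nonneg (hP x) (hQ y)) hs0,
    m1, ?_⟩, ?_⟩
  · intro y
    rw [← sum_div, ← sum_mul, ← hs]
    by_cases h0 : s = 0
    · have h3 : Q y = 0 :=
        (sum_eq_zero_iff_of_nonneg fun x _ => hQ x).1 (h.symm.trans h0) y (mem_univ _)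
      rw [h3]
      simp
    · field_simp
  · calc ∑ x, ∑ y, P x * Q y / s * Δ x y ≤ ∑ x, ∑ y, P x * Q y / s * 1 :=
          sum_le_sum fun x _ => sum_le_sum fun y _ =>
            mul_le_mul_of_nonneg_left (Δ_le_one x y)
              (div_nonneg (mul_nonneg (hP x) (hQ y)) hs0)
      _ = s := by simp only [mul_one, m1]; rfl

/-- the positive part of the difference -/
noncomputable def pp (P Q : Cube n → ℝ) (x : Cube n) : ℝ := max (P x - Q x) 0

lemma pp_nonneg (P Q : Cube n → ℝ) (x : Cube n) : 0 ≤ pp P Q x := le_max_right _ _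

lemma pp_sub (P Q : Cube n → ℝ) (x : Cube n) : pp P Q x - pp Q P x = P x - Q x := by
  unfold pp
  rcases le_total (P x) (Q x) with h | h
  · rw [max_eq_right (by linarith), max_eq_left (by linarith)]
    ring
  · rw [max_eq_left (by linarith), max_eq_right (by linarith)]
    ring

lemma pp_add (P Q : Cube n → ℝ) (x : Cube n) : pp P Q x + pp Q P x = |P x - Q x| := by
  unfold pp
  rcases le_total (P x) (Q x) with h | h
  · rw [max_eq_right (by linarith), max_eq_left (by linarith), abs_of_nonpos (by linarith)]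
    ring
  · rw [max_eq_left (by linarith), max_eq_right (by linarith), abs_of_nonneg (by linarith)]
    ring

lemma min_add_pp (P Q : Cube n → ℝ) (x : Cube n) : min (P x) (Q x) + pp P Q x = P x := by
  unfold pp
  rcases le_total (P x) (Q x) with h | h
  · rw [max_eq_right (by linarith), min_eq_left h]
    ring
  · rw [max_eq_left (by linarith), min_eq_right h]
    ring

lemma sum_pp (P Q : Cube n → ℝ) (h : ∑ x, P x = ∑ x, Q x) : ∑ x, pp P Q x = ∑ x, pp Q P x := by
  have h1 : ∑ x, (pp P Q x - pp Q P x) = ∑ x, (P x - Q x) := sum_congr rfl fun x _ => pp_sub P Q x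
  rw [sum_sub_distrib, sum_sub_distrib, h, sub_self] at h1
  linarith

lemma sum_pp_eq (P Q : Cube n → ℝ) (h : ∑ x, P x = ∑ x, Q x) :
    ∑ x, pp P Q x = (∑ x, |P x - Q x|) / 2 := by
  have h1 : ∑ x, (pp P Q x + pp Q P x) = ∑ x, |P x - Q x| := sum_congr rfl fun x _ => pp_add P Q x
  rw [sum_add_distrib, ← sum_pp P Q h] at h1
  linarith

lemma Cost.of_pp {P Q : Cube n → ℝ} (hP : ∀ x, 0 ≤ P x) (hQ : ∀ x, 0 ≤ Q x) {c : ℝ}
    (h : Cost (pp P Q) (pp Q P) c) : Cost P Q c := by
  have h1 := (Cost.refl (P := fun x => min (P x) (Q x)) fun x => le_min (hP x) (hQ x)).add h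
  rw [zero_add] at h1
  have e1 : (fun x => min (P x) (Q x) + pp P Q x) = P := by
    funext x
    exact min_add_pp P Q x
  have e2 : (fun x => min (P x) (Q x) + pp Q P x) = Q := by
    funext x
    rw [min_comm]
    exact min_add_pp Q P x
  rw [e1, e2] at h1
  exact h1

lemma Cost.tv {P Q : Cube n → ℝ} (hP : ∀ x, 0 ≤ P x) (hQ : ∀ x, 0 ≤ Q x)
    (h : ∑ x, P x = ∑ x, Q x) : Cost P Q ((∑ x, |P x - Q x|) / 2) := by
  refine Cost.of_pp hP hQ ?_
  rw [← sum_pp_eq P Q h]
  exact Cost.prod (pp_nonneg P Q) (pp_nonneg Q P) (sum_pp P Q h)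

/-- convolution with the uniform distribution on `E` -/
noncomputable def conv (E : Finset (Cube n)) (P : Cube n → ℝ) (x : Cube n) : ℝ :=
  (1 / #E) * ∑ e ∈ E, P (x - e)

lemma conv_nonneg {E : Finset (Cube n)} {P : Cube n → ℝ} (hP : ∀ x, 0 ≤ P x) (x : Cube n) :
    0 ≤ conv E P x := mul_nonneg (by positivity) (sum_nonneg fun e _ => hP _)

lemma conv_sub {E : Finset (Cube n)} {P Q : Cube n → ℝ} (x : Cube n) :
    conv E (fun y => P y - Q y) x = conv E P x - conv E Q x := by
  unfold conv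
  rw [sum_sub_distrib, mul_sub]

lemma sum_conv {E : Finset (Cube n)} (hE : E.Nonempty) (P : Cube n → ℝ) :
    ∑ x, conv E P x = ∑ x, P x := by
  unfold conv
  rw [← mul_sum, sum_comm]
  have h : ∀ e ∈ E, ∑ x, P (x - e) = ∑ x, P x := fun e _ => (Equiv.subRight e).sum_comp P
  rw [sum_congr rfl h, sum_const, nsmul_eq_mul]
  have : (#E : ℝ) ≠ 0 := by
    have := hE.card_pos
    positivity
  field_simp

lemma Cost.conv {E : Finset (Cube n)} (hE : E.Nonempty) {D : ℕ} (hD : ∀ e ∈ E, hammingNorm e ≤ D)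
    {P : Cube n → ℝ} (hP : ∀ x, 0 ≤ P x) : Cost P (conv E P) (D / n * ∑ x, P x) := by
  have hE0 : (#E : ℝ) ≠ 0 := by
    have := hE.card_pos
    positivity
  have hcard : ∀ x : Cube n, ∑ y, (if y - x ∈ E then (1 : ℝ) else 0) = #E := by
    intro x
    have h1 := (Equiv.subRight x).sum_comp (fun z => if z ∈ E then (1 : ℝ) else 0)
    simp only [Equiv.subRight_apply] at h1
    rw [h1]
    simp
  have m1 : ∀ x : Cube n, ∑ y, P x * (1 / #E) * (if y - x ∈ E then (1 : ℝ) else 0) = P x := by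
    intro x
    rw [← mul_sum, hcard]
    field_simp
  refine ⟨fun x y => P x * (1 / #E) * (if y - x ∈ E then 1 else 0), ⟨?_, m1, ?_⟩, ?_⟩
  · intro x y
    have := hP x
    dsimp only
    split_ifs
    · positivity
    · rw [mul_zero]
  · intro y
    unfold EMD.conv
    have h1 : ∀ x, P x * (1 / (#E : ℝ)) * (if y - x ∈ E then 1 else 0) =
        (1 / (#E : ℝ)) * (if y - x ∈ E then P x else 0) := by
      intro x
      split_ifs <;> ring
    simp only [h1]
    rw [← mul_sum]
    congr 1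
    rw [← (Equiv.subLeft y).sum_comp]
    simp only [Equiv.subLeft_apply, sub_sub_cancel]
    rw [sum_ite_mem, univ_inter]
  · calc ∑ x, ∑ y, P x * (1 / #E) * (if y - x ∈ E then 1 else 0) * Δ x y
        ≤ ∑ x, ∑ y, P x * (1 / #E) * (if y - x ∈ E then 1 else 0) * (D / n) := by
          refine sum_le_sum fun x _ => sum_le_sum fun y _ => ?_
          by_cases h : y - x ∈ E
          · rw [if_pos h, mul_one]
            refine mul_le_mul_of_nonneg_left ?_ (mul_nonneg (hP x) (by positivity))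
            unfold Δ
            refine div_le_div_of_nonneg_right ?_ (by positivity)
            rw [hammingDist_eq_hammingNorm, neg_add_eq_sub]
            exact_mod_cast hD _ h
          · rw [if_neg h, mul_zero, zero_mul, zero_mul]
      _ = D / n * ∑ x, P x := by
          simp only [← sum_mul, m1]
          rw [mul_comm]

/-- The main transport. -/
theorem Cost.main {E V : Finset (Cube n)} (hE : E.Nonempty) (hV : V.Nonempty)
    (hE1 : ∀ e ∈ E, hammingNorm e ≤ 1) {L : ℕ} (hV1 : ∀ e ∈ V, hammingNorm e ≤ L)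
    {P Q : Cube n → ℝ} (hP : ∀ x, 0 ≤ P x) (hQ : ∀ x, 0 ≤ Q x) (hP1 : ∑ x, P x = 1)
    (hQ1 : ∑ x, Q x = 1) :
    Cost P Q (2 / n + L / n * ∑ x, |EMD.conv E (fun y => P y - Q y) x| +
      (∑ x, |EMD.conv V (EMD.conv E (fun y => P y - Q y)) x|) / 2) := by
  set P1 := EMD.conv E P with hP1d
  set Q1 := EMD.conv E Q with hQ1d
  have hP1n : ∀ x, 0 ≤ P1 x := conv_nonneg hP
  have hQ1n : ∀ x, 0 ≤ Q1 x := conv_nonneg hQ
  have hs : ∑ x, P1 x = ∑ x, Q1 x := by rw [hP1d, hQ1d, sum_conv hE, sum_conv hE, hP1, hQ1]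
  have c1 : Cost P P1 (1 / n) := by
    have := Cost.conv hE hE1 hP
    rw [hP1] at this
    simpa using this
  have c2 : Cost Q Q1 (1 / n) := by
    have := Cost.conv hE hE1 hQ
    rw [hQ1] at this
    simpa using this
  set p := pp P1 Q1 with hp
  set q := pp Q1 P1 with hq
  set S := ∑ x, |EMD.conv E (fun y => P y - Q y) x| with hS
  have hS1 : ∑ x, |P1 x - Q1 x| = S := by
    rw [hS]
    exact sum_congr rfl fun x _ => by rw [conv_sub]
  have hp1 : ∑ x, p x = S / 2 := by rw [hp, sum_pp_eq _ _ hs, hS1]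
  have hq1 : ∑ x, q x = S / 2 := by rw [hq, ← sum_pp _ _ hs, ← hp, hp1]
  have c3 : Cost p (EMD.conv V p) (L / n * (S / 2)) := by
    have := Cost.conv hV hV1 (P := p) (pp_nonneg _ _)
    rwa [hp1] at this
  have c4 : Cost q (EMD.conv V q) (L / n * (S / 2)) := by
    have := Cost.conv hV hV1 (P := q) (pp_nonneg _ _)
    rwa [hq1] at this
  have c5 : Cost (EMD.conv V p) (EMD.conv V q)
      ((∑ x, |EMD.conv V (EMD.conv E (fun y => P y - Q y)) x|) / 2) := by
    have h1 := Cost.tv (P := EMD.conv V p) (Q := EMD.conv V q) (conv_nonneg (pp_nonneg _ _))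
      (conv_nonneg (pp_nonneg _ _)) (by rw [sum_conv hV, sum_conv hV, hp1, hq1])
    have h2 : ∀ x, EMD.conv V p x - EMD.conv V q x =
        EMD.conv V (EMD.conv E (fun y => P y - Q y)) x := by
      intro x
      rw [← conv_sub]
      congr 1
      funext y
      rw [hp, hq, pp_sub, conv_sub]
    simpa only [h2] using h1
  have c6 : Cost P1 Q1 (L / n * (S / 2) + (∑ x, |EMD.conv V (EMD.conv E (fun y => P y - Q y)) x|) / 2
      + L / n * (S / 2)) := Cost.of_pp hP1n hQ1n ((c3.trans c5).trans c4.symm)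
  refine ((c1.trans c6).trans c2.symm).mono (le_of_eq ?_)
  ring

end Pool.Agent.R555.EMD
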