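import Pool.Agent.R555.EMD1

/-!
Random permutations.
-/

set_option autoImplicit false
set_option linter.unusedSectionVars false
set_option linter.unusedVariables false

namespace Pool.Agent.R555.EMD

open Finset

/-- variance of a linear statistic of a random permutation -/
lemma perm_var {Ω : Type} [Fintype Ω] [DecidableEq Ω] [Nonempty Ω] (g : Ω → ℝ)
    (hg : ∑ x, g x = 0) (W : Ω → ℝ) (hW : ∀ z, 0 ≤ W z) :
    ∑ π : Equiv.Perm Ω, (∑ z, W z * g (π z)) ^ 2 ≤
      Fintype.card (Equiv.Perm Ω) * ((∑ z, W z ^ 2) * ((∑ x, g x ^ 2) / Fintype.card Ω)) := by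
  let c : Ω → Ω → ℝ := fun z z' => ∑ π : Equiv.Perm Ω, g (π z) * g (π z')
  have hN : (0 : ℝ) < Fintype.card Ω := by exact_mod_cast Fintype.card_pos
  have hdiag : ∀ z z', c z z = c z' z' := by
    intro z z'
    simp only [c]
    rw [← Equiv.sum_comp (Equiv.mulRight (Equiv.swap z z'))]
    refine sum_congr rfl fun π _ => ?_
    simp [Equiv.Perm.mul_apply]
  have hoff : ∀ z z' z'', z ≠ z' → z ≠ z'' → c z z' = c z z'' := by
    intro z z' z'' h1 h2
    simp only [c]
    rw [← Equiv.sum_comp (Equiv.mulRight (Equiv.swap z' z''))]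
    refine sum_congr rfl fun π _ => ?_
    simp [Equiv.Perm.mul_apply, Equiv.swap_apply_of_ne_of_ne h1 h2]
  have hrow : ∀ z, ∑ z', c z z' = 0 := by
    intro z
    simp only [c]
    rw [sum_comm]
    refine sum_eq_zero fun π _ => ?_
    rw [← mul_sum, Equiv.sum_comp π g, hg, mul_zero]
  have hnn : ∀ z, 0 ≤ c z z := fun z => sum_nonneg fun π _ => mul_self_nonneg _
  have hneg : ∀ z z', z ≠ z' → c z z' ≤ 0 := by
    intro z z' h
    by_contra hcon
    push Not at hcon
    have h1 := hrow z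
    rw [← add_sum_erase univ _ (mem_univ z)] at h1
    have h2 : 0 < ∑ x ∈ univ.erase z, c z x := by
      refine sum_pos (fun x hx => ?_) ⟨z', mem_erase.2 ⟨h.symm, mem_univ _⟩⟩
      rw [hoff z x z' (mem_erase.1 hx).1.symm h]
      exact hcon
    have := hnn z
    linarith
  obtain ⟨z₀⟩ := ‹Nonempty Ω›
  have hs : (Fintype.card Ω : ℝ) * c z₀ z₀ = Fintype.card (Equiv.Perm Ω) * ∑ x, g x ^ 2 := by
    calc (Fintype.card Ω : ℝ) * c z₀ z₀ = ∑ z, c z z := by
          rw [sum_congr rfl fun z _ => hdiag z z₀, sum_const, card_univ, nsmul_eq_mul]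
      _ = ∑ π : Equiv.Perm Ω, ∑ z, g (π z) ^ 2 := by
          simp only [c]
          rw [sum_comm]
          exact sum_congr rfl fun π _ => sum_congr rfl fun z _ => by ring
      _ = ∑ π : Equiv.Perm Ω, ∑ x, g x ^ 2 :=
          sum_congr rfl fun π _ => Equiv.sum_comp π (fun x => g x ^ 2)
      _ = _ := by rw [sum_const, card_univ, nsmul_eq_mul]
  have hexp : ∑ π : Equiv.Perm Ω, (∑ z, W z * g (π z)) ^ 2 =
      ∑ z, ∑ z', W z * W z' * c z z' := by
    simp only [c, mul_sum]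
    have h1 : ∀ π : Equiv.Perm Ω, (∑ z, W z * g (π z)) ^ 2 =
        ∑ z, ∑ z', W z * W z' * (g (π z) * g (π z')) := by
      intro π
      rw [sq, sum_mul_sum]
      exact sum_congr rfl fun z _ => sum_congr rfl fun z' _ => by ring
    simp only [h1]
    rw [sum_comm]
    refine sum_congr rfl fun z _ => ?_
    rw [sum_comm]
  rw [hexp]
  calc ∑ z, ∑ z', W z * W z' * c z z' ≤ ∑ z, ∑ z', if z = z' then W z ^ 2 * c z₀ z₀ else 0 := by
        refine sum_le_sum fun z _ => sum_le_sum fun z' _ => ?_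
        split_ifs with h
        · subst h
          rw [hdiag z z₀, sq]
        · exact mul_nonpos_of_nonneg_of_nonpos (mul_nonneg (hW z) (hW z')) (hneg z z' h)
    _ = (∑ z, W z ^ 2) * c z₀ z₀ := by
        simp only [sum_ite_eq, mem_univ, if_true]
        rw [sum_mul]
    _ = _ := by
        have h1 : c z₀ z₀ = Fintype.card (Equiv.Perm Ω) * (∑ x, g x ^ 2) / Fintype.card Ω := by
          rw [eq_div_iff hN.ne', mul_comm]
          exact hs
        rw [h1]
        ring

lemma perm_abs {Ω : Type} [Fintype Ω] [DecidableEq Ω] [Nonempty Ω] (g : Ω → ℝ)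
    (hg : ∑ x, g x = 0) (W : Ω → ℝ) (hW : ∀ z, 0 ≤ W z) {τ : ℝ} (hτ : 0 < τ)
    (h : (∑ z, W z ^ 2) * ((∑ x, g x ^ 2) / Fintype.card Ω) ≤ τ ^ 2) :
    ∑ π : Equiv.Perm Ω, |∑ z, W z * g (π z)| ≤ Fintype.card (Equiv.Perm Ω) * τ := by
  have h1 : ∀ t : ℝ, |t| ≤ τ / 2 + t ^ 2 / (2 * τ) := by
    intro t
    have h2 : 0 ≤ (|t| - τ) ^ 2 := sq_nonneg _
    have h3 : |t| ^ 2 = t ^ 2 := sq_abs t
    have h4 : τ / 2 + t ^ 2 / (2 * τ) - |t| = (|t| - τ) ^ 2 / (2 * τ) := by
      rw [← h3]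
      field_simp
      ring
    have h5 : 0 ≤ (|t| - τ) ^ 2 / (2 * τ) := by positivity
    linarith
  calc ∑ π : Equiv.Perm Ω, |∑ z, W z * g (π z)|
      ≤ ∑ π : Equiv.Perm Ω, (τ / 2 + (∑ z, W z * g (π z)) ^ 2 / (2 * τ)) :=
        sum_le_sum fun π _ => h1 _
    _ = Fintype.card (Equiv.Perm Ω) * (τ / 2) +
        (∑ π : Equiv.Perm Ω, (∑ z, W z * g (π z)) ^ 2) / (2 * τ) := by
        rw [sum_add_distrib, sum_const, card_univ, nsmul_eq_mul, sum_div]
    _ ≤ Fintype.card (Equiv.Perm Ω) * (τ / 2) + (Fintype.card (Equiv.Perm Ω) * τ ^ 2) / (2 * τ) := by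
        refine add_le_add le_rfl (div_le_div_of_nonneg_right ?_ (by positivity))
        exact (perm_var g hg W hW).trans (mul_le_mul_of_nonneg_left h (by positivity))
    _ = _ := by
        field_simp
        ring

variable {n : ℕ}

lemma conv_eq {E : Finset (Cube n)} (f : Cube n → ℝ) (x : Cube n) :
    conv E f x = ∑ z, (1 / #E * (if x - z ∈ E then 1 else 0)) * f z := by
  unfold conv
  simp only [mul_assoc]
  rw [← mul_sum]
  congr 1
  rw [← (Equiv.subLeft x).sum_comp]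
  simp only [Equiv.subLeft_apply, sub_sub_cancel, ite_mul, one_mul, zero_mul]
  rw [sum_ite_mem, univ_inter]

lemma sum_ind {E : Finset (Cube n)} (x : Cube n) :
    ∑ z : Cube n, (if x - z ∈ E then (1 : ℝ) else 0) = #E := by
  have h1 := (Equiv.subLeft x).sum_comp (fun z => if z ∈ E then (1 : ℝ) else 0)
  simp only [Equiv.subLeft_apply] at h1
  rw [h1]
  simp

/-- the weights of the double convolution -/
noncomputable def W2 (E V : Finset (Cube n)) (x z : Cube n) : ℝ :=
  (1 / (#V : ℝ)) * ∑ v ∈ V, (1 / (#E : ℝ) * (if x - v - z ∈ E then (1 : ℝ) else 0))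

lemma conv_conv_eq {E V : Finset (Cube n)} (f : Cube n → ℝ) (x : Cube n) :
    conv V (conv E f) x = ∑ z, W2 E V x z * f z := by
  have h1 : conv V (conv E f) x = (1 / #V) * ∑ v ∈ V, conv E f (x - v) := rfl
  rw [h1]
  simp only [conv_eq (E := E), W2, mul_assoc]
  rw [← mul_sum]
  congr 1
  rw [sum_comm]
  exact sum_congr rfl fun z _ => by rw [sum_mul]; simp only [mul_assoc]

lemma W2_nonneg {E V : Finset (Cube n)} (x z : Cube n) : 0 ≤ W2 E V x z := by
  unfold W2
  refine mul_nonneg (by positivity) (sum_nonneg fun v _ => mul_nonneg (by positivity) ?_)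
  split_ifs <;> norm_num

lemma W2_sum {E V : Finset (Cube n)} (hE : E.Nonempty) (hV : V.Nonempty) (x : Cube n) :
    ∑ z, W2 E V x z = 1 := by
  have hE0 : (#E : ℝ) ≠ 0 := by
    have := hE.card_pos
    positivity
  have hV0 : (#V : ℝ) ≠ 0 := by
    have := hV.card_pos
    positivity
  unfold W2
  rw [← mul_sum, sum_comm]
  have h1 : ∀ v ∈ V, ∑ z : Cube n, 1 / (#E : ℝ) * (if x - v - z ∈ E then 1 else 0) = 1 := by
    intro v _
    rw [← mul_sum, sum_ind]
    field_simp
  rw [sum_congr rfl h1, sum_const, nsmul_eq_mul]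
  field_simp

lemma W2_le {E V : Finset (Cube n)} (hE : E.Nonempty) (x z : Cube n) :
    W2 E V x z ≤ 1 / #V := by
  have hE0 : (0 : ℝ) < #E := by
    have := hE.card_pos
    positivity
  unfold W2
  rw [← mul_sum]
  have h1 : ∑ v ∈ V, (if x - v - z ∈ E then (1 : ℝ) else 0) ≤ #E := by
    calc ∑ v ∈ V, (if x - v - z ∈ E then (1 : ℝ) else 0)
        ≤ ∑ v : Cube n, (if x - v - z ∈ E then (1 : ℝ) else 0) :=
          sum_le_sum_of_subset_of_nonneg (subset_univ _) fun v _ _ => by split_ifs <;> norm_num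
      _ = ∑ v : Cube n, (if (x - z) - v ∈ E then (1 : ℝ) else 0) :=
          sum_congr rfl fun v _ => by rw [sub_right_comm]
      _ = #E := sum_ind _
  calc (1 / (#V : ℝ)) * (1 / #E * ∑ v ∈ V, (if x - v - z ∈ E then (1 : ℝ) else 0))
      ≤ (1 / (#V : ℝ)) * (1 / #E * #E) := by
        refine mul_le_mul_of_nonneg_left (mul_le_mul_of_nonneg_left h1 (by positivity))
          (by positivity)
    _ = 1 / #V := by field_simp

lemma W2_sq {E V : Finset (Cube n)} (hE : E.Nonempty) (hV : V.Nonempty) (x : Cube n) :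
    ∑ z, W2 E V x z ^ 2 ≤ 1 / #V := by
  calc ∑ z, W2 E V x z ^ 2 ≤ ∑ z, (1 / (#V : ℝ)) * W2 E V x z := by
        refine sum_le_sum fun z _ => ?_
        rw [sq]
        exact mul_le_mul_of_nonneg_right (W2_le hE x z) (W2_nonneg x z)
    _ = 1 / #V := by rw [← mul_sum, W2_sum hE hV, mul_one]

/-- the expected error -/
theorem expected {E V : Finset (Cube n)} (hE : E.Nonempty) (hV : V.Nonempty) {g : Cube n → ℝ}
    (hg : ∑ x, g x = 0) {τ₁ τ₂ : ℝ} (hτ₁ : 0 < τ₁) (hτ₂ : 0 < τ₂)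
    (h₁ : (1 / #E) * ((∑ x, g x ^ 2) / 2 ^ n) ≤ τ₁ ^ 2)
    (h₂ : (1 / #V) * ((∑ x, g x ^ 2) / 2 ^ n) ≤ τ₂ ^ 2) {a b : ℝ} (ha : 0 ≤ a) (hb : 0 ≤ b) :
    ∑ π : Equiv.Perm (Cube n), (a * ∑ x, |conv E (fun y => g (π y)) x| +
      b * ∑ x, |conv V (conv E (fun y => g (π y))) x|) ≤
      Fintype.card (Equiv.Perm (Cube n)) * (2 ^ n * (a * τ₁ + b * τ₂)) := by
  have hE0 : (#E : ℝ) ≠ 0 := by
    have := hE.card_pos
    positivity
  have hcard : (Fintype.card (Cube n) : ℝ) = 2 ^ n := by simp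
  have hsq : 0 ≤ (∑ x, g x ^ 2) / 2 ^ n := by positivity
  have e1 : ∀ x, ∑ π : Equiv.Perm (Cube n), |conv E (fun y => g (π y)) x| ≤
      Fintype.card (Equiv.Perm (Cube n)) * τ₁ := by
    intro x
    simp only [conv_eq]
    refine perm_abs g hg (fun z => 1 / #E * (if x - z ∈ E then 1 else 0)) (fun z => ?_) hτ₁ ?_
    · refine mul_nonneg (by positivity) ?_
      split_ifs <;> norm_num
    · rw [hcard]
      refine le_trans (mul_le_mul_of_nonneg_right ?_ hsq) h₁
      have h3 : ∀ z : Cube n, (1 / (#E : ℝ) * (if x - z ∈ E then 1 else 0)) ^ 2 =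
          (1 / #E) ^ 2 * (if x - z ∈ E then 1 else 0) := by
        intro z
        split_ifs <;> ring
      simp only [h3]
      rw [← mul_sum, sum_ind]
      refine le_of_eq ?_
      field_simp
  have e2 : ∀ x, ∑ π : Equiv.Perm (Cube n), |conv V (conv E (fun y => g (π y))) x| ≤
      Fintype.card (Equiv.Perm (Cube n)) * τ₂ := by
    intro x
    simp only [conv_conv_eq]
    refine perm_abs g hg (fun z => W2 E V x z) (fun z => W2_nonneg x z) hτ₂ ?_
    rw [hcard]
    exact le_trans (mul_le_mul_of_nonneg_right (W2_sq hE hV x) hsq) h₂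
  have f1 : ∑ π : Equiv.Perm (Cube n), ∑ x, |conv E (fun y => g (π y)) x| =
      ∑ x, ∑ π : Equiv.Perm (Cube n), |conv E (fun y => g (π y)) x| := sum_comm
  have f2 : ∑ π : Equiv.Perm (Cube n), ∑ x, |conv V (conv E (fun y => g (π y))) x| =
      ∑ x, ∑ π : Equiv.Perm (Cube n), |conv V (conv E (fun y => g (π y))) x| := sum_comm
  rw [sum_add_distrib, ← mul_sum, ← mul_sum, f1, f2]
  calc a * ∑ x, ∑ π : Equiv.Perm (Cube n), |conv E (fun y => g (π y)) x| +
        b * ∑ x, ∑ π : Equiv.Perm (Cube n), |conv V (conv E (fun y => g (π y))) x|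
      ≤ a * ∑ x : Cube n, Fintype.card (Equiv.Perm (Cube n)) * τ₁ +
        b * ∑ x : Cube n, Fintype.card (Equiv.Perm (Cube n)) * τ₂ :=
        add_le_add (mul_le_mul_of_nonneg_left (sum_le_sum fun x _ => e1 x) ha)
          (mul_le_mul_of_nonneg_left (sum_le_sum fun x _ => e2 x) hb)
    _ = _ := by
        rw [sum_const, sum_const, card_univ, nsmul_eq_mul, nsmul_eq_mul, hcard]
        ring

end Pool.Agent.R555.EMD
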