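import Pool.Agent.R555.EMD2

/-!
The lower bound.
-/

set_option autoImplicit false
set_option linter.unusedSectionVars false
set_option linter.unusedVariables false

namespace Pool.Agent.R555.EMD

open Finset

/-- the first `k` coordinates are zero -/
def A (n k : ℕ) : Finset (Cube n) := Fintype.piFinset fun i => if i.1 < k then {0} else univ

/-- only the first `L` coordinates can be nonzero -/
def V (n L : ℕ) : Finset (Cube n) := Fintype.piFinset fun i => if i.1 < L then univ else {0}

/-- the unit vectors -/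
def E (n : ℕ) : Finset (Cube n) := univ.image fun i => Pi.single i 1

lemma mem_A {n k : ℕ} (x : Cube n) : x ∈ A n k ↔ ∀ i, i.1 < k → x i = 0 := by
  unfold A
  rw [Fintype.mem_piFinset]
  refine forall_congr' fun i => ?_
  split_ifs with h <;> simp [h]

lemma card_lt {n k : ℕ} (hk : k ≤ n) : #{i : Fin n | i.1 < k} = k := by
  have h : ({i : Fin n | i.1 < k} : Finset (Fin n)) = univ.map (Fin.castLEEmb hk) := by
    ext i
    simp only [mem_filter, mem_univ, true_and, mem_map]
    constructor
    · intro hi
      exact ⟨⟨i.1, hi⟩, rfl⟩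
    · rintro ⟨j, rfl⟩
      exact j.2
  rw [h, card_map, card_univ, Fintype.card_fin]

lemma card_not_lt {n k : ℕ} (hk : k ≤ n) : #{i : Fin n | ¬ i.1 < k} = n - k := by
  have h := card_filter_add_card_filter_not (s := (univ : Finset (Fin n))) (fun i => i.1 < k)
  rw [card_lt hk, card_univ, Fintype.card_fin] at h
  omega

lemma card_A {n k : ℕ} (hk : k ≤ n) : #(A n k) = 2 ^ (n - k) := by
  unfold A
  rw [Fintype.card_piFinset]
  have h : ∀ i : Fin n, #(if i.1 < k then ({0} : Finset (Fin 2)) else univ) =
      if i.1 < k then 1 else 2 := by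
    intro i
    split_ifs <;> simp
  simp only [h]
  rw [prod_ite, prod_const_one, one_mul, prod_const, card_not_lt hk]

lemma card_V {n L : ℕ} (hL : L ≤ n) : #(V n L) = 2 ^ L := by
  unfold V
  rw [Fintype.card_piFinset]
  have h : ∀ i : Fin n, #(if i.1 < L then (univ : Finset (Fin 2)) else {0}) =
      if i.1 < L then 2 else 1 := by
    intro i
    split_ifs <;> simp
  simp only [h]
  rw [prod_ite, prod_const_one, mul_one, prod_const, card_lt hL]

lemma card_E (n : ℕ) : #(E n) = n := by
  unfold E
  rw [card_image_of_injective, card_univ, Fintype.card_fin]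
  intro i j h
  by_contra hne
  have h1 := congrFun h i
  simp only [Pi.single_eq_same] at h1
  rw [Pi.single_eq_of_ne hne] at h1
  exact absurd h1 (by decide)

lemma norm_E {n : ℕ} : ∀ e ∈ E n, hammingNorm e ≤ 1 := by
  intro e he
  obtain ⟨i, -, rfl⟩ := mem_image.1 he
  unfold hammingNorm
  have h : ({j | (Pi.single i 1 : Cube n) j ≠ 0} : Finset (Fin n)) ⊆ {i} := by
    intro j hj
    rw [mem_filter] at hj
    rw [mem_singleton]
    by_contra hne
    exact hj.2 (Pi.single_eq_of_ne hne _)
  exact (card_le_card h).trans (by simp)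

lemma norm_V {n L : ℕ} (hL : L ≤ n) : ∀ e ∈ V n L, hammingNorm e ≤ L := by
  intro e he
  unfold hammingNorm
  have h : ({j | e j ≠ 0} : Finset (Fin n)) ⊆ ({j : Fin n | j.1 < L} : Finset (Fin n)) := by
    intro j hj
    rw [mem_filter] at hj ⊢
    refine ⟨mem_univ _, ?_⟩
    by_contra hne
    unfold V at he
    rw [Fintype.mem_piFinset] at he
    have := he j
    rw [if_neg hne, mem_singleton] at this
    exact hj.2 this
  exact (card_le_card h).trans (card_lt hL).le

/-- the number of ones among the first `k` coordinates -/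
def wk {n : ℕ} (k : ℕ) (x : Cube n) : ℕ := #{i : Fin n | i.1 < k ∧ x i ≠ 0}

lemma wk_le {n k : ℕ} (hk : k ≤ n) (x : Cube n) : wk k x ≤ k := by
  refine le_trans (card_le_card ?_) (card_lt hk).le
  intro i hi
  rw [mem_filter] at hi ⊢
  exact ⟨hi.1, hi.2.1⟩

lemma wk_eq_zero {n k : ℕ} {x : Cube n} (hx : x ∈ A n k) : wk k x = 0 := by
  unfold wk
  rw [card_eq_zero, filter_eq_empty_iff]
  rintro i - ⟨hi, h⟩
  exact h ((mem_A x).1 hx i hi)

lemma wk_le_dist {n k : ℕ} {x y : Cube n} (hy : y ∈ A n k) : wk k x ≤ hammingDist x y := by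
  unfold wk hammingDist
  refine card_le_card ?_
  intro i hi
  rw [mem_filter] at hi ⊢
  refine ⟨mem_univ _, ?_⟩
  rw [(mem_A y).1 hy i hi.2.1]
  exact hi.2.2

lemma card_ne_zero {n : ℕ} (i : Fin n) : 2 * #{x : Cube n | x i ≠ 0} = 2 ^ n := by
  have h1 : #{x : Cube n | x i ≠ 0} = #{x : Cube n | ¬ x i ≠ 0} := by
    refine card_bij (fun x _ => x + Pi.single i 1) ?_ ?_ ?_
    · intro x hx
      simp only [mem_filter, mem_univ, true_and] at hx ⊢
      simp only [Pi.add_apply, Pi.single_eq_same]
      revert hx
      generalize x i = t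
      revert t
      decide
    · intro x _ y _ h
      exact add_right_cancel h
    · intro y hy
      refine ⟨y - Pi.single i 1, ?_, by simp⟩
      simp only [mem_filter, mem_univ, true_and] at hy ⊢
      simp only [Pi.sub_apply, Pi.single_eq_same]
      revert hy
      generalize y i = t
      revert t
      decide
  have h2 := card_filter_add_card_filter_not (s := (univ : Finset (Cube n))) (fun x => x i ≠ 0)
  rw [← h1, card_univ] at h2
  have h3 : Fintype.card (Cube n) = 2 ^ n := by simp
  omega

lemma sum_wk {n k : ℕ} (hk : k ≤ n) : 2 * ∑ x : Cube n, wk k x = k * 2 ^ n := by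
  have h1 : ∀ x : Cube n, wk k x = ∑ i ∈ ({i : Fin n | i.1 < k} : Finset (Fin n)),
      if x i ≠ 0 then 1 else 0 := by
    intro x
    unfold wk
    rw [← card_filter, filter_filter]
  simp only [h1]
  rw [sum_comm, mul_sum]
  have h2 : ∀ i ∈ ({i : Fin n | i.1 < k} : Finset (Fin n)),
      2 * ∑ x : Cube n, (if x i ≠ 0 then 1 else 0) = 2 ^ n := by
    intro i _
    rw [← card_filter, card_ne_zero]
  rw [sum_congr rfl h2, sum_const, card_lt hk, smul_eq_mul]

lemma card_ball (n k : ℕ) : #{v : Cube n | hammingNorm v ≤ k} ≤ (n + 1) ^ k := by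
  induction k with
  | zero =>
    rw [pow_zero]
    refine card_le_one.2 ?_
    intro a ha b hb
    rw [mem_filter, Nat.le_zero, hammingNorm_eq_zero] at ha hb
    rw [ha.2, hb.2]
  | succ k ih =>
    have h : ({v : Cube n | hammingNorm v ≤ k + 1} : Finset (Cube n)) ⊆
        (({v : Cube n | hammingNorm v ≤ k} : Finset (Cube n)) ×ˢ
          (univ : Finset (Option (Fin n)))).image
          (fun p => p.1 + (p.2.elim 0 fun i => Pi.single i 1)) := by
      intro v hv
      rw [mem_filter] at hv
      rw [mem_image]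
      by_cases h1 : hammingNorm v ≤ k
      · exact ⟨(v, none), by simp [h1], by simp⟩
      · have h2 : hammingNorm v = k + 1 := by omega
        have h3 : ∃ i, v i ≠ 0 := by
          by_contra hcon
          push Not at hcon
          have : v = 0 := funext hcon
          rw [this, hammingNorm_zero] at h2
          omega
        obtain ⟨i, hi⟩ := h3
        refine ⟨(Function.update v i 0, some i), ?_, ?_⟩
        · simp only [mem_product, mem_filter, mem_univ, true_and, and_true]
          unfold hammingNorm at h2 ⊢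
          have h4 : ({j | Function.update v i 0 j ≠ 0} : Finset (Fin n)) =
              ({j | v j ≠ 0} : Finset (Fin n)).erase i := by
            ext j
            rw [mem_erase, mem_filter, mem_filter]
            by_cases hj : j = i
            · subst hj
              simp
            · rw [Function.update_of_ne hj]
              simp [hj]
          rw [h4, card_erase_of_mem (by simpa using hi), h2]
          omega
        · funext j
          simp only [Pi.add_apply, Option.elim_some]
          by_cases hj : j = i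
          · subst hj
            simp only [Function.update_self, Pi.single_eq_same]
            revert hi
            generalize v j = t
            revert t
            decide
          · rw [Function.update_of_ne hj, Pi.single_eq_of_ne hj, add_zero]
    calc #{v : Cube n | hammingNorm v ≤ k + 1} ≤ _ := card_le_card h
      _ ≤ _ := card_image_le
      _ = #{v : Cube n | hammingNorm v ≤ k} * (n + 1) := by
          rw [card_product, card_univ, Fintype.card_option, Fintype.card_fin]
      _ ≤ (n + 1) ^ k * (n + 1) := Nat.mul_le_mul_right _ ih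
      _ = (n + 1) ^ (k + 1) := by ring

lemma card_near {n k : ℕ} (S : Finset (Cube n)) :
    #{x : Cube n | ∃ y ∈ S, hammingDist x y ≤ k} ≤ #S * (n + 1) ^ k := by
  have h : ({x : Cube n | ∃ y ∈ S, hammingDist x y ≤ k} : Finset (Cube n)) ⊆
      (S ×ˢ ({v : Cube n | hammingNorm v ≤ k} : Finset (Cube n))).image (fun p => p.1 - p.2) := by
    intro x hx
    rw [mem_filter] at hx
    obtain ⟨-, y, hy, hxy⟩ := hx
    rw [mem_image]
    refine ⟨(y, y - x), ?_, by simp⟩
    simp only [mem_product, mem_filter, mem_univ, true_and]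
    refine ⟨hy, ?_⟩
    rw [hammingDist_eq_hammingNorm, neg_add_eq_sub] at hxy
    exact hxy
  calc _ ≤ _ := card_le_card h
    _ ≤ _ := card_image_le
    _ = #S * #{v : Cube n | hammingNorm v ≤ k} := card_product _ _
    _ ≤ _ := Nat.mul_le_mul_left _ (card_ball n k)

/-- the mass of the dust -/
noncomputable def eta (n k : ℕ) : ℝ := 1 / (((k : ℝ) + 4) * ((n : ℝ) + 1) ^ k)

lemma eta_pos (n k : ℕ) : 0 < eta n k := by unfold eta; positivity

lemma eta_le (n k : ℕ) : eta n k ≤ 1 := by
  unfold eta
  rw [div_le_one (by positivity)]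
  have h1 : (1 : ℝ) ≤ ((n : ℝ) + 1) ^ k := one_le_pow₀ (by linarith [Nat.cast_nonneg (α := ℝ) n])
  have h2 : (1 : ℝ) ≤ (k : ℝ) + 4 := by linarith [Nat.cast_nonneg (α := ℝ) k]
  nlinarith

/-- uniform distribution on `B` -/
noncomputable def unif {n : ℕ} (B : Finset (Cube n)) (x : Cube n) : ℝ :=
  if x ∈ B then 1 / #B else 0

lemma unif_nonneg {n : ℕ} (B : Finset (Cube n)) (x : Cube n) : 0 ≤ unif B x := by
  unfold unif
  split_ifs <;> positivity

lemma sum_unif {n : ℕ} {B : Finset (Cube n)} (hB : B.Nonempty) : ∑ x, unif B x = 1 := by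
  unfold unif
  rw [sum_ite_mem, univ_inter, sum_const, nsmul_eq_mul]
  have : (#B : ℝ) ≠ 0 := by
    have := hB.card_pos
    positivity
  field_simp

lemma sum_unif_sq {n : ℕ} {B : Finset (Cube n)} (hB : B.Nonempty) :
    ∑ x, unif B x ^ 2 = 1 / #B := by
  unfold unif
  have h : ∀ x, (if x ∈ B then 1 / (#B : ℝ) else 0) ^ 2 = if x ∈ B then (1 / (#B : ℝ)) ^ 2 else 0 := by
    intro x
    split_ifs <;> simp
  simp only [h]
  rw [sum_ite_mem, univ_inter, sum_const, nsmul_eq_mul]
  have : (#B : ℝ) ≠ 0 := by
    have := hB.card_pos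
    positivity
  field_simp

/-- the distribution -/
noncomputable def X (n k : ℕ) (x : Cube n) : ℝ :=
  (1 - eta n k) * unif (A n k) x + eta n k * unif (A n k)ᶜ x

lemma X_nonneg (n k : ℕ) (x : Cube n) : 0 ≤ X n k x := by
  unfold X
  have h1 := eta_pos n k
  have h2 := eta_le n k
  have h3 := unif_nonneg (A n k) x
  have h4 := unif_nonneg (A n k)ᶜ x
  have : 0 ≤ 1 - eta n k := by linarith
  positivity

lemma A_nonempty (n k : ℕ) : (A n k).Nonempty := ⟨0, (mem_A _).2 fun i _ => rfl⟩

lemma Ac_nonempty {n k : ℕ} (hk : 1 ≤ k) (hn : 1 ≤ n) : (A n k)ᶜ.Nonempty := by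
  refine ⟨fun _ => 1, ?_⟩
  rw [mem_compl, mem_A]
  intro h
  exact absurd (h ⟨0, hn⟩ (show 0 < k by omega)) (by decide)

lemma X_sum {n k : ℕ} (hk : 1 ≤ k) (hn : 1 ≤ n) : ∑ x, X n k x = 1 := by
  unfold X
  rw [sum_add_distrib, ← mul_sum, ← mul_sum, sum_unif (A_nonempty n k),
    sum_unif (Ac_nonempty hk hn)]
  ring

/-- The lower bound for the cost. -/
theorem lower {n k : ℕ} (hk : 1 ≤ k) (hkn : k ≤ n) {Y : Cube n → ℝ} (hY0 : ∀ y, 0 ≤ Y y)
    (hgrain : ∀ y, Y y ≠ 0 → 1 / (#(A n k) : ℝ) ≤ Y y) {w : Cube n → Cube n → ℝ}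
    (hw : IsCoupling (X n k) Y w) :
    eta n k * k / (4 * n) ≤ ∑ x, ∑ y, w x y * Δ x y := by
  obtain ⟨h0, h1, h2⟩ := hw
  have hn0 : (0 : ℝ) < n := by exact_mod_cast (by omega : 0 < n)
  have hk0 : (0 : ℝ) < k := by exact_mod_cast hk
  have hη := eta_pos n k
  have hη1 := eta_le n k
  have key : eta n k * k / 4 ≤ ∑ x, ∑ y, w x y * hammingDist x y := by
    have hA0 : (0 : ℝ) < #(A n k) := by
      have := (A_nonempty n k).card_pos
      positivity
    have hAc0 : (0 : ℝ) < #(A n k)ᶜ := by
      have := (Ac_nonempty hk (by omega : 1 ≤ n)).card_pos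
      positivity
    have hAc : (#(A n k)ᶜ : ℝ) ≤ 2 ^ n := by
      have := card_le_univ (A n k)ᶜ
      simp only [Fintype.card_pi, Fintype.card_fin, prod_const, card_univ] at this
      exact_mod_cast this
    have hwY : ∀ x y, w x y ≤ Y y := by
      intro x y
      rw [← h2 y]
      exact single_le_sum (f := fun x => w x y) (fun x _ => h0 x y) (mem_univ x)
    set S : Finset (Cube n) := {y | y ∉ A n k ∧ Y y ≠ 0} with hS
    by_cases hcase : 4 * (#S * (n + 1) ^ k) ≤ 2 ^ n
    · -- few atoms outside
      set near : Finset (Cube n) := {x : Cube n | ∃ y ∈ S, hammingDist x y ≤ k} with hnear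
      have hrow : ∀ x ∉ near, (wk k x : ℝ) * X n k x ≤ ∑ y, w x y * hammingDist x y := by
        intro x hx
        rw [← h1 x, mul_sum]
        refine sum_le_sum fun y _ => ?_
        by_cases hwxy : w x y = 0
        · rw [hwxy]; simp
        · have hYy : Y y ≠ 0 := by
            intro h
            have := hwY x y
            rw [h] at this
            exact hwxy (le_antisymm this (h0 x y))
          have h3 : wk k x ≤ hammingDist x y := by
            by_cases hy : y ∈ A n k
            · exact wk_le_dist hy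
            · have hyS : y ∈ S := by
                rw [hS, mem_filter]
                exact ⟨mem_univ _, hy, hYy⟩
              have h4 : ¬ hammingDist x y ≤ k := by
                intro h5
                apply hx
                rw [hnear, mem_filter]
                exact ⟨mem_univ _, y, hyS, h5⟩
              have := wk_le hkn x
              omega
          rw [mul_comm]
          exact mul_le_mul_of_nonneg_left (by exact_mod_cast h3) (h0 x y)
      have hrow0 : ∀ x, 0 ≤ ∑ y, w x y * hammingDist x y := fun x =>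
        sum_nonneg fun y _ => mul_nonneg (h0 x y) (by positivity)
      have hX : ∀ x, (wk k x : ℝ) * (eta n k / 2 ^ n) ≤ wk k x * X n k x := by
        intro x
        by_cases hx : x ∈ A n k
        · rw [wk_eq_zero hx]; simp
        · refine mul_le_mul_of_nonneg_left ?_ (by positivity)
          unfold X unif
          rw [if_neg hx, if_pos (mem_compl.2 hx), mul_zero, zero_add, div_eq_mul_one_div]
          exact mul_le_mul_of_nonneg_left (one_div_le_one_div_of_le hAc0 hAc) hη.le
      have hnc : (near.card : ℝ) ≤ 2 ^ n / 4 := by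
        have h5 : 4 * near.card ≤ 2 ^ n := le_trans (Nat.mul_le_mul_left 4 (card_near S)) hcase
        have h6 : (4 : ℝ) * near.card ≤ 2 ^ n := by exact_mod_cast h5
        linarith
      have hsumwk : ∑ x : Cube n, (wk k x : ℝ) = k * 2 ^ n / 2 := by
        have h5 : ((2 * ∑ x : Cube n, wk k x : ℕ) : ℝ) = ((k * 2 ^ n : ℕ) : ℝ) := by
          rw [sum_wk hkn]
        push_cast at h5
        linarith
      have hsum2 : ∑ x ∈ near, (wk k x : ℝ) ≤ k * (2 ^ n / 4) := by
        calc ∑ x ∈ near, (wk k x : ℝ) ≤ ∑ x ∈ near, (k : ℝ) :=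
              sum_le_sum fun x _ => by exact_mod_cast wk_le hkn x
          _ = near.card * k := by rw [sum_const, nsmul_eq_mul]
          _ ≤ (2 ^ n / 4) * k := mul_le_mul_of_nonneg_right hnc hk0.le
          _ = _ := by ring
      have hsum3 : ∑ x ∈ nearᶜ, (wk k x : ℝ) ≥ k * (2 ^ n / 4) := by
        have h5 := sum_add_sum_compl near (fun x => (wk k x : ℝ))
        rw [hsumwk] at h5
        linarith
      calc eta n k * k / 4 = (k * (2 ^ n / 4)) * (eta n k / 2 ^ n) := by
            field_simp
        _ ≤ (∑ x ∈ nearᶜ, (wk k x : ℝ)) * (eta n k / 2 ^ n) :=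
            mul_le_mul_of_nonneg_right hsum3 (by positivity)
        _ = ∑ x ∈ nearᶜ, (wk k x : ℝ) * (eta n k / 2 ^ n) := sum_mul _ _ _
        _ ≤ ∑ x ∈ nearᶜ, ∑ y, w x y * hammingDist x y :=
            sum_le_sum fun x hx => (hX x).trans (hrow x (mem_compl.1 hx))
        _ ≤ ∑ x, ∑ y, w x y * hammingDist x y :=
            sum_le_sum_of_subset_of_nonneg (subset_univ _) fun x _ _ => hrow0 x
    · -- many atoms outside
      push Not at hcase
      have hXc : ∑ x ∈ (A n k)ᶜ, X n k x = eta n k := by
        have h3 : ∀ x ∈ (A n k)ᶜ, X n k x = eta n k * (1 / #(A n k)ᶜ) := by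
          intro x hx
          unfold X unif
          rw [if_neg (mem_compl.1 hx), if_pos hx]
          ring
        rw [sum_congr rfl h3, sum_const, nsmul_eq_mul]
        field_simp
      have hS0 : ∀ x, ∑ y ∈ S, w x y ≤ X n k x := by
        intro x
        rw [← h1 x]
        exact sum_le_sum_of_subset_of_nonneg (subset_univ _) fun y _ _ => h0 x y
      have h3 : (#S : ℝ) * (1 / #(A n k)) ≤ ∑ y ∈ S, Y y := by
        calc (#S : ℝ) * (1 / #(A n k)) = ∑ y ∈ S, 1 / (#(A n k) : ℝ) := by
              rw [sum_const, nsmul_eq_mul]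
          _ ≤ _ := sum_le_sum fun y hy => hgrain y (mem_filter.1 hy).2.2
      have h4 : ∑ y ∈ S, Y y = ∑ x ∈ A n k, ∑ y ∈ S, w x y + ∑ x ∈ (A n k)ᶜ, ∑ y ∈ S, w x y := by
        rw [sum_add_sum_compl (A n k) (fun x => ∑ y ∈ S, w x y), sum_comm]
        exact sum_congr rfl fun y _ => (h2 y).symm
      have h5 : ∑ x ∈ (A n k)ᶜ, ∑ y ∈ S, w x y ≤ eta n k := by
        rw [← hXc]
        exact sum_le_sum fun x _ => hS0 x
      have h6 : ∑ x ∈ A n k, ∑ y ∈ S, w x y ≤ ∑ x, ∑ y, w x y * hammingDist x y := by
        calc ∑ x ∈ A n k, ∑ y ∈ S, w x y ≤ ∑ x ∈ A n k, ∑ y ∈ S, w x y * hammingDist x y := by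
              refine sum_le_sum fun x hx => sum_le_sum fun y hy => ?_
              have hxy : x ≠ y := by
                rintro rfl
                exact (mem_filter.1 hy).2.1 hx
              have h7 : 1 ≤ hammingDist x y := Nat.one_le_iff_ne_zero.2 (hammingDist_ne_zero.2 hxy)
              have h8 : (1 : ℝ) ≤ hammingDist x y := by exact_mod_cast h7
              exact le_mul_of_one_le_right (h0 x y) h8
          _ ≤ ∑ x ∈ A n k, ∑ y, w x y * hammingDist x y := by
              refine sum_le_sum fun x _ => ?_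
              exact sum_le_sum_of_subset_of_nonneg (subset_univ _) fun y _ _ =>
                mul_nonneg (h0 x y) (by positivity)
          _ ≤ _ := sum_le_sum_of_subset_of_nonneg (subset_univ _) fun x _ _ =>
                sum_nonneg fun y _ => mul_nonneg (h0 x y) (by positivity)
      have h7 : 1 / (4 * ((n : ℝ) + 1) ^ k) ≤ (#S : ℝ) * (1 / #(A n k)) := by
        have h8 : (2 : ℝ) ^ n ≤ 4 * (#S * ((n : ℝ) + 1) ^ k) := by exact_mod_cast hcase.le
        have h9 : (#(A n k) : ℝ) ≤ 2 ^ n := by
          have := card_le_univ (A n k)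
          simp only [Fintype.card_pi, Fintype.card_fin, prod_const, card_univ] at this
          exact_mod_cast this
        rw [mul_one_div, div_le_div_iff₀ (by positivity) hA0]
        linarith
      have h8 : 1 / (4 * ((n : ℝ) + 1) ^ k) = eta n k * (k + 4) / 4 := by
        unfold eta
        field_simp
      have h9 : eta n k * (k + 4) / 4 = eta n k * k / 4 + eta n k := by ring
      linarith
  have h3 : ∑ x, ∑ y, w x y * Δ x y = (∑ x, ∑ y, w x y * hammingDist x y) / n := by
    simp only [sum_div]
    refine sum_congr rfl fun x _ => sum_congr rfl fun y _ => ?_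
    unfold Δ
    ring
  rw [h3, le_div_iff₀ hn0]
  calc eta n k * k / (4 * n) * n = eta n k * k / 4 := by field_simp
    _ ≤ _ := key

end Pool.Agent.R555.EMD
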