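import Mathlib

/-!
Finite sums over sequences of independent samples.
-/

set_option autoImplicit false
set_option linter.unusedSectionVars false
set_option linter.unusedVariables false

namespace Pool.Agent.R555.Iid

open Finset

variable {Λ : Type} [Fintype Λ]

/-- The probability of the sequence `x` of independent samples from `μ`. -/
noncomputable def wt (μ : Λ → ℝ) {κ : Type} [Fintype κ] (x : κ → Λ) : ℝ := ∏ j, μ (x j)

lemma wt_nonneg {μ : Λ → ℝ} (h0 : ∀ a, 0 ≤ μ a) {κ : Type} [Fintype κ] (x : κ → Λ) :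
    0 ≤ wt μ x := prod_nonneg fun j _ => h0 _

lemma sum_prod_gen (κ : Type) [Fintype κ] [DecidableEq κ] (φ : κ → Λ → ℝ) :
    ∑ x : κ → Λ, ∏ j, φ j (x j) = ∏ j, ∑ a, φ j a := by
  classical
  have h := Finset.prod_univ_sum (fun _ : κ => (univ : Finset Λ)) (fun j a => φ j a)
  rw [Fintype.piFinset_univ] at h
  rw [h]

lemma sum_prod (κ : Type) [Fintype κ] [DecidableEq κ] (φ : Λ → ℝ) :
    ∑ x : κ → Λ, ∏ j, φ (x j) = (∑ a, φ a) ^ Fintype.card κ := by
  rw [sum_prod_gen κ (fun _ => φ), prod_const, card_univ]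

lemma sum_wt {μ : Λ → ℝ} (h1 : ∑ a, μ a = 1) (κ : Type) [Fintype κ] [DecidableEq κ] :
    ∑ x : κ → Λ, wt μ x = 1 := by
  unfold wt
  rw [sum_prod, h1, one_pow]

/-- glue two partial sequences -/
def glue {ι : Type} (p : ι → Prop) [DecidablePred p] (u : {i // p i} → Λ)
    (v : {i // ¬ p i} → Λ) : ι → Λ := fun i => if h : p i then u ⟨i, h⟩ else v ⟨i, h⟩

lemma sum_split {ι : Type} [Fintype ι] [DecidableEq ι] (p : ι → Prop) [DecidablePred p]
    (G : (ι → Λ) → ℝ) :
    ∑ x, G x = ∑ u : {i // p i} → Λ, ∑ v : {i // ¬ p i} → Λ, G (glue p u v) := by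
  classical
  rw [← (Equiv.piEquivPiSubtypeProd p (fun _ => Λ)).symm.sum_comp G, Fintype.sum_prod_type]
  rfl

lemma wt_glue {ι : Type} [Fintype ι] [DecidableEq ι] (p : ι → Prop) [DecidablePred p]
    (μ : Λ → ℝ) (u : {i // p i} → Λ) (v : {i // ¬ p i} → Λ) :
    wt μ (glue p u v) = wt μ u * wt μ v := by
  classical
  unfold wt
  rw [← Fintype.prod_subtype_mul_prod_subtype p]
  congr 1
  · refine Fintype.prod_congr _ _ fun i => ?_
    simp [glue, i.2]
  · refine Fintype.prod_congr _ _ fun i => ?_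
    simp [glue, i.2]

/-- Expectation over independent samples indexed by `κ`. -/
noncomputable def Ex (μ : Λ → ℝ) (κ : Type) [Fintype κ] [DecidableEq κ] (g : (κ → Λ) → ℝ) : ℝ :=
  ∑ x : κ → Λ, wt μ x * g x

section
variable {μ : Λ → ℝ} {κ ι : Type} [Fintype κ] [DecidableEq κ] [Fintype ι] [DecidableEq ι]

lemma Ex_mono (h0 : ∀ a, 0 ≤ μ a) {g g' : (κ → Λ) → ℝ} (h : ∀ x, g x ≤ g' x) :
    Ex μ κ g ≤ Ex μ κ g' :=
  sum_le_sum fun x _ => mul_le_mul_of_nonneg_left (h x) (wt_nonneg h0 x)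

lemma Ex_const (h1 : ∑ a, μ a = 1) (c : ℝ) : Ex μ κ (fun _ => c) = c := by
  unfold Ex
  rw [← sum_mul, sum_wt h1, one_mul]

lemma Ex_nonneg (h0 : ∀ a, 0 ≤ μ a) {g : (κ → Λ) → ℝ} (h : ∀ x, 0 ≤ g x) : 0 ≤ Ex μ κ g :=
  sum_nonneg fun x _ => mul_nonneg (wt_nonneg h0 x) (h x)

lemma Ex_add (g g' : (κ → Λ) → ℝ) : Ex μ κ (fun x => g x + g' x) = Ex μ κ g + Ex μ κ g' := by
  unfold Ex
  rw [← sum_add_distrib]
  exact sum_congr rfl fun x _ => by ring

lemma Ex_mul_left (c : ℝ) (g : (κ → Λ) → ℝ) : Ex μ κ (fun x => c * g x) = c * Ex μ κ g := by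
  unfold Ex
  rw [mul_sum]
  exact sum_congr rfl fun x _ => by ring

lemma Ex_sum {β : Type} (t : Finset β) (F : β → (κ → Λ) → ℝ) :
    Ex μ κ (fun x => ∑ b ∈ t, F b x) = ∑ b ∈ t, Ex μ κ (F b) := by
  unfold Ex
  rw [sum_comm]
  exact sum_congr rfl fun x _ => by rw [mul_sum]

lemma marg_aux (h1 : ∑ a, μ a = 1) (p : ι → Prop) [DecidablePred p] (E : κ ≃ {i // p i})
    (g : (κ → Λ) → ℝ) :
    ∑ x : ι → Λ, wt μ x * g (fun j => x (E j).1) = ∑ y : κ → Λ, wt μ y * g y := by
  rw [sum_split p]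
  have h2 : ∀ (u : {i // p i} → Λ) (v : {i // ¬ p i} → Λ),
      wt μ (glue p u v) * g (fun j => glue p u v (E j).1) =
        wt μ v * (wt μ u * g (fun j => u (E j))) := by
    intro u v
    rw [wt_glue]
    have : (fun j => glue p u v (E j).1) = fun j => u (E j) := by
      funext j
      simp [glue, (E j).2]
    rw [this]
    ring_nf
  simp only [h2, ← sum_mul, sum_wt h1, one_mul]
  rw [← (E.arrowCongr (Equiv.refl Λ)).sum_comp]
  refine sum_congr rfl fun y _ => ?_
  congr 1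
  · unfold wt
    rw [← E.prod_comp]
    refine Fintype.prod_congr _ _ fun j => ?_
    simp
  · congr 1
    funext j
    simp

/-- A part of a sequence of independent samples is a sequence of independent samples. -/
lemma marg (h1 : ∑ a, μ a = 1) (e : κ ↪ ι) (g : (κ → Λ) → ℝ) :
    Ex μ ι (fun x => g (x ∘ e)) = Ex μ κ g := by
  classical
  let E : κ ≃ {i // ∃ j, e j = i} := Equiv.ofBijective (fun j => ⟨e j, j, rfl⟩)
    ⟨fun a b h => e.injective (congrArg Subtype.val h), fun ⟨i, j, hj⟩ => ⟨j, Subtype.ext hj⟩⟩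
  exact marg_aux h1 _ E g

/-- Fubini -/
lemma Ex_sum_type (g : (κ ⊕ ι → Λ) → ℝ) :
    Ex μ (κ ⊕ ι) g = Ex μ κ (fun u => Ex μ ι (fun v => g (Sum.elim u v))) := by
  unfold Ex
  rw [← (Equiv.sumArrowEquivProdArrow κ ι Λ).symm.sum_comp, Fintype.sum_prod_type]
  refine sum_congr rfl fun u _ => ?_
  rw [mul_sum]
  refine sum_congr rfl fun v _ => ?_
  have h : wt μ ((Equiv.sumArrowEquivProdArrow κ ι Λ).symm (u, v)) = wt μ u * wt μ v := by
    unfold wt
    rw [Fintype.prod_sum_type]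
    rfl
  rw [h, mul_assoc]
  rfl

/-- Independence of blocks. -/
lemma Ex_blocks {L : ℕ} (g : (κ → Λ) → ℝ) :
    Ex μ (Fin L × κ) (fun x => ∏ l, g (fun j => x (l, j))) = (Ex μ κ g) ^ L := by
  unfold Ex
  rw [← (Equiv.curry (Fin L) κ Λ).symm.sum_comp]
  have h : ∀ x : Fin L → κ → Λ, wt μ ((Equiv.curry (Fin L) κ Λ).symm x) *
      ∏ l, g (fun j => (Equiv.curry (Fin L) κ Λ).symm x (l, j)) = ∏ l, (wt μ (x l) * g (x l)) := by
    intro x
    rw [prod_mul_distrib]
    congr 1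
    unfold wt
    rw [Fintype.prod_prod_type]
    rfl
  simp only [h]
  have h2 := sum_prod_gen (Λ := κ → Λ) (Fin L) (fun _ y => wt μ y * g y)
  rw [prod_const, card_univ, Fintype.card_fin] at h2
  exact h2

/-- Variance of an empirical mean. -/
lemma variance (h0 : ∀ a, 0 ≤ μ a) (h1 : ∑ a, μ a = 1) {m : ℕ} (hm : 0 < m) (f : Λ → ℝ)
    (hf : ∀ a, 0 ≤ f a ∧ f a ≤ 1) :
    Ex μ (Fin m) (fun y => ((∑ j, f (y j)) / m - ∑ a, μ a * f a) ^ 2) ≤ 1 / m := by
  set s : ℝ := ∑ a, μ a * f a with hs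
  let φ : Λ → ℝ := fun a => f a - s
  have hs0 : 0 ≤ s := sum_nonneg fun a _ => mul_nonneg (h0 a) (hf a).1
  have hs1 : s ≤ 1 := by
    rw [hs, ← h1]
    exact sum_le_sum fun a _ => by
      have := mul_le_mul_of_nonneg_left (hf a).2 (h0 a)
      linarith
  have hφ : ∑ a, μ a * φ a = 0 := by
    simp only [φ, mul_sub, sum_sub_distrib, ← sum_mul, h1]
    rw [← hs]; ring
  have hφ1 : ∀ a, φ a ^ 2 ≤ 1 := by
    intro a
    have := hf a
    simp only [φ]
    rw [sq_le_one_iff_abs_le_one, abs_le]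
    constructor <;> linarith
  have hm0 : (0 : ℝ) < m := by exact_mod_cast hm
  have hpt : ∀ y : Fin m → Λ, ((∑ j, f (y j)) / m - s) ^ 2 =
      (1 / m ^ 2) * ∑ i, ∑ j, φ (y i) * φ (y j) := by
    intro y
    have h2 : (∑ j, f (y j)) / m - s = (∑ j, φ (y j)) / m := by
      simp only [φ, sum_sub_distrib, sum_const, card_univ, Fintype.card_fin, nsmul_eq_mul]
      field_simp
    rw [h2, div_pow, sq (∑ j, φ (y j)), sum_mul_sum]
    ring
  have h3 : ∀ i j : Fin m, Ex μ (Fin m) (fun y => φ (y i) * φ (y j)) ≤ if i = j then 1 else 0 := by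
    intro i j
    split_ifs with hij
    · subst hij
      calc Ex μ (Fin m) (fun y => φ (y i) * φ (y i)) ≤ Ex μ (Fin m) (fun _ => 1) :=
            Ex_mono h0 fun y => by have := hφ1 (y i); nlinarith
        _ = 1 := Ex_const h1 1
    · refine le_of_eq ?_
      unfold Ex wt
      have h4 : ∀ y : Fin m → Λ, (∏ l, μ (y l)) * (φ (y i) * φ (y j)) =
          ∏ l, (μ (y l) * ((if l = i then φ (y l) else 1) * (if l = j then φ (y l) else 1))) := by
        intro y
        rw [prod_mul_distrib, prod_mul_distrib]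
        congr 1
        rw [prod_ite_eq' univ i, prod_ite_eq' univ j]
        simp
      simp only [h4]
      rw [sum_prod_gen (Fin m) (fun l a => μ a * ((if l = i then φ a else 1) *
        (if l = j then φ a else 1)))]
      refine prod_eq_zero (mem_univ i) ?_
      simp only [if_true, if_neg hij, mul_one]
      exact hφ
  calc Ex μ (Fin m) (fun y => ((∑ j, f (y j)) / m - s) ^ 2)
      = (1 / m ^ 2) * ∑ i, ∑ j, Ex μ (Fin m) (fun y => φ (y i) * φ (y j)) := by
        simp only [hpt]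
        rw [Ex_mul_left, Ex_sum]
        congr 1
        exact sum_congr rfl fun i _ => Ex_sum _ _
    _ ≤ (1 / m ^ 2) * ∑ i : Fin m, ∑ j : Fin m, (if i = j then 1 else 0) := by
        refine mul_le_mul_of_nonneg_left ?_ (by positivity)
        exact sum_le_sum fun i _ => sum_le_sum fun j _ => h3 i j
    _ = 1 / m := by
        simp only [sum_ite_eq, mem_univ, if_true, sum_const, card_univ, Fintype.card_fin,
          nsmul_eq_mul, mul_one]
        field_simp

end

end Pool.Agent.R555.Iid
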