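import Mathlib

/-!
Counting injective walks (paths) of a relation on `Fin N` by packing the visited-set
generating function into one natural number (fields of `b` bits indexed by vertex sets).
-/

namespace Pool.Agent.R555.KB

section general

variable {N : ℕ} (r : Fin N → Fin N → Bool)

/-- All injective `r`-walks with `k + 1` vertices and head `w`. -/
def paths : ℕ → Fin N → List (List (Fin N))
  | 0, w => [[w]]
  | k + 1, w => ((List.finRange N).filter (fun v => r w v)).flatMap
      (fun v => ((paths k v).filter (fun l => decide (w ∉ l))).map (fun l => w :: l))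

theorem mem_paths (k : ℕ) : ∀ (w : Fin N) (l : List (Fin N)), l ∈ paths r k w ↔
    l.length = k + 1 ∧ l.Nodup ∧ l.IsChain (fun a b => r a b = true) ∧ l.head? = some w := by
  induction k with
  | zero =>
    intro w l
    simp only [paths, List.mem_singleton]
    constructor
    · rintro rfl
      simp
    · rintro ⟨h1, h2, h3, h4⟩
      match l, h1, h4 with
      | [a], _, h4 => simpa using h4
  | succ k ih =>
    intro w l
    simp only [paths, List.mem_flatMap, List.mem_filter, List.mem_map, List.mem_finRange,
      true_and, decide_eq_true_eq]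
    constructor
    · rintro ⟨v, hv, l', ⟨hl', hw⟩, rfl⟩
      rw [ih] at hl'
      obtain ⟨h1, h2, h3, h4⟩ := hl'
      refine ⟨by simp [h1], by simp [h2, hw], ?_, by simp⟩
      match l', h4 with
      | a :: t, h4 =>
        have : a = v := by simpa using h4
        subst this
        exact List.isChain_cons_cons.mpr ⟨hv, h3⟩
    · rintro ⟨h1, h2, h3, h4⟩
      match l, h1, h2, h3, h4 with
      | a :: v :: t, h1, h2, h3, h4 =>
        have : a = w := by simpa using h4
        subst this
        rw [List.isChain_cons_cons] at h3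
        refine ⟨v, h3.1, v :: t, ⟨?_, ?_⟩, rfl⟩
        · rw [ih]
          exact ⟨by simpa using h1, (List.nodup_cons.mp h2).2, h3.2, rfl⟩
        · exact (List.nodup_cons.mp h2).1

theorem nodup_paths (k : ℕ) : ∀ w : Fin N, (paths r k w).Nodup := by
  induction k with
  | zero => intro w; simp [paths]
  | succ k ih =>
    intro w
    simp only [paths]
    rw [List.nodup_flatMap]
    constructor
    · intro v _
      exact ((ih v).filter _).map (fun a b h => by simpa using h)
    · have : ((List.finRange N).filter (fun v => r w v)).Nodup :=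
        (List.nodup_finRange N).filter _
      refine this.imp_of_mem ?_
      intro a b _ _ hab
      simp only [Function.onFun]
      intro l h1 h2
      simp only [List.mem_map, List.mem_filter] at h1 h2
      obtain ⟨l1, ⟨h1, _⟩, rfl⟩ := h1
      obtain ⟨l2, ⟨h2, _⟩, h3⟩ := h2
      have : l1 = l2 := by simpa using h3.symm
      subst this
      rw [mem_paths] at h1 h2
      exact hab (by simpa using h1.2.2.2.symm.trans h2.2.2.2)

theorem length_paths_le (k : ℕ) : ∀ w : Fin N, (paths r k w).length ≤ N ^ k := by
  induction k with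
  | zero => intro w; simp [paths]
  | succ k ih =>
    intro w
    simp only [paths]
    rw [List.length_flatMap]
    calc _ ≤ (((List.finRange N).filter (fun v => r w v)).map (fun _ => N ^ k)).sum := by
          apply List.sum_le_sum
          intro v _
          rw [List.length_map]
          exact (List.length_filter_le _ _).trans (ih v)
      _ ≤ N * N ^ k := by
          rw [List.map_const', List.sum_replicate, smul_eq_mul]
          apply Nat.mul_le_mul_right
          exact (List.length_filter_le _ _).trans (by simp)
      _ = N ^ (k + 1) := by ring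

/-- The set of all injective walks with `k + 1` vertices has `∑ w` path counts elements. -/
theorem ncard_paths (k : ℕ) :
    {l : List (Fin N) | l.length = k + 1 ∧ l.Nodup ∧ l.IsChain (fun a b => r a b = true)}.ncard
      = ((List.finRange N).map (fun w => (paths r k w).length)).sum := by
  classical
  have hset : {l : List (Fin N) | l.length = k + 1 ∧ l.Nodup ∧
      l.IsChain (fun a b => r a b = true)}
      = (((List.finRange N).flatMap (paths r k)).toFinset : Set (List (Fin N))) := by
    ext l
    simp only [Set.mem_ofPred_eq, List.coe_toFinset, List.mem_flatMap, List.mem_finRange,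
      true_and, mem_paths]
    constructor
    · rintro ⟨h1, h2, h3⟩
      match l, h1, h2, h3 with
      | a :: t, h1, h2, h3 => exact ⟨a, h1, h2, h3, rfl⟩
    · rintro ⟨a, h1, h2, h3, _⟩
      exact ⟨h1, h2, h3⟩
  rw [hset, Set.ncard_coe_finset, List.toFinset_card_of_nodup, List.length_flatMap]
  rw [List.nodup_flatMap]
  refine ⟨fun w _ => nodup_paths r k w, ?_⟩
  refine (List.nodup_finRange N).imp_of_mem ?_
  intro a b _ _ hab
  simp only [Function.onFun]
  intro l h1 h2
  rw [mem_paths] at h1 h2
  exact hab (by simpa using h1.2.2.2.symm.trans h2.2.2.2)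

end general

section packing

variable {N : ℕ}

/-- The bit code of a list of vertices. -/
def code (l : List (Fin N)) : ℕ := (l.map (fun v => 2 ^ v.val)).sum

theorem code_cons (w : Fin N) (l : List (Fin N)) : code (w :: l) = 2 ^ w.val + code l := by
  simp [code]

theorem testBit_two_pow_add (x w : ℕ) (hx : x.testBit w = false) (j : ℕ) :
    (2 ^ w + x).testBit j = (x.testBit j || decide (j = w)) := by
  have h1 : x = 2 ^ (w + 1) * (x / 2 ^ (w + 1)) + x % 2 ^ (w + 1) := (Nat.div_add_mod _ _).symm
  have h2 : x % 2 ^ (w + 1) < 2 ^ w := by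
    have : (x % 2 ^ (w + 1)) < 2 ^ (w + 1) := Nat.mod_lt _ (by positivity)
    by_contra hc
    push Not at hc
    have h3 : (x % 2 ^ (w + 1)).testBit w = true := by
      have : x % 2 ^ (w + 1) = 2 ^ w + (x % 2 ^ (w + 1) - 2 ^ w) := by omega
      rw [this, Nat.testBit_two_pow_add_eq]
      have : x % 2 ^ (w + 1) - 2 ^ w < 2 ^ w := by
        have := Nat.pow_succ 2 w
        omega
      rw [Nat.testBit_lt_two_pow this]
      rfl
    rw [Nat.testBit_mod_two_pow] at h3
    simp [hx] at h3
  set q := x / 2 ^ (w + 1)
  set s := x % 2 ^ (w + 1)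
  have h4 : 2 ^ w + x = 2 ^ (w + 1) * q + (2 ^ w + s) := by omega
  have h5 : 2 ^ w + s < 2 ^ (w + 1) := by
    have := Nat.pow_succ 2 w
    omega
  rw [h4, Nat.testBit_two_pow_mul_add _ h5]
  conv_rhs => rw [h1, Nat.testBit_two_pow_mul_add _ (h2.trans (by
    have := Nat.pow_succ 2 w
    have := Nat.two_pow_pos w
    omega))]
  rcases lt_trichotomy j w with h | h | h
  · rw [if_pos (by omega), if_pos (by omega), Nat.testBit_two_pow_add_gt h]
    simp [h.ne]
  · subst h
    rw [if_pos (by omega), if_pos (by omega), Nat.testBit_two_pow_add_eq,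
      Nat.testBit_lt_two_pow h2]
    simp
  · rw [if_neg (by omega), if_neg (by omega)]
    simp [h.ne']

theorem testBit_code (l : List (Fin N)) (hl : l.Nodup) :
    ∀ w : ℕ, (code l).testBit w = decide (∃ v ∈ l, v.val = w) := by
  induction l with
  | nil => intro w; simp [code]
  | cons a l ih =>
    intro w
    rw [List.nodup_cons] at hl
    have ih' := ih hl.2
    have ha : (code l).testBit a.val = false := by
      rw [ih', decide_eq_false_iff_not]
      rintro ⟨v, hv, hva⟩
      exact hl.1 (by rwa [Fin.ext hva] at hv)
    rw [code_cons, testBit_two_pow_add _ _ ha, ih']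
    by_cases h1 : w = a.val
    · subst h1
      simp
    · have h2 : a.val ≠ w := fun h => h1 h.symm
      simp [h1, h2]

theorem testBit_code_fin (l : List (Fin N)) (hl : l.Nodup) (w : Fin N) :
    (code l).testBit w.val = decide (w ∈ l) := by
  rw [testBit_code l hl]
  congr 1
  apply propext
  constructor
  · rintro ⟨v, hv, h⟩
    rwa [Fin.ext h] at hv
  · intro h
    exact ⟨w, h, rfl⟩

theorem code_lt (l : List (Fin N)) (hl : l.Nodup) : code l < 2 ^ N := by
  apply Nat.lt_pow_two_of_testBit
  intro i hi
  rw [testBit_code l hl, decide_eq_false_iff_not]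
  rintro ⟨v, _, h⟩
  omega

/-- The packed weight of a list of paths, with fields of `b` bits. -/
def wt (b : ℕ) (L : List (List (Fin N))) : ℕ := (L.map (fun l => 2 ^ (b * code l))).sum

/-- Number of paths with a given code. -/
def cnt (L : List (List (Fin N))) (c : ℕ) : ℕ := L.countP (fun l => decide (code l = c))

theorem cnt_cons (l : List (Fin N)) (L : List (List (Fin N))) (c : ℕ) :
    cnt (l :: L) c = cnt L c + if code l = c then 1 else 0 := by
  simp [cnt, List.countP_cons]

theorem wt_eq_sum (b M : ℕ) (L : List (List (Fin N))) (hL : ∀ l ∈ L, code l < M) :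
    wt b L = ∑ c ∈ Finset.range M, cnt L c * 2 ^ (b * c) := by
  induction L with
  | nil => simp [wt, cnt]
  | cons l L ih =>
    have h1 : wt b (l :: L) = 2 ^ (b * code l) + wt b L := by simp [wt]
    rw [h1, ih (fun l' hl' => hL l' (List.mem_cons_of_mem _ hl'))]
    simp only [cnt_cons, add_mul, Finset.sum_add_distrib]
    rw [add_comm]
    congr 1
    have : ∀ c ∈ Finset.range M, (if code l = c then 1 else 0) * 2 ^ (b * c)
        = if code l = c then 2 ^ (b * code l) else 0 := by
      intro c _
      split_ifs with h
      · rw [h, one_mul]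
      · simp
    rw [Finset.sum_congr rfl this, Finset.sum_ite_eq, if_pos]
    simpa using hL l (by simp)

theorem sum_fields_lt (b M : ℕ) (f : ℕ → ℕ) (hf : ∀ c < M, f c < 2 ^ b) :
    ∑ c ∈ Finset.range M, f c * 2 ^ (b * c) < 2 ^ (b * M) := by
  induction M with
  | zero => simp
  | succ M ih =>
    rw [Finset.sum_range_succ]
    have h1 := ih (fun c hc => hf c (by omega))
    have h2 : f M + 1 ≤ 2 ^ b := hf M (by omega)
    have h3 : (f M + 1) * 2 ^ (b * M) ≤ 2 ^ b * 2 ^ (b * M) := Nat.mul_le_mul_right _ h2
    have h4 : 2 ^ (b * (M + 1)) = 2 ^ b * 2 ^ (b * M) := by rw [← pow_add]; ring_nf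
    rw [h4]
    nlinarith

theorem and_split (m x y x' y' : ℕ) (hx : x < 2 ^ m) (hx' : x' < 2 ^ m) :
    (x + y * 2 ^ m) &&& (x' + y' * 2 ^ m) = (x &&& x') + (y &&& y') * 2 ^ m := by
  have e1 : x + y * 2 ^ m = 2 ^ m * y + x := by ring
  have e2 : x' + y' * 2 ^ m = 2 ^ m * y' + x' := by ring
  have e3 : (x &&& x') + (y &&& y') * 2 ^ m = 2 ^ m * (y &&& y') + (x &&& x') := by ring
  have hxx : (x &&& x') < 2 ^ m := lt_of_le_of_lt Nat.and_le_left hx
  rw [e1, e2, e3]
  apply Nat.eq_of_testBit_eq
  intro j
  rw [Nat.testBit_and, Nat.testBit_two_pow_mul_add _ hx, Nat.testBit_two_pow_mul_add _ hx',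
    Nat.testBit_two_pow_mul_add _ hxx]
  split_ifs <;> simp [Nat.testBit_and]

theorem and_fields (b M : ℕ) (f g : ℕ → ℕ) (hf : ∀ c < M, f c < 2 ^ b)
    (hg : ∀ c < M, g c < 2 ^ b) :
    (∑ c ∈ Finset.range M, f c * 2 ^ (b * c)) &&& (∑ c ∈ Finset.range M, g c * 2 ^ (b * c))
      = ∑ c ∈ Finset.range M, (f c &&& g c) * 2 ^ (b * c) := by
  induction M with
  | zero => simp
  | succ M ih =>
    rw [Finset.sum_range_succ, Finset.sum_range_succ, Finset.sum_range_succ,
      and_split _ _ _ _ _ (sum_fields_lt b M f fun c hc => hf c (by omega))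
        (sum_fields_lt b M g fun c hc => hg c (by omega)),
      ih (fun c hc => hf c (by omega)) (fun c hc => hg c (by omega))]

/-- The mask of all fields whose index does not have bit `w`. -/
def maskOf (b : ℕ) (w : ℕ) : ℕ → ℕ
  | 0 => 2 ^ b - 1
  | i + 1 => if w = i then maskOf b w i else maskOf b w i + maskOf b w i <<< (b * 2 ^ i)

theorem maskOf_eq (b w : ℕ) (i : ℕ) : maskOf b w i =
    ∑ c ∈ Finset.range (2 ^ i), (if c.testBit w then 0 else 2 ^ b - 1) * 2 ^ (b * c) := by
  induction i with
  | zero => simp [maskOf]
  | succ i ih =>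
    have hsplit : 2 ^ (i + 1) = 2 ^ i + 2 ^ i := by ring
    rw [maskOf, hsplit, Finset.sum_range_add, ← ih]
    have hsum : ∑ x ∈ Finset.range (2 ^ i),
        (if (2 ^ i + x).testBit w then 0 else 2 ^ b - 1) * 2 ^ (b * (2 ^ i + x))
        = if w = i then 0 else maskOf b w i * 2 ^ (b * 2 ^ i) := by
      by_cases hw : w = i
      · subst hw
        rw [if_pos rfl]
        apply Finset.sum_eq_zero
        intro x hx
        rw [Nat.testBit_two_pow_add_eq, Nat.testBit_lt_two_pow (by simpa using hx)]
        simp
      · rw [if_neg hw, ih, Finset.sum_mul]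
        apply Finset.sum_congr rfl
        intro x hx
        have hx' : x < 2 ^ i := by simpa using hx
        rw [testBit_two_pow_add x i (Nat.testBit_lt_two_pow hx') w]
        simp only [hw, decide_false, Bool.or_false]
        rw [mul_add, pow_add]
        ring
    rw [hsum]
    split_ifs with h
    · simp
    · rw [Nat.shiftLeft_eq]

theorem wt_filter (b : ℕ) (w : Fin N) (L : List (List (Fin N))) (hL : ∀ l ∈ L, l.Nodup)
    (hb : L.length < 2 ^ b) :
    wt b (L.filter (fun l => decide (w ∉ l))) = wt b L &&& maskOf b w.val N := by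
  have h1 : ∀ l ∈ L, code l < 2 ^ N := fun l hl => code_lt l (hL l hl)
  have hc : ∀ c < 2 ^ N, cnt L c < 2 ^ b := fun c _ => lt_of_le_of_lt List.countP_le_length hb
  rw [wt_eq_sum b (2 ^ N) L h1, maskOf_eq, and_fields b (2 ^ N) (cnt L)
    (fun c => if c.testBit w.val then 0 else 2 ^ b - 1) hc (by
      intro c _
      have := Nat.two_pow_pos b
      split_ifs <;> omega),
    wt_eq_sum b (2 ^ N) _ (by
      intro l hl
      exact h1 l (List.mem_of_mem_filter hl))]
  apply Finset.sum_congr rfl
  intro c hcM
  have hcM' : c < 2 ^ N := by simpa using hcM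
  congr 1
  have h2 : cnt (L.filter (fun l => decide (w ∉ l))) c = if c.testBit w.val then 0 else cnt L c := by
    unfold cnt
    rw [List.countP_filter]
    split_ifs with h
    · rw [List.countP_eq_zero]
      intro l hl
      simp only [Bool.and_eq_true, decide_eq_true_eq, not_and, not_not]
      rintro rfl
      rw [testBit_code_fin l (hL l hl)] at h
      simpa using h
    · apply List.countP_congr
      intro l hl
      simp only [Bool.and_eq_true, decide_eq_true_eq, and_iff_left_iff_imp]
      rintro rfl
      rw [testBit_code_fin l (hL l hl)] at h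
      simpa using h
  rw [h2]
  split_ifs with h
  · simp
  · rw [Nat.and_two_pow_sub_one_eq_mod, Nat.mod_eq_of_lt (hc c hcM')]

theorem wt_map_cons (b : ℕ) (w : Fin N) (L : List (List (Fin N))) :
    wt b (L.map (fun l => w :: l)) = wt b L <<< (b * 2 ^ w.val) := by
  rw [Nat.shiftLeft_eq]
  induction L with
  | nil => simp [wt]
  | cons l L ih =>
    have h1 : wt b (List.map (fun l => w :: l) (l :: L))
      = 2 ^ (b * code (w :: l)) + wt b (List.map (fun l => w :: l) L) := by simp [wt]
    have h2 : wt b (l :: L) = 2 ^ (b * code l) + wt b L := by simp [wt]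
    rw [h1, h2, ih, code_cons, mul_add, pow_add]
    ring

theorem wt_flatMap {α : Type*} (b : ℕ) (l : List α) (f : α → List (List (Fin N))) :
    wt b (l.flatMap f) = (l.map (fun a => wt b (f a))).sum := by
  induction l with
  | nil => simp [wt]
  | cons a l ih =>
    rw [List.flatMap_cons, List.map_cons, List.sum_cons, ← ih]
    simp [wt]

theorem wt_mod (b : ℕ) (hb : 1 ≤ b) (L : List (List (Fin N))) (hL : L.length < 2 ^ b - 1) :
    wt b L % (2 ^ b - 1) = L.length := by
  have h : wt b L ≡ L.length [MOD (2 ^ b - 1)] := by
    clear hL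
    induction L with
    | nil => simp [wt]; rfl
    | cons l L ih =>
      have h2 : wt b (l :: L) = 2 ^ (b * code l) + wt b L := by simp [wt]
      rw [h2, List.length_cons, add_comm]
      refine Nat.ModEq.add ih ?_
      rw [pow_mul]
      have : 2 ^ b ≡ 1 [MOD (2 ^ b - 1)] := by
        have h3 : 1 ≤ 2 ^ b := Nat.one_le_two_pow
        exact ((Nat.modEq_iff_dvd' h3).mpr dvd_rfl).symm
      simpa using this.pow (code l)
  have := Nat.mod_eq_of_lt hL
  rw [← this]
  exact h

end packing

section compute

variable {N : ℕ}

/-- One step of the packed recursion. `nb` is the list of neighbour lists. -/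
def stepQ (b N : ℕ) (nb : List (List ℕ)) (masks : List ℕ) (q : List ℕ) : List ℕ :=
  (List.range N).map (fun w =>
    ((((nb.getD w []).map (fun v => q.getD v 0)).foldr (· + ·) 0) &&& masks.getD w 0)
      <<< (b * 2 ^ w))

/-- The total number of paths encoded by a packed list. -/
def tot (b : ℕ) (q : List ℕ) : ℕ := (q.map (fun x => x % (2 ^ b - 1))).foldr (· + ·) 0

/-- Totals at all steps. -/
def totals (b N : ℕ) (nb : List (List ℕ)) (masks : List ℕ) : ℕ → List ℕ → List ℕ
  | 0, q => [tot b q]
  | k + 1, q => tot b q :: totals b N nb masks k (stepQ b N nb masks q)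

/-- Neighbour lists of a relation on `ℕ`. -/
def nbList (N : ℕ) (r : ℕ → ℕ → Bool) : List (List ℕ) :=
  (List.range N).map (fun w => (List.range N).filter (fun v => r w v))

/-- All masks. -/
def maskList (b N : ℕ) : List ℕ := (List.range N).map (fun w => maskOf b w N)

/-- The initial packed list. -/
def initQ (b N : ℕ) : List ℕ := (List.range N).map (fun w => 1 <<< (b * 2 ^ w))

theorem stepQ_spec (b : ℕ) (r : ℕ → ℕ → Bool) (q : List ℕ) (k : ℕ)
    (hk : N ^ (k + 1) < 2 ^ b)
    (hq : q = (List.finRange N).map
      (fun w => wt b (paths (fun a b : Fin N => r a.val b.val) k w))) :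
    stepQ b N (nbList N r) (maskList b N) q = (List.finRange N).map
      (fun w => wt b (paths (fun a b : Fin N => r a.val b.val) (k + 1) w)) := by
  set R : Fin N → Fin N → Bool := fun a b : Fin N => r a.val b.val with hR
  have hrange : List.range N = (List.finRange N).map (fun v => v.val) := by
    simp
  unfold stepQ
  conv_lhs => rw [hrange, List.map_map]
  apply List.map_congr_left
  intro w _
  simp only [Function.comp]
  have e1 : (nbList N r).getD w.val [] =
      ((List.finRange N).filter (fun v => R w v)).map (fun v => v.val) := by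
    unfold nbList
    rw [List.getD_eq_getElem?_getD, List.getElem?_map, List.getElem?_range w.isLt]
    simp only [Option.map_some, Option.getD_some]
    rw [hrange, List.filter_map]
    rfl
  have e2 : (maskList b N).getD w.val 0 = maskOf b w.val N := by
    unfold maskList
    rw [List.getD_eq_getElem?_getD, List.getElem?_map, List.getElem?_range w.isLt]
    simp
  have e3 : ∀ v : Fin N, q.getD v.val 0 = wt b (paths R k v) := by
    intro v
    rw [hq, List.getD_eq_getElem?_getD, List.getElem?_map]
    simp [List.getElem?_eq_getElem]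
  rw [e1, e2, List.map_map]
  have e4 : List.map ((fun v => q.getD v 0) ∘ fun v : Fin N => v.val)
      ((List.finRange N).filter (fun v => R w v))
      = List.map (fun v => wt b (paths R k v)) ((List.finRange N).filter (fun v => R w v)) := by
    apply List.map_congr_left
    intro v _
    exact e3 v
  rw [e4]
  change (List.sum _ &&& _) <<< _ = _
  rw [← wt_flatMap, ← wt_filter, ← wt_map_cons]
  · congr 1
    simp only [paths]
    rw [List.filter_flatMap, List.map_flatMap]
  · intro l hl
    rw [List.mem_flatMap] at hl
    obtain ⟨v, _, hl⟩ := hl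
    rw [mem_paths] at hl
    exact hl.2.1
  · refine lt_of_le_of_lt ?_ hk
    rw [List.length_flatMap]
    calc _ ≤ (((List.finRange N).filter (fun v => R w v)).map (fun _ => N ^ k)).sum := by
          apply List.sum_le_sum
          intro v _
          exact length_paths_le R k v
      _ ≤ N * N ^ k := by
          rw [List.map_const', List.sum_replicate, smul_eq_mul]
          apply Nat.mul_le_mul_right
          exact (List.length_filter_le _ _).trans (by simp)
      _ = N ^ (k + 1) := by ring

theorem tot_spec (b : ℕ) (hb : 1 ≤ b) (r : ℕ → ℕ → Bool) (k : ℕ)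
    (hk : N ^ k < 2 ^ b - 1) :
    tot b ((List.finRange N).map
      (fun w => wt b (paths (fun a b : Fin N => r a.val b.val) k w))) =
    {l : List (Fin N) | l.length = k + 1 ∧ l.Nodup ∧
      l.IsChain (fun a b => r a.val b.val = true)}.ncard := by
  rw [ncard_paths (fun a b : Fin N => r a.val b.val) k]
  unfold tot
  rw [List.map_map]
  change List.sum _ = _
  congr 1
  apply List.map_congr_left
  intro w _
  simp only [Function.comp]
  exact wt_mod b hb _ (lt_of_le_of_lt (length_paths_le _ k w) hk)

theorem totals_spec (b : ℕ) (hb : 1 ≤ b) (r : ℕ → ℕ → Bool) (j : ℕ) :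
    ∀ (k : ℕ) (_ : N ^ (k + j) < 2 ^ b - 1) (_ : 1 ≤ N),
    totals b N (nbList N r) (maskList b N) j ((List.finRange N).map
      (fun w => wt b (paths (fun a b : Fin N => r a.val b.val) k w))) =
    (List.range (j + 1)).map (fun i => {l : List (Fin N) | l.length = (k + i) + 1 ∧ l.Nodup ∧
      l.IsChain (fun a b => r a.val b.val = true)}.ncard) := by
  induction j with
  | zero =>
    intro k hk _
    simp only [totals]
    rw [tot_spec b hb r k (by simpa using hk)]
    simp
  | succ j ih =>
    intro k hk hN
    simp only [totals]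
    have h1 : N ^ (k + 1) ≤ N ^ (k + (j + 1)) := Nat.pow_le_pow_right hN (by omega)
    have h2 : N ^ k ≤ N ^ (k + (j + 1)) := Nat.pow_le_pow_right hN (by omega)
    rw [tot_spec b hb r k (by omega), stepQ_spec b r _ k (by omega) rfl,
      ih (k + 1) (by rw [show k + 1 + j = k + (j + 1) by ring]; exact hk) hN]
    rw [List.range_succ_eq_map (n := j + 1), List.map_cons, List.map_map]
    congr 1
    apply List.map_congr_left
    intro i _
    simp only [Function.comp]
    congr 2
    ext l
    constructor <;> (rintro ⟨h1, h2⟩; exact ⟨by omega, h2⟩)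

/-- Evaluating `totals` from the initial list gives the numbers of injective walks with
`1, 2, …, j + 1` vertices. -/
theorem totals_init (b : ℕ) (hb : 1 ≤ b) (r : ℕ → ℕ → Bool) (j : ℕ)
    (hk : N ^ j < 2 ^ b - 1) (hN : 1 ≤ N) :
    totals b N (nbList N r) (maskList b N) j (initQ b N) =
    (List.range (j + 1)).map (fun i => {l : List (Fin N) | l.length = i + 1 ∧ l.Nodup ∧
      l.IsChain (fun a b => r a.val b.val = true)}.ncard) := by
  have h := totals_spec (N := N) b hb r j 0 (by simpa using hk) hN
  have h0 : initQ b N = (List.finRange N).map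
      (fun w => wt b (paths (fun a b : Fin N => r a.val b.val) 0 w)) := by
    unfold initQ
    have hrange : List.range N = (List.finRange N).map (fun v => v.val) := by
      simp
    rw [hrange, List.map_map]
    apply List.map_congr_left
    intro w _
    simp [paths, wt, code, Nat.shiftLeft_eq]
  rw [h0, h]
  simp

end compute

end Pool.Agent.R555.KB
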