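import Mathlib

/-!
Stretched configurations: the geometric part.
-/

set_option autoImplicit false
set_option linter.unusedSectionVars false
set_option linter.unusedVariables false

namespace Pool.Agent.R555.ST

open Finset

/-- a point of the plane -/
abbrev Pt : Type := ℝ × ℝ

/-- the determinant whose sign is the orientation -/
def det (a b c : Pt) : ℝ := (b.1 - a.1) * (c.2 - a.2) - (b.2 - a.2) * (c.1 - a.1)

lemma det_rot (a b c : Pt) : det a b c = det b c a := by unfold det; ring

lemma det_swap (a b c : Pt) : det a b c = - det b a c := by unfold det; ring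

lemma det_swap' (a b c : Pt) : det a b c = - det a c b := by unfold det; ring

lemma det_self (a b : Pt) : det a a b = 0 := by unfold det; ring

lemma det_self' (a b : Pt) : det a b b = 0 := by unfold det; ring

lemma det_self'' (a b : Pt) : det a b a = 0 := by unfold det; ring

/-- The three term Grassmann-Plücker relation. -/
lemma gp (l r q z z' : Pt) :
    det l r z' * det l z q - det l r z * det l z' q = det l r q * det l z z' := by
  unfold det; ring

/-- the points of `T` are linearly ordered around `q` -/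
def Lin (q : Pt) (T : Finset Pt) : Prop :=
  ∀ a ∈ T, ∀ b ∈ T, a ≠ b → det a b q ≠ 0 ∧
    ∀ c ∈ T, 0 < det a b q → 0 < det b c q → 0 < det a c q

/-- `z` is on the same side as `q` of all the lines through two other points of `B` -/
def Avail (q : Pt) (B : Finset Pt) (z : Pt) : Prop :=
  ∀ a ∈ B, ∀ b ∈ B, a ≠ b → a ≠ z → b ≠ z → 0 < det a b z * det a b q

/-- `T` can be stretched with `q` as the top point -/
def G (q : Pt) (T : Finset Pt) : Prop :=
  Lin q T ∧ ∀ B ⊆ T, B.Nonempty → ∃ z ∈ B, Avail q B z

lemma Lin.mono {q : Pt} {T T' : Finset Pt} (h : Lin q T) (hT : T' ⊆ T) : Lin q T' :=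
  fun a ha b hb hab => ⟨(h a (hT ha) b (hT hb) hab).1,
    fun c hc => (h a (hT ha) b (hT hb) hab).2 c (hT hc)⟩

lemma G.mono {q : Pt} {T T' : Finset Pt} (h : G q T) (hT : T' ⊆ T) : G q T' :=
  ⟨h.1.mono hT, fun B hB => h.2 B (hB.trans hT)⟩

lemma G_empty (q : Pt) : G q ∅ := by
  refine ⟨fun a ha => absurd ha (notMem_empty a), fun B hB hne => ?_⟩
  rw [subset_empty.1 hB] at hne
  exact absurd hne (by simp)

/-- an order function -/
lemma Lin.exists_fun {q : Pt} {T : Finset Pt} (h : Lin q T) :
    ∃ x : Pt → ℝ, (∀ a, 0 ≤ x a) ∧ ∀ a ∈ T, ∀ b ∈ T, a ≠ b → 0 < det a b q * (x b - x a) := by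
  classical
  refine ⟨fun a => (#{c ∈ T | 0 < det c a q} : ℝ), fun a => by positivity, ?_⟩
  have key : ∀ a ∈ T, ∀ b ∈ T, a ≠ b → 0 < det a b q →
      #{c ∈ T | 0 < det c a q} < #{c ∈ T | 0 < det c b q} := by
    intro a ha b hb hab h0
    refine card_lt_card ?_
    rw [Finset.ssubset_iff_of_subset]
    · refine ⟨a, by rw [mem_filter]; exact ⟨ha, h0⟩, ?_⟩
      rw [mem_filter]
      rintro ⟨-, h1⟩
      rw [det_self] at h1
      exact lt_irrefl _ h1
    · intro c hc
      rw [mem_filter] at hc ⊢
      refine ⟨hc.1, ?_⟩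
      have hca : c ≠ a := by
        rintro rfl
        rw [det_self] at hc
        exact lt_irrefl _ hc.2
      exact (h c hc.1 a ha hca).2 b hb hc.2 h0
  intro a ha b hb hab
  rcases lt_or_gt_of_ne (h a ha b hb hab).1 with h1 | h1
  · have h2 : 0 < det b a q := by rw [det_swap]; linarith
    have h3 := key b hb a ha hab.symm h2
    have h4 : (#{c ∈ T | 0 < det c b q} : ℝ) < #{c ∈ T | 0 < det c a q} := by exact_mod_cast h3
    exact mul_pos_of_neg_of_neg h1 (by linarith)
  · have h3 := key a ha b hb hab h1
    have h4 : (#{c ∈ T | 0 < det c a q} : ℝ) < #{c ∈ T | 0 < det c b q} := by exact_mod_cast h3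
    exact mul_pos h1 (by linarith)

/-- Three distinct points of a good set are not collinear. -/
lemma G.det_ne {q : Pt} {T : Finset Pt} (h : G q T) {a b c : Pt} (ha : a ∈ T) (hb : b ∈ T)
    (hc : c ∈ T) (hab : a ≠ b) (hac : a ≠ c) (hbc : b ≠ c) : det a b c ≠ 0 := by
  classical
  obtain ⟨z, hz, hav⟩ := h.2 {a, b, c} (by
    intro x hx
    simp only [mem_insert, mem_singleton] at hx
    rcases hx with rfl | rfl | rfl <;> assumption) ⟨a, by simp⟩
  simp only [mem_insert, mem_singleton] at hz
  intro h0
  rcases hz with rfl | rfl | rfl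
  · have h1 := hav b (by simp) c (by simp) hbc hab.symm hac.symm
    rw [← det_rot, h0, zero_mul] at h1
    exact lt_irrefl _ h1
  · have h1 := hav c (by simp) a (by simp) hac.symm hbc.symm hab
    rw [det_rot, h0, zero_mul] at h1
    exact lt_irrefl _ h1
  · have h1 := hav a (by simp) b (by simp) hab hac hbc
    rw [h0, zero_mul] at h1
    exact lt_irrefl _ h1

/-- The Helly type theorem: the obstacles for a fixed top point have at most six further points. -/
theorem helly {q : Pt} {T : Finset Pt} (h : ∀ B ⊆ T, #B ≤ 6 → G q B) : G q T := by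
  classical
  have hlin : Lin q T := by
    intro a ha b hb hab
    have h1 := h {a, b} (by
      intro x hx
      simp only [mem_insert, mem_singleton] at hx
      rcases hx with rfl | rfl <;> assumption) (card_le_two.trans (by norm_num))
    refine ⟨(h1.1 a (by simp) b (by simp) hab).1, fun c hc => ?_⟩
    have h2 := h {a, b, c} (by
      intro x hx
      simp only [mem_insert, mem_singleton] at hx
      rcases hx with rfl | rfl | rfl <;> assumption) (card_le_three.trans (by norm_num))
    exact (h2.1 a (by simp) b (by simp) hab).2 c (by simp)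
  refine ⟨hlin, fun B hB hne => ?_⟩
  by_contra hno
  push Not at hno
  obtain ⟨x, -, hx⟩ := (hlin.mono hB).exists_fun
  obtain ⟨l, hl, hlmin⟩ := exists_min_image B x hne
  have hlq : ∀ z ∈ B, z ≠ l → 0 < det l z q := by
    intro z hz hzl
    have h1 := hx l hl z hz (Ne.symm hzl)
    have h2 := hlmin z hz
    by_contra h3
    push Not at h3
    have h4 : det l z q * (x z - x l) ≤ 0 := mul_nonpos_of_nonpos_of_nonneg h3 (by linarith)
    linarith
  -- there is another point
  have hne2 : (B.erase l).Nonempty := by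
    by_contra hcon
    rw [not_nonempty_iff_eq_empty] at hcon
    refine hno l hl ?_
    intro a ha b hb hab hal _
    have : a ∈ B.erase l := mem_erase.2 ⟨hal, ha⟩
    rw [hcon] at this
    exact absurd this (notMem_empty a)
  obtain ⟨r, hr⟩ := id hne2
  have hrB := (mem_erase.1 hr).2
  have hrl := (mem_erase.1 hr).1
  obtain ⟨u, hu, humax⟩ := exists_max_image (B.erase l) (fun z => det l r z / det l z q) hne2
  have huB := (mem_erase.1 hu).2
  have hul := (mem_erase.1 hu).1
  have hbelow : ∀ z ∈ B, z ≠ l → z ≠ u → det l u z < 0 := by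
    intro z hz hzl hzu
    have h1 := humax z (mem_erase.2 ⟨hzl, hz⟩)
    have h2 := hlq z hz hzl
    have h3 := hlq u huB hul
    rw [div_le_div_iff₀ h2 h3] at h1
    have h4 := gp l r q z u
    have h5 := hlq r hrB hrl
    have h6 : 0 ≤ det l z u := by
      by_contra hcon
      push Not at hcon
      have := mul_neg_of_pos_of_neg h5 hcon
      linarith
    have hG : G q {l, z, u} := h _ (by
      intro y hy
      simp only [mem_insert, mem_singleton] at hy
      rcases hy with rfl | rfl | rfl
      · exact hB hl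
      · exact hB hz
      · exact hB huB) (card_le_three.trans (by norm_num))
    have h7 := hG.det_ne (a := l) (b := z) (c := u) (by simp) (by simp) (by simp) (Ne.symm hzl)
      (Ne.symm hul) hzu
    have h8 : 0 < det l z u := lt_of_le_of_ne h6 (Ne.symm h7)
    rw [det_swap']
    linarith
  have h1 := hno l hl
  have h2 := hno u huB
  unfold Avail at h1 h2
  push Not at h1 h2
  obtain ⟨a, ha, b, hb, hab, hal, hbl, hlab⟩ := h1
  obtain ⟨e, he, f, hf, hef, heu, hfu, huef⟩ := h2
  have hG : G q {l, u, a, b, e, f} := h _ (by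
    intro y hy
    simp only [mem_insert, mem_singleton] at hy
    rcases hy with rfl | rfl | rfl | rfl | rfl | rfl
    · exact hB hl
    · exact hB huB
    · exact hB ha
    · exact hB hb
    · exact hB he
    · exact hB hf) card_le_six
  obtain ⟨z, hz, hav⟩ := hG.2 _ Subset.rfl ⟨l, by simp⟩
  by_cases hzl : z = l
  · subst hzl
    exact absurd (hav a (by simp) b (by simp) hab hal hbl) (not_lt.2 hlab)
  by_cases hzu : z = u
  · subst hzu
    exact absurd (hav e (by simp) f (by simp) hef heu hfu) (not_lt.2 huef)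
  have hzB : z ∈ B := by
    simp only [mem_insert, mem_singleton] at hz
    rcases hz with rfl | rfl | rfl | rfl | rfl | rfl
    · exact hl
    · exact huB
    · exact ha
    · exact hb
    · exact he
    · exact hf
  have h3 := hav l (by simp) u (by simp) (Ne.symm hul) (Ne.symm hzl) (Ne.symm hzu)
  have h4 := hbelow z hzB hzl hzu
  have h5 := hlq u huB hul
  have := mul_neg_of_neg_of_pos h4 h5
  linarith

/-- `p` lies above the line through `a` and `b` -/
def Above (p a b : Pt) : Prop := a.2 + (b.2 - a.2) / (b.1 - a.1) * (p.1 - a.1) < p.2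

lemma above_iff {p a b : Pt} (h : a.1 ≠ b.1) : Above p a b ↔ 0 < det a b p * (b.1 - a.1) := by
  have h1 : b.1 - a.1 ≠ 0 := sub_ne_zero.2 (Ne.symm h)
  have h2 : 0 < (b.1 - a.1) ^ 2 := by positivity
  have h3 : det a b p * (b.1 - a.1) =
      (b.1 - a.1) ^ 2 * (p.2 - (a.2 + (b.2 - a.2) / (b.1 - a.1) * (p.1 - a.1))) := by
    unfold det
    field_simp
    ring
  rw [h3]
  unfold Above
  constructor
  · intro h4
    exact mul_pos h2 (by linarith)
  · intro h4
    have := pos_of_mul_pos_right h4 h2.le
    linarith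

/-- heights for a stretched copy -/
def Heights (x Y : Pt → ℝ) (T : Finset Pt) : Prop :=
  (∀ a ∈ T, ∀ b ∈ T, a ≠ b → Y a ≠ Y b) ∧
    ∀ p ∈ T, ∀ a ∈ T, ∀ b ∈ T, a ≠ b → Y a < Y p → Y b < Y p →
      0 < det a b p * (x b - x a) ∧ Above (x p, Y p) (x a, Y a) (x b, Y b)

lemma Heights.insert {x Y : Pt → ℝ} {T : Finset Pt} (h : Heights x Y T) {w : Pt} (hw : w ∉ T)
    (hwT : ∀ a ∈ T, ∀ b ∈ T, a ≠ b → 0 < det a b w * (x b - x a)) :
    ∃ Y', Heights x Y' (insert w T) := by
  classical
  let val : Pt → Pt → ℝ := fun a b => Y a + (Y b - Y a) / (x b - x a) * (x w - x a)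
  set M : ℝ := ∑ a ∈ T, |Y a| + ∑ a ∈ T, ∑ b ∈ T, |val a b| + 1 with hM
  have hM1 : ∀ a ∈ T, Y a < M := by
    intro a ha
    have h1 : |Y a| ≤ ∑ a ∈ T, |Y a| :=
      single_le_sum (f := fun a => |Y a|) (fun a _ => abs_nonneg _) ha
    have h2 : 0 ≤ ∑ a ∈ T, ∑ b ∈ T, |val a b| :=
      sum_nonneg fun a _ => sum_nonneg fun b _ => abs_nonneg _
    have h3 := le_abs_self (Y a)
    linarith
  have hM2 : ∀ a ∈ T, ∀ b ∈ T, val a b < M := by
    intro a ha b hb
    have h1 : 0 ≤ ∑ a ∈ T, |Y a| := sum_nonneg fun a _ => abs_nonneg _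
    have h2 : |val a b| ≤ ∑ b ∈ T, |val a b| :=
      single_le_sum (f := fun b => |val a b|) (fun b _ => abs_nonneg _) hb
    have h3 : ∑ b ∈ T, |val a b| ≤ ∑ a ∈ T, ∑ b ∈ T, |val a b| :=
      single_le_sum (f := fun a => ∑ b ∈ T, |val a b|)
        (fun a _ => sum_nonneg fun b _ => abs_nonneg _) ha
    have h4 := le_abs_self (val a b)
    linarith
  have hYw : Function.update Y w M w = M := Function.update_self _ _ _
  have hYa : ∀ a ∈ T, Function.update Y w M a = Y a := by
    intro a ha
    refine Function.update_of_ne ?_ _ _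
    rintro rfl
    exact hw ha
  refine ⟨Function.update Y w M, ?_, ?_⟩
  · intro a ha b hb hab
    rw [mem_insert] at ha hb
    rcases ha with rfl | ha <;> rcases hb with rfl | hb
    · exact absurd rfl hab
    · rw [hYw, hYa b hb]
      exact (hM1 b hb).ne'
    · rw [hYw, hYa a ha]
      exact (hM1 a ha).ne
    · rw [hYa a ha, hYa b hb]
      exact h.1 a ha b hb hab
  · intro p hp a ha b hb hab hap hbp
    rw [mem_insert] at hp ha hb
    rcases hp with rfl | hp
    · -- the new point
      have ha' : a ∈ T := by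
        rcases ha with rfl | ha
        · exact absurd hap (lt_irrefl _)
        · exact ha
      have hb' : b ∈ T := by
        rcases hb with rfl | hb
        · exact absurd hbp (lt_irrefl _)
        · exact hb
      refine ⟨hwT a ha' b hb' hab, ?_⟩
      rw [hYw, hYa a ha', hYa b hb']
      exact hM2 a ha' b hb'
    · rw [hYa p hp] at hap hbp ⊢
      have ha' : a ∈ T := by
        rcases ha with rfl | ha
        · rw [hYw] at hap
          exact absurd hap (not_lt.2 (hM1 p hp).le)
        · exact ha
      have hb' : b ∈ T := by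
        rcases hb with rfl | hb
        · rw [hYw] at hbp
          exact absurd hbp (not_lt.2 (hM1 p hp).le)
        · exact hb
      rw [hYa a ha'] at hap ⊢
      rw [hYa b hb'] at hbp ⊢
      exact h.2 p hp a ha' b hb' hab hap hbp

lemma G.heights {q : Pt} {x : Pt → ℝ} : ∀ (n : ℕ) (T : Finset Pt), #T = n → G q T →
    (∀ a ∈ T, ∀ b ∈ T, a ≠ b → 0 < det a b q * (x b - x a)) → ∃ Y, Heights x Y T := by
  classical
  intro n
  induction n with
  | zero =>
    intro T hT _ _
    rw [card_eq_zero] at hT
    subst hT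
    exact ⟨fun _ => 0, fun a ha => absurd ha (notMem_empty a),
      fun p hp => absurd hp (notMem_empty p)⟩
  | succ n ih =>
    intro T hT hG hx
    obtain ⟨z, hz, hav⟩ := hG.2 T Subset.rfl (card_pos.1 (by omega))
    obtain ⟨Y, hY⟩ := ih (T.erase z) (by rw [card_erase_of_mem hz, hT]; rfl)
      (hG.mono (erase_subset _ _))
      (fun a ha b hb => hx a (mem_erase.1 ha).2 b (mem_erase.1 hb).2)
    have h1 := hY.insert (w := z) (notMem_erase z T) (by
      intro a ha b hb hab
      rw [mem_erase] at ha hb
      have h2 := hav a ha.2 b hb.2 hab ha.1 hb.1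
      have h3 := hx a ha.2 b hb.2 hab
      have h4 : 0 < det a b q ^ 2 := by
        have : det a b q ≠ 0 := fun h => by rw [h, zero_mul] at h3; exact lt_irrefl _ h3
        positivity
      have h5 : det a b q ^ 2 * (det a b z * (x b - x a)) =
          (det a b z * det a b q) * (det a b q * (x b - x a)) := by ring
      exact pos_of_mul_pos_right (h5 ▸ mul_pos h2 h3) h4.le)
    rwa [insert_erase hz] at h1

end Pool.Agent.R555.ST
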