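import Mathlib

/-!
Random subsets of fixed size and random subsets with independent elements.
-/

set_option autoImplicit false
set_option linter.unusedSectionVars false
set_option linter.unusedVariables false

namespace Pool.Agent.R555.ST

open Finset

variable {α : Type} [DecidableEq α]

/-- the weight of the subset `A` of `S` -/
noncomputable def bw (ρ : ℝ) (S A : Finset α) : ℝ := ρ ^ #A * (1 - ρ) ^ (#S - #A)

lemma sum_bw (ρ : ℝ) (S : Finset α) : ∑ A ∈ S.powerset, bw ρ S A = 1 := by
  unfold bw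
  rw [sum_pow_mul_eq_add_pow]
  simp

/-- the probability of containing `V` -/
lemma sum_bw_sup (ρ : ℝ) {S V : Finset α} (hV : V ⊆ S) :
    ∑ A ∈ S.powerset, (if V ⊆ A then bw ρ S A else 0) = ρ ^ #V := by
  rw [← sum_filter]
  have h : ∑ A ∈ S.powerset with V ⊆ A, bw ρ S A =
      ∑ A ∈ (S \ V).powerset, ρ ^ #V * bw ρ (S \ V) A := by
    symm
    refine sum_bij (fun A _ => A ∪ V) ?_ ?_ ?_ ?_
    · intro A hA
      rw [mem_powerset] at hA
      rw [mem_filter, mem_powerset]
      exact ⟨union_subset (hA.trans sdiff_subset) hV, subset_union_right⟩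
    · intro A hA B hB h
      rw [mem_powerset] at hA hB
      have h1 : Disjoint A V := disjoint_of_subset_left hA sdiff_disjoint
      have h2 : Disjoint B V := disjoint_of_subset_left hB sdiff_disjoint
      have h3 : (A ∪ V) \ V = (B ∪ V) \ V := by rw [h]
      rw [union_sdiff_right, union_sdiff_right, sdiff_eq_self_of_disjoint h1,
        sdiff_eq_self_of_disjoint h2] at h3
      exact h3
    · intro A hA
      rw [mem_filter, mem_powerset] at hA
      refine ⟨A \ V, ?_, sdiff_union_of_subset hA.2⟩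
      rw [mem_powerset]
      exact sdiff_subset_sdiff hA.1 Subset.rfl
    · intro A hA
      rw [mem_powerset] at hA
      have h1 : Disjoint A V := disjoint_of_subset_left hA sdiff_disjoint
      unfold bw
      rw [card_union_of_disjoint h1, card_sdiff_of_subset hV, pow_add]
      have h2 : #S - (#A + #V) = #S - #V - #A := by omega
      rw [h2]
      ring
  rw [h, ← mul_sum, sum_bw, mul_one]

/-- the probability of not containing any one of disjoint sets -/
lemma sum_bw_avoid (ρ : ℝ) {S : Finset α} {F : Finset (Finset α)} (hF : ∀ B ∈ F, B ⊆ S)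
    (hdis : (F : Set (Finset α)).PairwiseDisjoint id) :
    ∑ A ∈ S.powerset, (if ∀ B ∈ F, ¬ B ⊆ A then bw ρ S A else 0) = ∏ B ∈ F, (1 - ρ ^ #B) := by
  have h1 : ∀ A, (if ∀ B ∈ F, ¬ B ⊆ A then bw ρ S A else 0) =
      ∑ 𝒢 ∈ F.powerset, (-1) ^ #𝒢 * (if 𝒢.biUnion id ⊆ A then bw ρ S A else 0) := by
    intro A
    have h2 : ∏ B ∈ F, ((1 : ℝ) + (-1) * (if B ⊆ A then 1 else 0)) =
        if ∀ B ∈ F, ¬ B ⊆ A then 1 else 0 := by
      split_ifs with h
      · refine prod_eq_one fun B hB => ?_
        rw [if_neg (h B hB)]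
        ring
      · push Not at h
        obtain ⟨B, hB, hBA⟩ := h
        refine prod_eq_zero hB ?_
        rw [if_pos hBA]
        ring
    have h3 : (if ∀ B ∈ F, ¬ B ⊆ A then bw ρ S A else 0) =
        bw ρ S A * ∏ B ∈ F, ((1 : ℝ) + (-1) * (if B ⊆ A then 1 else 0)) := by
      rw [h2]
      split_ifs <;> simp
    rw [h3, prod_one_add, mul_sum]
    refine sum_congr rfl fun 𝒢 _ => ?_
    rw [prod_mul_distrib, prod_const]
    have h4 : ∏ B ∈ 𝒢, (if B ⊆ A then (1 : ℝ) else 0) = if 𝒢.biUnion id ⊆ A then 1 else 0 := by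
      by_cases h : 𝒢.biUnion id ⊆ A
      · rw [if_pos h]
        exact prod_eq_one fun B hB => if_pos ((subset_biUnion_of_mem id hB).trans h)
      · rw [if_neg h]
        rw [biUnion_subset] at h
        push Not at h
        obtain ⟨B, hB, hBA⟩ := h
        exact prod_eq_zero hB (if_neg hBA)
    rw [h4]
    split_ifs <;> ring
  simp only [h1]
  rw [sum_comm]
  have h5 : ∀ 𝒢 ∈ F.powerset, ∑ A ∈ S.powerset,
      (-1 : ℝ) ^ #𝒢 * (if 𝒢.biUnion id ⊆ A then bw ρ S A else 0) = ∏ B ∈ 𝒢, (- ρ ^ #B) := by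
    intro 𝒢 h𝒢
    rw [mem_powerset] at h𝒢
    have h7 := sum_bw_sup ρ (S := S) (V := 𝒢.biUnion id)
      (biUnion_subset.2 fun B hB => hF B (h𝒢 hB))
    rw [← mul_sum, h7]
    rw [card_biUnion fun B hB B' hB' hne => hdis (h𝒢 hB) (h𝒢 hB') hne]
    simp only [id]
    have h6 : ∀ B ∈ 𝒢, - ρ ^ #B = (-1) * ρ ^ #B := fun B _ => by ring
    rw [prod_congr rfl h6, prod_mul_distrib, prod_const, prod_pow_eq_pow_sum]
  rw [sum_congr rfl h5, ← prod_one_add]
  exact prod_congr rfl fun B _ => by ring

/-- Markov's inequality for the size -/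
lemma sum_bw_small {ρ : ℝ} (h0 : 0 ≤ ρ) (h1 : ρ ≤ 1) (S : Finset α) {k : ℕ}
    (hk : 2 * (#S * ρ) ≤ k) (hk0 : 1 ≤ k) :
    1 / 2 ≤ ∑ A ∈ S.powerset, (if #A ≤ k then bw ρ S A else 0) := by
  have hbw : ∀ A, 0 ≤ bw ρ S A := fun A =>
    mul_nonneg (pow_nonneg h0 _) (pow_nonneg (by linarith) _)
  have hk0' : (0 : ℝ) < k := by exact_mod_cast hk0
  have hmean : ∑ A ∈ S.powerset, bw ρ S A * #A = #S * ρ := by
    have h2 : ∀ A ∈ S.powerset, bw ρ S A * #A = ∑ x ∈ S, if {x} ⊆ A then bw ρ S A else 0 := by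
      intro A hA
      rw [mem_powerset] at hA
      simp only [singleton_subset_iff]
      rw [sum_ite_mem, inter_eq_right.2 hA, sum_const, nsmul_eq_mul, mul_comm]
    rw [sum_congr rfl h2, sum_comm]
    have h3 : ∀ x ∈ S, ∑ A ∈ S.powerset, (if {x} ⊆ A then bw ρ S A else 0) = ρ := by
      intro x hx
      rw [sum_bw_sup ρ (singleton_subset_iff.2 hx), card_singleton, pow_one]
    rw [sum_congr rfl h3, sum_const, nsmul_eq_mul]
  have hpt : ∀ A ∈ S.powerset, bw ρ S A ≤ (if #A ≤ k then bw ρ S A else 0) +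
      (1 / k) * (bw ρ S A * #A) := by
    intro A _
    split_ifs with h
    · have : 0 ≤ (1 / (k : ℝ)) * (bw ρ S A * #A) :=
        mul_nonneg (by positivity) (mul_nonneg (hbw A) (by positivity))
      linarith
    · push Not at h
      have h2 : (k : ℝ) ≤ #A := by exact_mod_cast h.le
      rw [zero_add]
      have h3 : bw ρ S A = (1 / k) * (bw ρ S A * k) := by field_simp
      calc bw ρ S A = (1 / k) * (bw ρ S A * k) := h3
        _ ≤ (1 / k) * (bw ρ S A * #A) :=
          mul_le_mul_of_nonneg_left (mul_le_mul_of_nonneg_left h2 (hbw A)) (by positivity)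
  have h2 := sum_le_sum hpt
  rw [sum_bw, sum_add_distrib, ← mul_sum, hmean] at h2
  have h3 : (1 / (k : ℝ)) * (#S * ρ) ≤ 1 / 2 := by
    rw [one_div_mul_eq_div, div_le_div_iff₀ hk0' (by norm_num)]
    linarith
  linarith

/-- the local inequality -/
lemma lym_step (S : Finset α) (P : Finset α → Prop) [DecidablePred P]
    (hP : ∀ A B, A ⊆ B → P B → P A) {j : ℕ} (hj : j < #S) :
    #{A ∈ S.powersetCard (j + 1) | P A} * (j + 1) ≤ #{A ∈ S.powersetCard j | P A} * (#S - j) := by
  refine card_mul_le_card_mul (fun A B => B ⊆ A) ?_ ?_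
  · intro A hA
    rw [mem_filter, mem_powersetCard] at hA
    obtain ⟨⟨hAS, hAc⟩, hPA⟩ := hA
    calc j + 1 = #(A.image fun x => A.erase x) := by
          rw [card_image_of_injOn, hAc]
          intro x hx y hy hxy
          by_contra hne
          have h1 : x ∈ A.erase y := mem_erase.2 ⟨hne, hx⟩
          dsimp only at hxy
          rw [← hxy] at h1
          exact notMem_erase x A h1
      _ ≤ _ := by
          refine card_le_card ?_
          intro B hB
          obtain ⟨x, hx, rfl⟩ := mem_image.1 hB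
          rw [mem_bipartiteAbove, mem_filter, mem_powersetCard]
          refine ⟨⟨⟨(erase_subset _ _).trans hAS, ?_⟩, hP _ _ (erase_subset _ _) hPA⟩,
            erase_subset _ _⟩
          rw [card_erase_of_mem hx, hAc]
          rfl
  · intro B hB
    rw [mem_filter, mem_powersetCard] at hB
    obtain ⟨⟨hBS, hBc⟩, hPB⟩ := hB
    calc _ ≤ #((S \ B).image fun x => insert x B) := by
          refine card_le_card ?_
          intro A hA
          rw [mem_bipartiteBelow, mem_filter, mem_powersetCard] at hA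
          obtain ⟨⟨⟨hAS, hAc⟩, -⟩, hBA⟩ := hA
          have h1 : #(A \ B) = 1 := by rw [card_sdiff_of_subset hBA]; omega
          obtain ⟨x, hx⟩ := card_eq_one.1 h1
          have hxA : x ∈ A \ B := by rw [hx]; exact mem_singleton_self x
          rw [mem_sdiff] at hxA
          rw [mem_image]
          refine ⟨x, mem_sdiff.2 ⟨hAS hxA.1, hxA.2⟩, ?_⟩
          rw [insert_eq, ← hx]
          exact sdiff_union_of_subset hBA
      _ ≤ #(S \ B) := card_image_le
      _ = #S - j := by rw [card_sdiff_of_subset hBS, hBc]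

lemma lym (S : Finset α) (P : Finset α → Prop) [DecidablePred P]
    (hP : ∀ A B, A ⊆ B → P B → P A) {j k : ℕ} (hjk : j ≤ k) (hk : k ≤ #S) :
    (#{A ∈ S.powersetCard k | P A} : ℝ) / (#S).choose k ≤
      (#{A ∈ S.powersetCard j | P A} : ℝ) / (#S).choose j := by
  induction k, hjk using Nat.le_induction with
  | base => exact le_rfl
  | succ i hi ih =>
    refine le_trans ?_ (ih (by omega))
    have h1 := lym_step S P hP (j := i) (by omega)
    have h2 : (#S).choose (i + 1) * (i + 1) = (#S).choose i * (#S - i) :=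
      Nat.choose_succ_right_eq _ _
    have c1 : (0 : ℝ) < (#S).choose (i + 1) := by exact_mod_cast Nat.choose_pos hk
    have c2 : (0 : ℝ) < (#S).choose i := by exact_mod_cast Nat.choose_pos (by omega)
    rw [div_le_div_iff₀ c1 c2]
    have h3 : #{A ∈ S.powersetCard (i + 1) | P A} * (#S).choose i * (i + 1) ≤
        #{A ∈ S.powersetCard i | P A} * (#S).choose (i + 1) * (i + 1) := by
      calc #{A ∈ S.powersetCard (i + 1) | P A} * (#S).choose i * (i + 1)
          = (#{A ∈ S.powersetCard (i + 1) | P A} * (i + 1)) * (#S).choose i := by ring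
        _ ≤ (#{A ∈ S.powersetCard i | P A} * (#S - i)) * (#S).choose i :=
            Nat.mul_le_mul_right _ h1
        _ = #{A ∈ S.powersetCard i | P A} * ((#S).choose i * (#S - i)) := by ring
        _ = #{A ∈ S.powersetCard i | P A} * (#S).choose (i + 1) * (i + 1) := by
            rw [← h2]; ring
    have h4 := Nat.le_of_mul_le_mul_right h3 (by omega)
    exact_mod_cast h4

/-- A random subset of size `k` contains one of many disjoint small sets. -/
theorem avoid_prob {S : Finset α} {F : Finset (Finset α)} (hF : ∀ B ∈ F, B ⊆ S)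
    (hdis : (F : Set (Finset α)).PairwiseDisjoint id) {s : ℕ} (hs : ∀ B ∈ F, #B ≤ s)
    {ρ : ℝ} (h0 : 0 ≤ ρ) (h1 : ρ ≤ 1) {k : ℕ} (hk : 2 * (#S * ρ) ≤ k) (hk1 : 1 ≤ k)
    (hkS : k ≤ #S) :
    (#{A ∈ S.powersetCard k | ∀ B ∈ F, ¬ B ⊆ A} : ℝ) ≤
      2 * Real.exp (- (ρ ^ s * #F)) * (#S).choose k := by
  have hbw : ∀ A, 0 ≤ bw ρ S A := fun A =>
    mul_nonneg (pow_nonneg h0 _) (pow_nonneg (by linarith) _)
  have hc : ∀ j, j ≤ #S → (0 : ℝ) < (#S).choose j := fun j hj => by
    exact_mod_cast Nat.choose_pos hj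
  set ak : ℝ := (#{A ∈ S.powersetCard k | ∀ B ∈ F, ¬ B ⊆ A} : ℝ) / (#S).choose k with hak
  have hak0 : 0 ≤ ak := by positivity
  -- lower bound for the probability
  have hlow : ak * (1 / 2) ≤ ∑ A ∈ S.powerset, (if ∀ B ∈ F, ¬ B ⊆ A then bw ρ S A else 0) := by
    have hdec : ∀ f : Finset α → ℝ, ∑ A ∈ S.powerset, f A =
        ∑ j ∈ range (#S + 1), ∑ A ∈ S.powersetCard j, f A := by
      intro f
      rw [sum_powerset]
    calc ak * (1 / 2) ≤ ak * ∑ A ∈ S.powerset, (if #A ≤ k then bw ρ S A else 0) :=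
          mul_le_mul_of_nonneg_left (sum_bw_small h0 h1 S hk hk1) hak0
      _ = ∑ j ∈ range (#S + 1), ak * ∑ A ∈ S.powersetCard j, (if #A ≤ k then bw ρ S A else 0) := by
          rw [hdec, mul_sum]
      _ ≤ ∑ j ∈ range (#S + 1), ∑ A ∈ S.powersetCard j,
            (if ∀ B ∈ F, ¬ B ⊆ A then bw ρ S A else 0) := by
          refine sum_le_sum fun j hj => ?_
          rw [mem_range] at hj
          have e1 : ∀ A ∈ S.powersetCard j, (if #A ≤ k then bw ρ S A else 0) =
              if j ≤ k then ρ ^ j * (1 - ρ) ^ (#S - j) else 0 := by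
            intro A hA
            rw [mem_powersetCard] at hA
            unfold bw
            rw [hA.2]
          have e2 : ∀ A ∈ S.powersetCard j, (if ∀ B ∈ F, ¬ B ⊆ A then bw ρ S A else 0) =
              if ∀ B ∈ F, ¬ B ⊆ A then ρ ^ j * (1 - ρ) ^ (#S - j) else 0 := by
            intro A hA
            rw [mem_powersetCard] at hA
            unfold bw
            rw [hA.2]
          have s1 : ∑ A ∈ S.powersetCard j, (if #A ≤ k then bw ρ S A else 0) =
              (#S).choose j * (if j ≤ k then ρ ^ j * (1 - ρ) ^ (#S - j) else 0) := by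
            rw [sum_congr rfl e1, sum_const, nsmul_eq_mul, card_powersetCard]
          have s2 : ∑ A ∈ S.powersetCard j, (if ∀ B ∈ F, ¬ B ⊆ A then bw ρ S A else 0) =
              #{A ∈ S.powersetCard j | ∀ B ∈ F, ¬ B ⊆ A} * (ρ ^ j * (1 - ρ) ^ (#S - j)) := by
            rw [sum_congr rfl e2, ← sum_filter, sum_const, nsmul_eq_mul]
          rw [s1, s2]
          have hw : 0 ≤ ρ ^ j * (1 - ρ) ^ (#S - j) :=
            mul_nonneg (pow_nonneg h0 _) (pow_nonneg (by linarith) _)
          split_ifs with hjk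
          · have h2 := lym S (fun A => ∀ B ∈ F, ¬ B ⊆ A)
              (fun A B hAB hB C hC hCA => hB C hC (hCA.trans hAB)) hjk hkS
            rw [← hak, le_div_iff₀ (hc j (by omega))] at h2
            calc ak * ((#S).choose j * (ρ ^ j * (1 - ρ) ^ (#S - j)))
                = (ak * (#S).choose j) * (ρ ^ j * (1 - ρ) ^ (#S - j)) := by ring
              _ ≤ _ := mul_le_mul_of_nonneg_right h2 hw
          · rw [mul_zero, mul_zero]
            positivity
      _ = _ := (hdec _).symm
  rw [sum_bw_avoid ρ hF hdis] at hlow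
  have hup : ∏ B ∈ F, (1 - ρ ^ #B) ≤ Real.exp (- (ρ ^ s * #F)) := by
    have h2 : ∀ B ∈ F, 1 - ρ ^ #B ≤ Real.exp (- ρ ^ s) := by
      intro B hB
      have h3 : ρ ^ s ≤ ρ ^ #B := pow_le_pow_of_le_one h0 h1 (hs B hB)
      have h4 := Real.add_one_le_exp (- ρ ^ s)
      linarith
    calc ∏ B ∈ F, (1 - ρ ^ #B) ≤ ∏ B ∈ F, Real.exp (- ρ ^ s) :=
          prod_le_prod (fun B _ => by
            have := pow_le_one₀ h0 h1 (n := #B)
            linarith) h2
      _ = Real.exp (- (ρ ^ s * #F)) := by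
          rw [prod_const, ← Real.exp_nat_mul]
          congr 1
          ring
  have h2 : ak ≤ 2 * Real.exp (- (ρ ^ s * #F)) := by linarith
  rw [hak, div_le_iff₀ (hc k hkS)] at h2
  exact h2

end Pool.Agent.R555.ST
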